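import Mathlib.CategoryTheory.Preadditive.Biproducts
import Mathlib.CategoryTheory.Idempotents.Basic
import Mathlib.CategoryTheory.Preadditive.AdditiveFunctor
import Mathlib.Order.Interval.Finset.Basic
import Mathlib.Data.Int.Interval
import Mathlib.Algebra.BigOperators.Group.Finset.Sigma
import Mathlib.Tactic.Abel
import Mathlib.Tactic.Linarith

/-!
# Truncating band matrices

Purely formal part of the argument: two families `X i`, `Y i` (`i : ℤ`) of objects of an additive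
category, mutually inverse band matrices `U`, `V` between them, and an additive functor `T` shifting
everything by one. Truncation of `V ∘ P_{≥ 0} ∘ U` gives an object `Q` with
`Q ⊞ X d ≅ T Q ⊞ Y 0`.
-/

set_option autoImplicit false

open CategoryTheory CategoryTheory.Limits

namespace Pool.Agent.Lib.MP_5c0b30_ag

universe v u

variable {C : Type u} [Category.{v} C] [Preadditive C]

/-- Mutually inverse band matrices of width `d` between two families of objects. -/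
structure BandIso (X Y : ℤ → C) (d : ℤ) where
  U : ∀ i j, X i ⟶ Y j
  V : ∀ i j, Y i ⟶ X j
  d_nonneg : 0 ≤ d
  U_zero : ∀ i j, (j < i - d ∨ i + d < j) → U i j = 0
  V_zero : ∀ i j, (j < i - d ∨ i + d < j) → V i j = 0
  UV_self : ∀ i, ∑ k ∈ Finset.Icc (i - d) (i + d), U i k ≫ V k i = 𝟙 (X i)
  UV_ne : ∀ i j, i ≠ j → ∑ k ∈ Finset.Icc (i - d) (i + d), U i k ≫ V k j = 0
  VU_self : ∀ i, ∑ k ∈ Finset.Icc (i - d) (i + d), V i k ≫ U k i = 𝟙 (Y i)
  VU_ne : ∀ i j, i ≠ j → ∑ k ∈ Finset.Icc (i - d) (i + d), V i k ≫ U k j = 0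

namespace BandIso

variable {X Y : ℤ → C} {d : ℤ} (B : BandIso X Y d)

/-- The truncated product `∑_{k ≥ m} U i k ≫ V k j`. -/
def E (m i j : ℤ) : X i ⟶ X j := ∑ k ∈ Finset.Icc m (i + d), B.U i k ≫ B.V k j

lemma E_eq (m i j : ℤ) (S : Finset ℤ) (hS : ∀ k, m ≤ k → k ≤ i + d → k ∈ S)
    (hS' : ∀ k ∈ S, m ≤ k) : B.E m i j = ∑ k ∈ S, B.U i k ≫ B.V k j := by
  unfold E
  refine Finset.sum_subset (fun k hk => ?_) (fun k hk hk' => ?_)
  · rw [Finset.mem_Icc] at hk
    exact hS k hk.1 hk.2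
  · rw [Finset.mem_Icc, not_and_or] at hk'
    rcases hk' with h | h
    · exact absurd (hS' k hk) h
    · rw [B.U_zero i k (Or.inr (by omega)), zero_comp]

lemma E_low (m i j : ℤ) (h : i + d < m) : B.E m i j = 0 := by
  unfold E
  rw [Finset.Icc_eq_empty (by omega), Finset.sum_empty]

lemma sum_U_V (i j : ℤ) (S : Finset ℤ) (hS : ∀ k, i - d ≤ k → k ≤ i + d → k ∈ S) :
    ∑ k ∈ S, B.U i k ≫ B.V k j =
      ∑ k ∈ Finset.Icc (i - d) (i + d), B.U i k ≫ B.V k j := by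
  symm
  refine Finset.sum_subset (fun k hk => ?_) (fun k hk hk' => ?_)
  · rw [Finset.mem_Icc] at hk
    exact hS k hk.1 hk.2
  · rw [Finset.mem_Icc, not_and_or] at hk'
    rw [B.U_zero i k (by omega), zero_comp]

lemma sum_V_U (i j : ℤ) (S : Finset ℤ) (hS : ∀ k, i - d ≤ k → k ≤ i + d → k ∈ S) :
    ∑ k ∈ S, B.V i k ≫ B.U k j =
      ∑ k ∈ Finset.Icc (i - d) (i + d), B.V i k ≫ B.U k j := by
  symm
  refine Finset.sum_subset (fun k hk => ?_) (fun k hk hk' => ?_)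
  · rw [Finset.mem_Icc] at hk
    exact hS k hk.1 hk.2
  · rw [Finset.mem_Icc, not_and_or] at hk'
    rw [B.V_zero i k (by omega), zero_comp]

/-- For column reasons the sum may also be taken over a set containing `[j - d, j + d]`. -/
lemma sum_V_U' (i j : ℤ) (S : Finset ℤ) (hS : ∀ k, j - d ≤ k → k ≤ j + d → k ∈ S) :
    ∑ k ∈ S, B.V i k ≫ B.U k j =
      ∑ k ∈ Finset.Icc (i - d) (i + d), B.V i k ≫ B.U k j := by
  rw [← B.sum_V_U i j (S ∪ Finset.Icc (i - d) (i + d))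
    (fun k h h' => Finset.mem_union_right _ (Finset.mem_Icc.2 ⟨h, h'⟩))]
  refine Finset.sum_subset Finset.subset_union_left (fun k _ hk' => ?_)
  have : ¬ (j - d ≤ k ∧ k ≤ j + d) := fun h => hk' (hS k h.1 h.2)
  rw [B.U_zero k j (by omega), comp_zero]

lemma E_high_self (m i : ℤ) (h : m + d ≤ i) : B.E m i i = 𝟙 (X i) := by
  unfold E
  rw [B.sum_U_V i i _ (fun k hk hk' => Finset.mem_Icc.2 ⟨by omega, hk'⟩), B.UV_self]

lemma E_high_ne (m i j : ℤ) (h : m + d ≤ i) (hij : i ≠ j) : B.E m i j = 0 := by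
  unfold E
  rw [B.sum_U_V i j _ (fun k hk hk' => Finset.mem_Icc.2 ⟨by omega, hk'⟩), B.UV_ne i j hij]

lemma E_col_low (m i j : ℤ) (h : j + d < m) : B.E m i j = 0 := by
  unfold E
  refine Finset.sum_eq_zero (fun k hk => ?_)
  rw [Finset.mem_Icc] at hk
  rw [B.V_zero k j (Or.inl (by omega)), comp_zero]

/-- If the column index is `≥ m + d`, truncation has no effect. -/
lemma E_col_high_ne (m i j : ℤ) (h : m + d ≤ j) (hij : i ≠ j) : B.E m i j = 0 := by
  rw [B.E_eq m i j (Finset.Icc m (i + d)) (fun k h1 h2 => Finset.mem_Icc.2 ⟨h1, h2⟩)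
    (fun k hk => (Finset.mem_Icc.1 hk).1)]
  rw [← B.UV_ne i j hij, ← B.sum_U_V i j (Finset.Icc (i - d) (i + d) ∪ Finset.Icc m (i + d))
    (fun k h h' => Finset.mem_union_left _ (Finset.mem_Icc.2 ⟨h, h'⟩))]
  refine Finset.sum_subset Finset.subset_union_right (fun k hk hk' => ?_)
  have h1 : ¬ (m ≤ k ∧ k ≤ i + d) := fun h => hk' (Finset.mem_Icc.2 h)
  have h2 : k ≤ i + d := by
    rcases Finset.mem_union.1 hk with h | h
    · exact (Finset.mem_Icc.1 h).2
    · exact (Finset.mem_Icc.1 h).2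
  rw [B.V_zero k j (Or.inr (by omega)), comp_zero]

/-- The key identity: `∑_l V k l ≫ E l j = V k j` for `k ≥ m`. -/
lemma V_E (m k j : ℤ) (hk : m ≤ k) (S : Finset ℤ)
    (hS : ∀ l, k - d ≤ l → l ≤ k + d → l ∈ S) :
    ∑ l ∈ S, B.V k l ≫ B.E m l j = B.V k j := by
  have hd := B.d_nonneg
  -- restrict to `[k - d, k + d]`
  have h1 : ∑ l ∈ S, B.V k l ≫ B.E m l j =
      ∑ l ∈ Finset.Icc (k - d) (k + d), B.V k l ≫ B.E m l j := by
    symm
    refine Finset.sum_subset (fun l hl => ?_) (fun l hl hl' => ?_)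
    · rw [Finset.mem_Icc] at hl
      exact hS l hl.1 hl.2
    · rw [Finset.mem_Icc, not_and_or] at hl'
      rw [B.V_zero k l (by omega), zero_comp]
  rw [h1]
  have h2 : ∀ l ∈ Finset.Icc (k - d) (k + d), B.V k l ≫ B.E m l j =
      ∑ k' ∈ Finset.Icc m (k + 2 * d), B.V k l ≫ B.U l k' ≫ B.V k' j := by
    intro l hl
    rw [Finset.mem_Icc] at hl
    rw [B.E_eq m l j (Finset.Icc m (k + 2 * d))
      (fun k' h h' => Finset.mem_Icc.2 ⟨h, by omega⟩) (fun k' h => (Finset.mem_Icc.1 h).1),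
      Preadditive.comp_sum]
  rw [Finset.sum_congr rfl h2, Finset.sum_comm]
  have h3 : ∀ k' ∈ Finset.Icc m (k + 2 * d),
      ∑ l ∈ Finset.Icc (k - d) (k + d), B.V k l ≫ B.U l k' ≫ B.V k' j =
        (∑ l ∈ Finset.Icc (k - d) (k + d), B.V k l ≫ B.U l k') ≫ B.V k' j := by
    intro k' _
    rw [Preadditive.sum_comp]
    exact Finset.sum_congr rfl (fun l _ => (Category.assoc _ _ _).symm)
  rw [Finset.sum_congr rfl h3, Finset.sum_eq_single k]
  · rw [B.VU_self, Category.id_comp]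
  · intro k' _ hk'
    rw [B.VU_ne k k' (Ne.symm hk'), zero_comp]
  · intro h
    exact absurd (Finset.mem_Icc.2 ⟨hk, by omega⟩) h

/-- The companion of `V_E`: `∑_l V k l ≫ E l j = 0` for `k < m`. -/
lemma V_E_low (m k j : ℤ) (hk : k < m) (S : Finset ℤ)
    (hS : ∀ l, k - d ≤ l → l ≤ k + d → l ∈ S) :
    ∑ l ∈ S, B.V k l ≫ B.E m l j = 0 := by
  have h1 : ∑ l ∈ S, B.V k l ≫ B.E m l j =
      ∑ l ∈ Finset.Icc (k - d) (k + d), B.V k l ≫ B.E m l j := by
    symm
    refine Finset.sum_subset (fun l hl => ?_) (fun l hl hl' => ?_)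
    · rw [Finset.mem_Icc] at hl
      exact hS l hl.1 hl.2
    · rw [Finset.mem_Icc, not_and_or] at hl'
      rw [B.V_zero k l (by omega), zero_comp]
  rw [h1]
  have h2 : ∀ l ∈ Finset.Icc (k - d) (k + d), B.V k l ≫ B.E m l j =
      ∑ k' ∈ Finset.Icc m (k + 2 * d), B.V k l ≫ B.U l k' ≫ B.V k' j := by
    intro l hl
    rw [Finset.mem_Icc] at hl
    rw [B.E_eq m l j (Finset.Icc m (k + 2 * d))
      (fun k' h h' => Finset.mem_Icc.2 ⟨h, by omega⟩) (fun k' h => (Finset.mem_Icc.1 h).1),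
      Preadditive.comp_sum]
  rw [Finset.sum_congr rfl h2, Finset.sum_comm]
  refine Finset.sum_eq_zero (fun k' hk' => ?_)
  rw [Finset.mem_Icc] at hk'
  have h3 : ∑ l ∈ Finset.Icc (k - d) (k + d), B.V k l ≫ B.U l k' ≫ B.V k' j =
        (∑ l ∈ Finset.Icc (k - d) (k + d), B.V k l ≫ B.U l k') ≫ B.V k' j := by
    rw [Preadditive.sum_comp]
    exact Finset.sum_congr rfl (fun l _ => (Category.assoc _ _ _).symm)
  rw [h3, B.VU_ne k k' (by omega), zero_comp]

/-- `∑_i E j i ≫ U i 0 = 0` for the truncation at `1`. -/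
lemma E_U (j : ℤ) (S : Finset ℤ) (hS : ∀ l, - d ≤ l → l ≤ d → l ∈ S) :
    ∑ i ∈ S, B.E 1 j i ≫ B.U i 0 = 0 := by
  have h1 : ∀ i ∈ S, B.E 1 j i ≫ B.U i 0 =
      ∑ k ∈ Finset.Icc 1 (j + d), B.U j k ≫ B.V k i ≫ B.U i 0 := by
    intro i _
    rw [E, Preadditive.sum_comp]
    exact Finset.sum_congr rfl (fun k _ => Category.assoc _ _ _)
  rw [Finset.sum_congr rfl h1, Finset.sum_comm]
  refine Finset.sum_eq_zero (fun k hk => ?_)
  rw [Finset.mem_Icc] at hk
  rw [← Preadditive.comp_sum, B.sum_V_U' k 0 S (fun l h h' => hS l (by omega) (by omega)),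
    B.VU_ne k 0 (by omega), comp_zero]

/-- Peeling off the `0`-th term. -/
lemma E_zero_eq (i j : ℤ) : B.E 0 i j = B.U i 0 ≫ B.V 0 j + B.E 1 i j := by
  by_cases h : 0 ≤ i + d
  · have : Finset.Icc (0 : ℤ) (i + d) = insert 0 (Finset.Icc 1 (i + d)) := by
      ext k
      simp only [Finset.mem_Icc, Finset.mem_insert]
      omega
    rw [E, this, Finset.sum_insert (by simp), E]
  · rw [B.E_low 0 i j (by omega), B.E_low 1 i j (by omega), B.U_zero i 0 (by omega), zero_comp,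
      add_zero]

/-- The truncated products multiply like a projector. -/
lemma E_E (m i j : ℤ) (S : Finset ℤ)
    (hS : ∀ l, m - d ≤ l → l ≤ i + 2 * d → l ∈ S) :
    ∑ l ∈ S, B.E m i l ≫ B.E m l j = B.E m i j := by
  have h1 : ∀ l ∈ S, B.E m i l ≫ B.E m l j =
      ∑ k ∈ Finset.Icc m (i + d), B.U i k ≫ B.V k l ≫ B.E m l j := by
    intro l _
    conv_lhs => rw [E]
    rw [Preadditive.sum_comp]
    exact Finset.sum_congr rfl (fun k _ => Category.assoc _ _ _)
  rw [Finset.sum_congr rfl h1, Finset.sum_comm]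
  conv_rhs => rw [E]
  refine Finset.sum_congr rfl (fun k hk => ?_)
  rw [Finset.mem_Icc] at hk
  rw [← Preadditive.comp_sum, B.V_E m k j hk.1 S (fun l h h' => hS l (by omega) (by omega))]

end BandIso

end Pool.Agent.Lib.MP_5c0b30_ag
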