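import Mathlib.CategoryTheory.Shift.ShiftedHom
import Mathlib.CategoryTheory.Preadditive.Basic
import Mathlib.CategoryTheory.Limits.Shapes.BinaryBiproducts
import Mathlib.Algebra.BigOperators.Finprod

/-!
# Morphisms of the orbit category, in elementary terms

Let `C` be a preadditive category with an action `X ↦ X⟦n⟧` of `ℤ` (for instance the category of
Chow motives with rational coefficients, `X⟦n⟧ = X(n)` being the Tate twist). A morphism `X ⟶ Y` of
the orbit category `C/⟦1⟧` is a finitely supported family of morphisms `X ⟶ Y⟦n⟧`, `n : ℤ`.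
-/

set_option autoImplicit false

open CategoryTheory CategoryTheory.Limits

namespace Pool.Agent.Lib.MP_5c0b30_ag

universe v u

variable {C : Type u} [Category.{v} C] [Preadditive C] [HasShift C ℤ]

/-- The composition of two families: `(u v)_c = ∑_a u_a v_{c - a}`. -/
noncomputable def famComp {X Y Z : C} (u : ∀ n : ℤ, X ⟶ Y⟦n⟧) (v : ∀ n : ℤ, Y ⟶ Z⟦n⟧) (c : ℤ) :
    X ⟶ Z⟦c⟧ :=
  ∑ᶠ a : ℤ, ShiftedHom.comp (u a) (v (c - a)) (sub_add_cancel c a)

/-- The identity family: the identity of `X` in degree `0`, and `0` in the other degrees. -/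
noncomputable def famId (X : C) (n : ℤ) : X ⟶ X⟦n⟧ :=
  if h : n = 0 then ShiftedHom.mk₀ n h (𝟙 X) else 0

/-- An isomorphism between `X` and `Y` in the orbit category of `C`: two finitely supported families
of morphisms `X ⟶ Y⟦n⟧` and `Y ⟶ X⟦n⟧`, inverse to each other. -/
structure OrbitEquiv (X Y : C) where
  hom : ∀ n : ℤ, X ⟶ Y⟦n⟧
  inv : ∀ n : ℤ, Y ⟶ X⟦n⟧
  finite_hom : {n : ℤ | hom n ≠ 0}.Finite
  finite_inv : {n : ℤ | inv n ≠ 0}.Finite
  hom_inv_id : ∀ n : ℤ, famComp hom inv n = famId X n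
  inv_hom_id : ∀ n : ℤ, famComp inv hom n = famId Y n

/-- `M` and `M'` are stably isomorphic in the orbit category. -/
def StablyOrbitEquiv [HasBinaryBiproducts C] (M M' : C) : Prop :=
  ∃ R : C, Nonempty (OrbitEquiv (M ⊞ R) (M' ⊞ R))

/-- The difference of `M` and `M'` (in the Grothendieck group of `C`) is `[P] - [P⟦1⟧]` for a formal
difference of objects: there are `P`, `Q` with `M ⊞ P⟦1⟧ ⊞ Q ≅ M' ⊞ P ⊞ Q⟦1⟧`. -/
def DifferByTwist [HasBinaryBiproducts C] (M M' : C) : Prop :=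
  ∃ P Q : C, Nonempty (M ⊞ (P⟦(1 : ℤ)⟧ ⊞ Q) ≅ M' ⊞ (P ⊞ Q⟦(1 : ℤ)⟧))

end Pool.Agent.Lib.MP_5c0b30_ag
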