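import Mathlib.CategoryTheory.Preadditive.Basic
import Mathlib.Algebra.BigOperators.Group.Finset.Sigma
import Mathlib.Tactic.Abel
import Mathlib.Tactic.Linarith

/-!
# Lefschetz objects in a preadditive category

An object `M = ⨁_{0 ≤ i ≤ 2d} K i` of a preadditive category with an endomorphism `N` mapping `K i`
to `K (i + 2)` such that `N ^ k : K (d - k) ⟶ K (d + k)` is an isomorphism for `0 ≤ k ≤ d`.
We show that every morphism commuting with `N` is upper triangular with respect to the
decomposition.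
-/

set_option autoImplicit false

open CategoryTheory CategoryTheory.Limits

namespace Pool.Agent.Lib.MP_5c0b30_ag

universe v u

variable {D : Type u} [Category.{v} D] [Preadditive D]

/-- Iterates of an endomorphism. -/
def iter {M : D} (N : M ⟶ M) : ℕ → (M ⟶ M)
  | 0 => 𝟙 M
  | k + 1 => iter N k ≫ N

/-- An (ungraded) Lefschetz structure of dimension `d`. -/
structure Lef (d : ℕ) (M : D) where
  K : ℕ → D
  ι : ∀ i, K i ⟶ M
  π : ∀ i, M ⟶ K i
  ι_π_self : ∀ i, ι i ≫ π i = 𝟙 (K i)
  ι_π_ne : ∀ i j, i ≠ j → ι i ≫ π j = 0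
  total : ∑ i ∈ Finset.range (2 * d + 1), π i ≫ ι i = 𝟙 M
  N : M ⟶ M
  N_deg : ∀ i j, j ≠ i + 2 → ι i ≫ N ≫ π j = 0
  hard : ∀ k, k ≤ d → IsIso (ι (d - k) ≫ iter N k ≫ π (d + k))

namespace Lef

variable {d : ℕ} {M M' : D} (L : Lef d M) (L' : Lef d M')

lemma ι_high (i : ℕ) (h : 2 * d < i) : L.ι i = 0 := by
  rw [← Category.comp_id (L.ι i), ← L.total, Preadditive.comp_sum]
  refine Finset.sum_eq_zero (fun j hj => ?_)
  rw [Finset.mem_range] at hj
  rw [← Category.assoc, L.ι_π_ne i j (by omega), zero_comp]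

lemma π_high (i : ℕ) (h : 2 * d < i) : L.π i = 0 := by
  rw [← Category.id_comp (L.π i), ← L.total, Preadditive.sum_comp]
  refine Finset.sum_eq_zero (fun j hj => ?_)
  rw [Finset.mem_range] at hj
  rw [Category.assoc, L.ι_π_ne j i (by omega), comp_zero]

/-- Insert the decomposition of the identity. -/
lemma insert_total {A B : D} (f : A ⟶ M) (g : M ⟶ B) :
    f ≫ g = ∑ l ∈ Finset.range (2 * d + 1), (f ≫ L.π l) ≫ (L.ι l ≫ g) := by
  conv_lhs => rw [← Category.id_comp g, ← L.total, Preadditive.sum_comp, Preadditive.comp_sum]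
  refine Finset.sum_congr rfl (fun l _ => ?_)
  simp only [Category.assoc]

/-- If all components but the `l`-th one vanish, only this one contributes. -/
lemma insert_single {A B : D} (f : A ⟶ M) (g : M ⟶ B) (l : ℕ)
    (h : ∀ l', l' ≠ l → (f ≫ L.π l') ≫ (L.ι l' ≫ g) = 0) :
    f ≫ g = (f ≫ L.π l) ≫ (L.ι l ≫ g) := by
  rw [L.insert_total f g]
  by_cases hl : l ∈ Finset.range (2 * d + 1)
  · exact Finset.sum_eq_single_of_mem l hl (fun l' _ h' => h l' h')
  · rw [Finset.mem_range, not_lt] at hl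
    rw [L.ι_high l (by omega), zero_comp, comp_zero]
    refine Finset.sum_eq_zero (fun l' hl' => h l' ?_)
    rw [Finset.mem_range] at hl'
    omega

lemma iter_deg (k i j : ℕ) (h : j ≠ i + 2 * k) : L.ι i ≫ iter L.N k ≫ L.π j = 0 := by
  induction k generalizing j with
  | zero => simpa [iter] using L.ι_π_ne i j (by omega)
  | succ k ih =>
    have h1 : L.ι i ≫ iter L.N (k + 1) ≫ L.π j = (L.ι i ≫ iter L.N k) ≫ (L.N ≫ L.π j) := by
      simp only [iter, Category.assoc]
    rw [h1, L.insert_total]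
    refine Finset.sum_eq_zero (fun l _ => ?_)
    by_cases hl : l = i + 2 * k
    · rw [L.N_deg l j (by omega), comp_zero]
    · rw [Category.assoc (L.ι i), ih l hl, zero_comp]

/-- `N ^ k` maps `K i` into `K (i + 2k)`. -/
lemma ι_iter (k i : ℕ) :
    L.ι i ≫ iter L.N k = (L.ι i ≫ iter L.N k ≫ L.π (i + 2 * k)) ≫ L.ι (i + 2 * k) := by
  have h1 := L.insert_single (L.ι i ≫ iter L.N k) (𝟙 M) (i + 2 * k) (fun l' hl' => by
    rw [Category.assoc (L.ι i), L.iter_deg k i l' hl', zero_comp])
  rw [Category.comp_id, Category.comp_id] at h1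
  simpa only [Category.assoc] using h1

omit [Preadditive D] in
lemma iter_add (N : M ⟶ M) (a b : ℕ) : iter N (a + b) = iter N a ≫ iter N b := by
  induction b with
  | zero => simp [iter]
  | succ b ih => rw [← add_assoc, iter, ih, iter, Category.assoc]

omit [Preadditive D] in
lemma iter_one (N : M ⟶ M) : iter N 1 = N := by simp [iter]

/-- Factorisation of the components of `N ^ (a + b)`. -/
lemma iter_add_comp (a b i j : ℕ) :
    L.ι i ≫ iter L.N (a + b) ≫ L.π j =
      (L.ι i ≫ iter L.N a ≫ L.π (i + 2 * a)) ≫ (L.ι (i + 2 * a) ≫ iter L.N b ≫ L.π j) := by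
  have h1 : L.ι i ≫ iter L.N (a + b) ≫ L.π j =
      (L.ι i ≫ iter L.N a) ≫ (iter L.N b ≫ L.π j) := by
    rw [iter_add]
    simp only [Category.assoc]
  rw [h1, L.ι_iter a i]
  simp only [Category.assoc]

/-- `N ^ m : K j ⟶ K (j + 2m)` is a monomorphism if `j + m ≤ d`. -/
lemma cancel_low {A : D} (j : ℕ) (f : A ⟶ L.K j) (m : ℕ) (h : j + m ≤ d)
    (hf : f ≫ (L.ι j ≫ iter L.N m ≫ L.π (j + 2 * m)) = 0) : f = 0 := by
  obtain ⟨k, rfl⟩ : ∃ k, d = j + m + k := ⟨d - (j + m), by omega⟩
  have h1 := L.hard (m + k) (by omega)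
  have h2 : j + m + k - (m + k) = j := by omega
  rw [h2] at h1
  have h3 := L.iter_add_comp m k j (j + m + k + (m + k))
  rw [← cancel_mono (L.ι j ≫ iter L.N (m + k) ≫ L.π (j + m + k + (m + k))), h3,
    ← Category.assoc, hf, zero_comp, zero_comp]

/-- Key statement: a morphism which commutes with the Lefschetz operators does not lower the
index. -/
theorem upper_triangular (u : M ⟶ M') (hu : L.N ≫ u = u ≫ L'.N) (i j : ℕ) (hij : j < i) :
    L.ι i ≫ u ≫ L'.π j = 0 := by
  -- `u` commutes with all powers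
  have hu' : ∀ k, iter L.N k ≫ u = u ≫ iter L'.N k := by
    intro k
    induction k with
    | zero => simp [iter]
    | succ k ih => rw [iter, iter, Category.assoc, hu, ← Category.assoc, ih, Category.assoc]
  induction i using Nat.strong_induction_on generalizing j with
  | _ i ih =>
    by_cases hi2 : 2 * d < i
    · rw [L.ι_high i hi2, zero_comp]
    by_cases hid : d < i
    · -- `K i = N ^ (i - d) K (2d - i)`
      obtain ⟨k, rfl⟩ : ∃ k, i = d + k := ⟨i - d, by omega⟩
      have hk : IsIso (L.ι (d - k) ≫ iter L.N k ≫ L.π (d + k)) := L.hard k (by omega)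
      have h1 : L.ι (d - k) ≫ iter L.N k =
          (L.ι (d - k) ≫ iter L.N k ≫ L.π (d + k)) ≫ L.ι (d + k) := by
        have := L.ι_iter k (d - k)
        have h2 : d - k + 2 * k = d + k := by omega
        rwa [h2] at this
      rw [← cancel_epi (L.ι (d - k) ≫ iter L.N k ≫ L.π (d + k)), comp_zero]
      have h3 : (L.ι (d - k) ≫ iter L.N k ≫ L.π (d + k)) ≫ L.ι (d + k) ≫ u ≫ L'.π j =
          (L.ι (d - k) ≫ u) ≫ (iter L'.N k ≫ L'.π j) := by
        calc (L.ι (d - k) ≫ iter L.N k ≫ L.π (d + k)) ≫ L.ι (d + k) ≫ u ≫ L'.π j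
            = ((L.ι (d - k) ≫ iter L.N k ≫ L.π (d + k)) ≫ L.ι (d + k)) ≫ u ≫ L'.π j := by
              simp only [Category.assoc]
          _ = (L.ι (d - k) ≫ iter L.N k) ≫ u ≫ L'.π j := by rw [← h1]
          _ = L.ι (d - k) ≫ (iter L.N k ≫ u) ≫ L'.π j := by simp only [Category.assoc]
          _ = L.ι (d - k) ≫ (u ≫ iter L'.N k) ≫ L'.π j := by rw [hu' k]
          _ = _ := by simp only [Category.assoc]
      rw [h3, L'.insert_total]
      refine Finset.sum_eq_zero (fun l _ => ?_)
      by_cases hl : j = l + 2 * k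
      · have h4 : (L.ι (d - k) ≫ u) ≫ L'.π l = 0 := by
          rw [Category.assoc]
          exact ih (d - k) (by omega) l (by omega)
        rw [h4, zero_comp]
      · rw [L'.iter_deg k l j hl, comp_zero]
    · -- low degrees
      -- `N ^ (d - i + 1)` kills the primitive part
      have hlow : ∀ (A : D) (p : A ⟶ M), p ≫ iter L.N (d - i + 1) = 0 → p ≫ u ≫ L'.π j = 0 := by
        intro A p hp
        have h1 : (p ≫ u) ≫ (iter L'.N (d - i + 1) ≫ L'.π (j + 2 * (d - i + 1))) = 0 := by
          have : (p ≫ u) ≫ (iter L'.N (d - i + 1) ≫ L'.π (j + 2 * (d - i + 1))) =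
              (p ≫ iter L.N (d - i + 1)) ≫ u ≫ L'.π (j + 2 * (d - i + 1)) := by
            calc (p ≫ u) ≫ (iter L'.N (d - i + 1) ≫ L'.π (j + 2 * (d - i + 1)))
                = p ≫ (u ≫ iter L'.N (d - i + 1)) ≫ L'.π (j + 2 * (d - i + 1)) := by
                  simp only [Category.assoc]
              _ = p ≫ (iter L.N (d - i + 1) ≫ u) ≫ L'.π (j + 2 * (d - i + 1)) := by
                  rw [hu']
              _ = _ := by simp only [Category.assoc]
          rw [this, hp, zero_comp]
        rw [L'.insert_single (p ≫ u) _ j (fun l hl => by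
          rw [L'.iter_deg (d - i + 1) l _ (by omega), comp_zero])] at h1
        have h2 := L'.cancel_low j _ (d - i + 1) (by omega) h1
        rwa [Category.assoc] at h2
      by_cases hi : i < 2
      · refine hlow _ (L.ι i) ?_
        rw [L.ι_iter, L.ι_high (i + 2 * (d - i + 1)) (by omega), comp_zero]
      · obtain ⟨i', rfl⟩ : ∃ i', i = i' + 2 := ⟨i - 2, by omega⟩
        have hg : IsIso (L.ι i' ≫ iter L.N (d - i') ≫ L.π (2 * d - i')) := by
          have := L.hard (d - i') (by omega)
          have h2 : d - (d - i') = i' := by omega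
          have h3 : d + (d - i') = 2 * d - i' := by omega
          rwa [h2, h3] at this
        let g := L.ι i' ≫ iter L.N (d - i') ≫ L.π (2 * d - i')
        let a : L.K (i' + 2) ⟶ L.K (2 * d - i') :=
          L.ι (i' + 2) ≫ iter L.N (d - (i' + 2) + 1) ≫ L.π (2 * d - i')
        have ha : L.ι (i' + 2) ≫ iter L.N (d - (i' + 2) + 1) = a ≫ L.ι (2 * d - i') := by
          have := L.ι_iter (d - (i' + 2) + 1) (i' + 2)
          have h2 : i' + 2 + 2 * (d - (i' + 2) + 1) = 2 * d - i' := by omega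
          rwa [h2] at this
        have hgN : L.ι i' ≫ iter L.N (d - i') = g ≫ L.ι (2 * d - i') := by
          have := L.ι_iter (d - i') i'
          have h2 : i' + 2 * (d - i') = 2 * d - i' := by omega
          rwa [h2] at this
        let b : L.K (i' + 2) ⟶ L.K i' := a ≫ inv g
        let p : L.K (i' + 2) ⟶ M := L.ι (i' + 2) - b ≫ L.ι i' ≫ L.N
        have hp : p ≫ iter L.N (d - (i' + 2) + 1) = 0 := by
          have h1 : (L.ι i' ≫ L.N) ≫ iter L.N (d - (i' + 2) + 1) = L.ι i' ≫ iter L.N (d - i') := by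
            have h2 : d - i' = 1 + (d - (i' + 2) + 1) := by omega
            rw [h2, iter_add L.N 1, iter_one, Category.assoc]
          simp only [p, Preadditive.sub_comp]
          rw [Category.assoc, h1, hgN, ha]
          simp [b]
        have hsum : L.ι (i' + 2) = p + b ≫ L.ι i' ≫ L.N := by simp [p]
        have h5 : (b ≫ L.ι i' ≫ L.N) ≫ u ≫ L'.π j = 0 := by
          have : (b ≫ L.ι i' ≫ L.N) ≫ u ≫ L'.π j =
              b ≫ ((L.ι i' ≫ u) ≫ (L'.N ≫ L'.π j)) := by
            calc (b ≫ L.ι i' ≫ L.N) ≫ u ≫ L'.π j = b ≫ L.ι i' ≫ (L.N ≫ u) ≫ L'.π j := by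
                  simp only [Category.assoc]
              _ = b ≫ L.ι i' ≫ (u ≫ L'.N) ≫ L'.π j := by rw [hu]
              _ = _ := by simp only [Category.assoc]
          rw [this, L'.insert_total, Finset.sum_eq_zero, comp_zero]
          intro l _
          by_cases hl : j = l + 2
          · have h4 : (L.ι i' ≫ u) ≫ L'.π l = 0 := by
              rw [Category.assoc]
              exact ih i' (by omega) l (by omega)
            rw [h4, zero_comp]
          · rw [L'.N_deg l j hl, comp_zero]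
        rw [hsum, Preadditive.add_comp, hlow _ p hp, h5, add_zero]

/-- The diagonal components of mutually inverse morphisms commuting with the Lefschetz operators
are mutually inverse. -/
theorem diag_inverse (u : M ⟶ M') (v : M' ⟶ M) (huv : u ≫ v = 𝟙 M)
    (hu : L.N ≫ u = u ≫ L'.N) (hv : L'.N ≫ v = v ≫ L.N) (i : ℕ) :
    (L.ι i ≫ u ≫ L'.π i) ≫ (L'.ι i ≫ v ≫ L.π i) = 𝟙 (L.K i) := by
  have h1 : (L.ι i ≫ u) ≫ (v ≫ L.π i) = 𝟙 (L.K i) := by
    rw [Category.assoc, ← Category.assoc u, huv, Category.id_comp, L.ι_π_self]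
  rw [L'.insert_single (L.ι i ≫ u) (v ≫ L.π i) i] at h1
  · simpa only [Category.assoc] using h1
  · intro l hl
    rcases lt_or_gt_of_ne hl with h | h
    · rw [Category.assoc (L.ι i), L.upper_triangular L' u hu i l h, zero_comp]
    · rw [L'.upper_triangular L v hv l i h, comp_zero]

end Lef

end Pool.Agent.Lib.MP_5c0b30_ag
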