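import Pool.Agent.Lib.MP_5c0b30_ag.OrbitIso
import Pool.Agent.Lib.MP_5c0b30_ag.Lefschetz
import Mathlib.RingTheory.Jacobson.Radical
import Mathlib.RingTheory.Jacobson.Ideal

/-!
# Objects satisfying hard Lefschetz in a category with Tate twists
-/

set_option autoImplicit false

open CategoryTheory CategoryTheory.Limits

namespace Pool.Agent.Lib.MP_5c0b30_ag

universe v u

variable {C : Type u} [Category.{v} C] [Preadditive C] [HasShift C ℤ]

/-- The powers `N ^ k : M ⟶ M⟦k⟧` of a morphism `N : M ⟶ M⟦1⟧`. -/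
noncomputable def npow {M : C} (N : M ⟶ M⟦(1 : ℤ)⟧) : ∀ k : ℕ, M ⟶ M⟦(k : ℤ)⟧
  | 0 => ShiftedHom.mk₀ ((0 : ℕ) : ℤ) (by simp) (𝟙 M)
  | k + 1 => ShiftedHom.comp (npow N k) N (show (1 : ℤ) + (k : ℤ) = ((k + 1 : ℕ) : ℤ) by
      push_cast; ring)

/-- `M` satisfies hard Lefschetz in dimension `d` with respect to `N : M ⟶ M⟦1⟧`: there is a
decomposition `M = ⨁_{0 ≤ i ≤ 2d} K i` (think of a Künneth decomposition
`h(X) = ⨁ h^i(X)`) such that `N` maps `K i` to `K (i + 2)⟦1⟧` and such that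
`N ^ k : K (d - k) ⟶ K (d + k)⟦k⟧` is an isomorphism for `0 ≤ k ≤ d`. -/
structure HardLefschetz (d : ℕ) (M : C) (N : M ⟶ M⟦(1 : ℤ)⟧) where
  K : ℕ → C
  ι : ∀ i, K i ⟶ M
  π : ∀ i, M ⟶ K i
  ι_π_self : ∀ i, ι i ≫ π i = 𝟙 (K i)
  ι_π_ne : ∀ i j, i ≠ j → ι i ≫ π j = 0
  total : ∑ i ∈ Finset.range (2 * d + 1), π i ≫ ι i = 𝟙 M
  N_deg : ∀ i j, j ≠ i + 2 → ι i ≫ N ≫ (π j)⟦(1 : ℤ)⟧' = 0
  hard : ∀ k : ℕ, k ≤ d → IsIso (ι (d - k) ≫ npow N k ≫ (π (d + k))⟦(k : ℤ)⟧')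

variable [∀ n : ℤ, (shiftFunctor C n).Additive]

omit [∀ n : ℤ, (shiftFunctor C n).Additive] in
lemma deg0_sum {X Y : C} {α : Type*} (s : Finset α) (f : α → (X ⟶ Y)) :
    deg0 (∑ i ∈ s, f i) = ∑ i ∈ s, deg0 (f i) := by
  classical
  induction s using Finset.induction_on with
  | empty => simp [deg0_zero]
  | insert a s ha ih => rw [Finset.sum_insert ha, Finset.sum_insert ha, deg0_add, ih]

lemma deg0_hof {X Y Z : C} (f : X ⟶ Y) (n : ℤ) (g : Y ⟶ Z⟦n⟧) :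
    orbitComp (deg0 f) (hof n g) = hof n (f ≫ g) := by
  rw [deg0, orbitComp_hof' _ _ (add_zero n), ShiftedHom.mk₀_comp]

lemma hof_deg0 {X Y Z : C} (n : ℤ) (f : X ⟶ Y⟦n⟧) (g : Y ⟶ Z) :
    orbitComp (hof n f) (deg0 g) = hof n (f ≫ g⟦n⟧') := by
  rw [deg0, orbitComp_hof' _ _ (zero_add n), ShiftedHom.comp_mk₀]

/-- A homogeneous morphism of degree `n` of the orbit category is invertible if the underlying
morphism `X ⟶ Y⟦n⟧` is. -/
lemma exists_inv_hof {X Y : C} (n : ℤ) (f : X ⟶ Y⟦n⟧) [IsIso f] :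
    ∃ g : OrbitHom Y X, orbitComp (hof n f) g = orbitId X ∧ orbitComp g (hof n f) = orbitId Y := by
  have h : hof n f = ((OrbitIso.ofCIso (asIso f)).trans (OrbitIso.shiftIso Y n)).hom := by
    change hof n f = orbitComp (deg0 f) (hof (X := Y⟦n⟧) (Y := Y) n (𝟙 (Y⟦n⟧)))
    rw [deg0_hof, Category.comp_id]
  rw [h]
  exact ⟨_, OrbitIso.hom_inv_id _, OrbitIso.inv_hom_id _⟩

lemma iter_hof {M : C} (N : M ⟶ M⟦(1 : ℤ)⟧) (k : ℕ) :
    iter (D := Orbit C) (M := toOrbit M) (hof 1 N) k = hof (k : ℤ) (npow N k) := by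
  induction k with
  | zero => rfl
  | succ k ih =>
    rw [iter, ih]
    exact orbitComp_hof' _ _ (show (1 : ℤ) + (k : ℤ) = ((k + 1 : ℕ) : ℤ) by push_cast; ring)

/-- The Lefschetz structure in the orbit category. -/
noncomputable def HardLefschetz.toLef {d : ℕ} {M : C} {N : M ⟶ M⟦(1 : ℤ)⟧}
    (L : HardLefschetz d M N) : Lef (D := Orbit C) d (toOrbit M) where
  K i := toOrbit (L.K i)
  ι i := deg0 (L.ι i)
  π i := deg0 (L.π i)
  ι_π_self i := (deg0_comp (L.ι i) (L.π i)).symm.trans (by rw [L.ι_π_self]; rfl)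
  ι_π_ne i j h := (deg0_comp (L.ι i) (L.π j)).symm.trans (by rw [L.ι_π_ne i j h, deg0_zero]; rfl)
  total := by
    have h1 : ∀ i, orbitComp (deg0 (L.π i)) (deg0 (L.ι i)) = deg0 (L.π i ≫ L.ι i) :=
      fun i => (deg0_comp _ _).symm
    have h2 : ∑ i ∈ Finset.range (2 * d + 1), orbitComp (deg0 (L.π i)) (deg0 (L.ι i)) =
        orbitId M := by
      rw [Finset.sum_congr rfl (fun i _ => h1 i), ← deg0_sum, L.total, deg0_id]
    exact h2
  N := hof 1 N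
  N_deg i j h := by
    have h1 : orbitComp (deg0 (L.ι i)) (orbitComp (hof 1 N) (deg0 (L.π j))) = 0 := by
      rw [hof_deg0, deg0_hof, L.N_deg i j h, hof, map_zero]
    exact h1
  hard k hk := by
    have h1 := L.hard k hk
    have h2 : orbitComp (deg0 (L.ι (d - k))) (orbitComp (hof (k : ℤ) (npow N k))
        (deg0 (L.π (d + k)))) =
        hof (k : ℤ) (L.ι (d - k) ≫ npow N k ≫ (L.π (d + k))⟦(k : ℤ)⟧') := by
      rw [hof_deg0, deg0_hof]
    obtain ⟨g, hg1, hg2⟩ :=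
      exists_inv_hof (k : ℤ) (L.ι (d - k) ≫ npow N k ≫ (L.π (d + k))⟦(k : ℤ)⟧')
    rw [← h2] at hg1 hg2
    rw [iter_hof]
    exact ⟨⟨g, hg1, hg2⟩⟩

/-- The degree `c` component of a composition in the orbit category. -/
lemma orbitComp_apply {X Y Z : C} (φ : OrbitHom X Y) (ψ : OrbitHom Y Z) (c : ℤ) (s : Finset ℤ)
    (hs : ∀ n, n ∉ s → φ n = 0) :
    (orbitComp φ ψ) c = ∑ n ∈ s, ShiftedHom.comp (φ n) (ψ (c - n)) (sub_add_cancel c n) := by
  have h1 : ∀ (n : ℤ) (f : X ⟶ Y⟦n⟧),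
      (orbitComp (hof n f) ψ) c = ShiftedHom.comp f (ψ (c - n)) (sub_add_cancel c n) := by
    intro n f
    induction ψ using DirectSum.induction_on with
    | zero => simp
    | add ψ₁ ψ₂ h₁ h₂ => rw [orbitComp_add, DirectSum.add_apply, h₁, h₂, DirectSum.add_apply,
        ShiftedHom.comp_add]
    | of m g =>
      change (orbitComp (hof n f) (hof m g)) c = ShiftedHom.comp f ((hof m g) (c - n)) _
      by_cases h : m = c - n
      · subst h
        rw [orbitComp_hof' _ _ (sub_add_cancel c n)]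
        rw [DirectSum.of_eq_same, DirectSum.of_eq_same]
      · rw [orbitComp_hof, DirectSum.of_eq_of_ne _ _ _ (by omega),
          DirectSum.of_eq_of_ne _ _ _ (Ne.symm h), ShiftedHom.comp_zero]
  conv_lhs => rw [eq_sum_hof φ s hs]
  simp only [orbitComp, map_sum, AddMonoidHom.finsetSum_apply]
  rw [show (∑ x ∈ s, (orbitCompHom X Y Z) (hof x (φ x)) ψ : OrbitHom X Z) c =
    ∑ x ∈ s, ((orbitCompHom X Y Z) (hof x (φ x)) ψ : OrbitHom X Z) c from
    DFinsupp.finsetSum_apply s _ c]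
  exact Finset.sum_congr rfl (fun n _ => h1 n (φ n))

end Pool.Agent.Lib.MP_5c0b30_ag
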