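import Pool.Agent.Lib.MP_5c0b30_ag.Defs
import Pool.Agent.Lib.MP_5c0b30_ag.LefschetzOrbit

/-!
# Comparison of the elementary definitions with the ones using direct sums
-/

set_option autoImplicit false

open CategoryTheory CategoryTheory.Limits

namespace Pool.Agent.Lib.MP_5c0b30_ag

universe v u

variable {C : Type u} [Category.{v} C] [Preadditive C] [HasShift C ℤ]

lemma sum_hof_apply {X Y : C} (u : ∀ n : ℤ, X ⟶ Y⟦n⟧) (s : Finset ℤ) (hs : ∀ n, n ∉ s → u n = 0)
    (m : ℤ) : (∑ n ∈ s, hof n (u n) : OrbitHom X Y) m = u m := by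
  classical
  have h1 : (∑ n ∈ s, hof n (u n) : OrbitHom X Y) m = ∑ n ∈ s, (hof n (u n) : OrbitHom X Y) m :=
    DFinsupp.finsetSum_apply s (fun n => hof n (u n)) m
  rw [h1]
  by_cases hm : m ∈ s
  · rw [Finset.sum_eq_single m]
    · exact DirectSum.of_eq_same _ _
    · intro n _ hn
      exact DirectSum.of_eq_of_ne _ _ _ (Ne.symm hn)
    · intro h
      exact absurd hm h
  · rw [hs m hm]
    refine Finset.sum_eq_zero (fun n hn => ?_)
    exact DirectSum.of_eq_of_ne _ _ _ (fun h => hm (h ▸ hn))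

/-- A finitely supported family as an element of the direct sum. -/
noncomputable def ofFam {X Y : C} (u : ∀ n : ℤ, X ⟶ Y⟦n⟧) (hu : {n : ℤ | u n ≠ 0}.Finite) :
    OrbitHom X Y := ∑ n ∈ hu.toFinset, hof n (u n)

lemma ofFam_apply {X Y : C} (u : ∀ n : ℤ, X ⟶ Y⟦n⟧) (hu : {n : ℤ | u n ≠ 0}.Finite) (m : ℤ) :
    (ofFam u hu) m = u m :=
  sum_hof_apply u _ (fun n hn => by simpa using hn) m

lemma orbitHom_ext {X Y : C} {φ ψ : OrbitHom X Y} (h : ∀ n, φ n = ψ n) : φ = ψ :=
  DFinsupp.ext h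

lemma famId_eq (X : C) (n : ℤ) : famId X n = (orbitId X) n := by
  unfold famId orbitId
  by_cases h : n = 0
  · subst h
    rw [dif_pos rfl]
    exact (DirectSum.of_eq_same _ _).symm
  · rw [dif_neg h]
    exact (DirectSum.of_eq_of_ne (β := fun n : ℤ => (X ⟶ X⟦n⟧)) 0 n
      (ShiftedHom.mk₀ 0 rfl (𝟙 X)) h).symm

variable [∀ n : ℤ, (shiftFunctor C n).Additive]

lemma famComp_eq {X Y Z : C} (φ : OrbitHom X Y) (ψ : OrbitHom Y Z) (c : ℤ) :
    famComp (fun n => φ n) (fun n => ψ n) c = (orbitComp φ ψ) c := by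
  classical
  rw [orbitComp_apply φ ψ c (DFinsupp.support φ)
    (fun n hn => DFinsupp.notMem_support_iff.1 hn), famComp]
  refine finsum_eq_sum_of_support_subset _ (fun n hn => ?_)
  rw [Finset.mem_coe, DFinsupp.mem_support_iff]
  intro h
  apply hn
  simp only [h, ShiftedHom.zero_comp]

/-- From the elementary definition to `OrbitIso`. -/
noncomputable def OrbitEquiv.toOrbitIso {X Y : C} (e : OrbitEquiv X Y) : OrbitIso X Y where
  hom := ofFam e.hom e.finite_hom
  inv := ofFam e.inv e.finite_inv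
  hom_inv_id := orbitHom_ext (fun n => by
    rw [← famComp_eq, ← famId_eq]
    simp only [ofFam_apply]
    exact e.hom_inv_id n)
  inv_hom_id := orbitHom_ext (fun n => by
    rw [← famComp_eq, ← famId_eq]
    simp only [ofFam_apply]
    exact e.inv_hom_id n)

lemma OrbitEquiv.toOrbitIso_hom {X Y : C} (e : OrbitEquiv X Y) (n : ℤ) :
    e.toOrbitIso.hom n = e.hom n := ofFam_apply _ _ n

lemma OrbitEquiv.toOrbitIso_inv {X Y : C} (e : OrbitEquiv X Y) (n : ℤ) :
    e.toOrbitIso.inv n = e.inv n := ofFam_apply _ _ n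

/-- From `OrbitIso` to the elementary definition. -/
noncomputable def OrbitIso.toOrbitEquiv {X Y : C} (e : OrbitIso X Y) : OrbitEquiv X Y where
  hom n := e.hom n
  inv n := e.inv n
  finite_hom := by
    classical
    refine (DFinsupp.support e.hom).finite_toSet.subset (fun n hn => ?_)
    exact DFinsupp.mem_support_iff.2 hn
  finite_inv := by
    classical
    refine (DFinsupp.support e.inv).finite_toSet.subset (fun n hn => ?_)
    exact DFinsupp.mem_support_iff.2 hn
  hom_inv_id n := by rw [famComp_eq, e.hom_inv_id, famId_eq]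
  inv_hom_id n := by rw [famComp_eq, e.inv_hom_id, famId_eq]

end Pool.Agent.Lib.MP_5c0b30_ag
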