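import Mathlib.RingTheory.Nilpotent.Exp
import Mathlib.LinearAlgebra.Eigenspace.Basic
import Mathlib.LinearAlgebra.Eigenspace.Minpoly
import Mathlib.LinearAlgebra.FiniteDimensional.Basic
import Mathlib.LinearAlgebra.SesquilinearForm.Basic
import Mathlib.Tactic.NoncommRing
import Mathlib.Tactic.LinearCombination
import Mathlib.Tactic.Module

/-!
# Conjugation by exponentials of nilpotent operators
-/

set_option autoImplicit false

open IsNilpotent TensorProduct

namespace Pool.Agent.Lib.MP_5c0b30_ag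

section Conj

variable {V W : Type*} [AddCommGroup V] [Module ℚ V] [AddCommGroup W] [Module ℚ W]

/-- `exp (ad x) b = exp x * b * exp (-x)`. -/
theorem exp_ad_apply {A : Type*} [Ring A] [Algebra ℚ A] {x : A} (hx : IsNilpotent x) (b : A) :
    exp (LinearMap.mulLeft ℚ x - LinearMap.mulRight ℚ x) b = exp x * b * exp (-x) := by
  have h1 : IsNilpotent (LinearMap.mulLeft ℚ x) := by
    obtain ⟨k, hk⟩ := hx
    exact ⟨k, by rw [LinearMap.pow_mulLeft, hk]; ext; simp⟩
  have h2 : IsNilpotent (-LinearMap.mulRight ℚ x) := by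
    obtain ⟨k, hk⟩ := hx
    refine IsNilpotent.neg ⟨k, by rw [LinearMap.pow_mulRight, hk]; ext; simp⟩
  have hc : Commute (LinearMap.mulLeft ℚ x) (-LinearMap.mulRight ℚ x) :=
    (LinearMap.commute_mulLeft_right x x).neg_right
  rw [sub_eq_add_neg, exp_add_of_commute hc h1 h2]
  have e1 : ∀ c : A, exp (LinearMap.mulLeft ℚ x) c = exp x * c := by
    intro c
    obtain ⟨k, hk⟩ := hx
    have hk' : (LinearMap.mulLeft ℚ x) ^ k = 0 := by
      rw [LinearMap.pow_mulLeft, hk]; ext; simp
    rw [exp_eq_sum hk, exp_eq_sum hk']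
    simp [Finset.sum_mul, LinearMap.pow_mulLeft, LinearMap.sum_apply]
  have e2 : ∀ c : A, exp (-LinearMap.mulRight ℚ x) c = c * exp (-x) := by
    intro c
    obtain ⟨k, hk⟩ := hx
    have hk' : (-LinearMap.mulRight ℚ x) ^ k = 0 := by
      have : -LinearMap.mulRight ℚ x = LinearMap.mulRight ℚ (-x) := by ext; simp
      rw [this, LinearMap.pow_mulRight, neg_pow, hk]; ext; simp
    have hk2 : (-x) ^ k = 0 := by rw [neg_pow, hk, mul_zero]
    have hm : -LinearMap.mulRight ℚ x = LinearMap.mulRight ℚ (-x) := by ext; simp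
    rw [exp_eq_sum hk2, exp_eq_sum hk', hm]
    simp only [Finset.mul_sum, LinearMap.pow_mulRight, LinearMap.sum_apply, LinearMap.smul_apply,
      LinearMap.mulRight_apply, mul_smul_comm]
  rw [Module.End.mul_apply, e2, e1, mul_assoc]

/-- If `[x, P z w] = P (a z) w + P z (a w)`, then `exp x` conjugates `P z w` to
`P (exp a z) (exp a w)`. -/
theorem exp_conj {P : V →ₗ[ℚ] V →ₗ[ℚ] Module.End ℚ W} {x : Module.End ℚ W} {a : Module.End ℚ V}
    (hx : IsNilpotent x) (ha : IsNilpotent a)
    (h : ∀ z w, x * P z w - P z w * x = P (a z) w + P z (a w)) (z w : V) :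
    exp x * P z w = P (exp a z) (exp a w) * exp x := by
  set D : Module.End ℚ (Module.End ℚ W) := LinearMap.mulLeft ℚ x - LinearMap.mulRight ℚ x with hD
  have hDn : IsNilpotent D := by
    rw [hD, sub_eq_add_neg]
    refine Commute.isNilpotent_add (LinearMap.commute_mulLeft_right x x).neg_right ?_ ?_
    · obtain ⟨k, hk⟩ := hx
      exact ⟨k, by rw [LinearMap.pow_mulLeft, hk]; ext; simp⟩
    · obtain ⟨k, hk⟩ := hx
      exact IsNilpotent.neg ⟨k, by rw [LinearMap.pow_mulRight, hk]; ext; simp⟩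
  let aL : Module.End ℚ (V ⊗[ℚ] V) := a.lTensor V
  let aR : Module.End ℚ (V ⊗[ℚ] V) := a.rTensor V
  have hL : IsNilpotent aL := ha.map <| Module.End.lTensorAlgHom ℚ V V
  have hR : IsNilpotent aR := ha.map <| Module.End.rTensorAlgHom ℚ V V
  have hcomm : Commute aL aR := by ext; simp [aL, aR]
  let m : V ⊗[ℚ] V →ₗ[ℚ] Module.End ℚ W := TensorProduct.lift P
  have h1 : exp D ∘ₗ m = m ∘ₗ exp (aL + aR) := by
    refine Module.End.commute_exp_left_of_commute (hcomm.isNilpotent_add hL hR) hDn ?_
    refine TensorProduct.ext' fun z w => ?_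
    have := h z w
    simp only [hD, m, aL, aR, LinearMap.comp_apply, TensorProduct.lift.tmul, LinearMap.sub_apply,
      LinearMap.mulLeft_apply, LinearMap.mulRight_apply, LinearMap.add_apply,
      LinearMap.lTensor_tmul, LinearMap.rTensor_tmul, map_add]
    rw [this, add_comm]
  have h2 : exp aL = (exp a).lTensor V := (ha.map_exp (Module.End.lTensorAlgHom ℚ V V)).symm
  have h3 : exp aR = (exp a).rTensor V := (ha.map_exp (Module.End.rTensorAlgHom ℚ V V)).symm
  have h4 := LinearMap.congr_fun h1 (z ⊗ₜ[ℚ] w)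
  rw [exp_add_of_commute hcomm hL hR, h2, h3] at h4
  simp only [m, LinearMap.comp_apply, TensorProduct.lift.tmul, Module.End.mul_apply,
    LinearMap.rTensor_tmul, LinearMap.lTensor_tmul] at h4
  rw [exp_ad_apply hx] at h4
  rw [← h4, mul_assoc, exp_neg_mul_exp_self hx, mul_one]

/-- If `[h, x] = x` on a finite dimensional space then `x` is nilpotent. -/
theorem isNilpotent_of_bracket [FiniteDimensional ℚ W] {h x : Module.End ℚ W}
    (hx : h * x - x * h = x) : IsNilpotent x := by
  by_contra hn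
  have hn' : ∀ k : ℕ, x ^ k ≠ 0 := fun k hk => hn ⟨k, hk⟩
  let D : Module.End ℚ (Module.End ℚ W) := LinearMap.mulLeft ℚ h - LinearMap.mulRight ℚ h
  have hD : ∀ k : ℕ, D (x ^ k) = (k : ℚ) • x ^ k := by
    intro k
    induction k with
    | zero => simp [D]
    | succ k ih =>
      have e1 : D (x ^ (k + 1)) = D (x ^ k) * x + x ^ k * (h * x - x * h) := by
        simp only [D, LinearMap.sub_apply, LinearMap.mulLeft_apply, LinearMap.mulRight_apply]
        rw [_root_.pow_succ]
        noncomm_ring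
      rw [e1, ih, hx]
      push_cast
      rw [add_smul, one_smul, smul_mul_assoc, ← _root_.pow_succ]
  have hev : ∀ k : ℕ, D.HasEigenvalue (k : ℚ) := by
    intro k
    exact Module.End.hasEigenvalue_of_hasEigenvector
      ⟨Module.End.mem_eigenspace_iff.2 (hD k), hn' k⟩
  have hfin : {μ : ℚ | D.HasEigenvalue μ}.Finite := Module.End.finite_hasEigenvalue D
  refine Set.infinite_of_injective_forall_mem (f := fun k : ℕ => (k : ℚ)) ?_ hev hfin
  intro a b hab
  exact Nat.cast_injective (R := ℚ) hab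

end Conj

end Pool.Agent.Lib.MP_5c0b30_ag
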