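import Pool.Agent.Lib.MP_5c0b30_ag.Defs
import Mathlib.RingTheory.Jacobson.Radical
import Mathlib.CategoryTheory.Endomorphism
import Mathlib.CategoryTheory.Limits.Shapes.ZeroObjects
import Mathlib.Tactic.Ring

/-!
# Cohomological realizations of a category with Tate twists

`C` is a preadditive category with an action `X ↦ X⟦n⟧` of `ℤ` (Chow motives or homological motives
with the Tate twists). A realization attaches to every object `X` graded cohomology objects
`H X i` in some preadditive category `V` (vector spaces, Hodge structures, Galois representations,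
...), and to every morphism `X ⟶ Y⟦n⟧` maps `H X i ⟶ H Y (i + 2n)`.
-/

set_option autoImplicit false

open CategoryTheory CategoryTheory.Limits

namespace Pool.Agent.Lib.MP_5c0b30_ag

universe v u v' u'

/-- A cohomological realization of `C` with values in `V`: a morphism `X ⟶ Y⟦n⟧` acts as
`H X i ⟶ H Y (i + 2n)`. -/
structure Realization (C : Type u) [Category.{v} C] [Preadditive C] [HasShift C ℤ]
    (V : Type u') [Category.{v'} V] [Preadditive V] where
  H : C → ℤ → V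
  act : ∀ {X Y : C} {n : ℤ} (_ : X ⟶ Y⟦n⟧) (i j : ℤ) (_ : i + 2 * n = j), H X i ⟶ H Y j
  act_add : ∀ {X Y : C} {n : ℤ} (f g : X ⟶ Y⟦n⟧) (i j : ℤ) (h : i + 2 * n = j),
    act (f + g) i j h = act f i j h + act g i j h
  act_id : ∀ (X : C) (i : ℤ), act (ShiftedHom.mk₀ (0 : ℤ) rfl (𝟙 X)) i i (by omega) = 𝟙 (H X i)
  act_comp : ∀ {X Y Z : C} {a b c : ℤ} (f : X ⟶ Y⟦a⟧) (g : Y ⟶ Z⟦b⟧) (h : b + a = c)
    (i j k : ℤ) (hij : i + 2 * a = j) (hjk : j + 2 * b = k),
    act (ShiftedHom.comp f g h) i k (by omega) = act f i j hij ≫ act g j k hjk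

section Npow

variable {C : Type u} [Category.{v} C] [HasShift C ℤ]

/-- The powers `N ^ k : M ⟶ M⟦k⟧` of a morphism `N : M ⟶ M⟦1⟧`. -/
noncomputable def shiftPow {M : C} (N : M ⟶ M⟦(1 : ℤ)⟧) (k : ℕ) : M ⟶ M⟦(k : ℤ)⟧ :=
  Nat.rec (motive := fun k : ℕ => (M ⟶ M⟦(k : ℤ)⟧))
    (ShiftedHom.mk₀ ((0 : ℕ) : ℤ) rfl (𝟙 M))
    (fun k f => ShiftedHom.comp f N (show (1 : ℤ) + (k : ℤ) = ((k + 1 : ℕ) : ℤ) by
      push_cast; ring)) k

end Npow

namespace Realization

variable {C : Type u} [Category.{v} C] [Preadditive C] [HasShift C ℤ]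
  {V : Type u'} [Category.{v'} V] [Preadditive V]

/-- `M` has dimension `d` (its cohomology is concentrated in degrees `0, …, 2d`) and `N` satisfies
hard Lefschetz on the cohomology: `N ^ k : H^{d-k}(M) ⟶ H^{d+k}(M)` is an isomorphism for
`0 ≤ k ≤ d`. -/
structure HardLefschetz (r : Realization C V) (d : ℕ) (M : C) (N : M ⟶ M⟦(1 : ℤ)⟧) : Prop where
  zero : ∀ i : ℤ, (i < 0 ∨ 2 * (d : ℤ) < i) → IsZero (r.H M i)
  hard : ∀ k : ℕ, k ≤ d →
    IsIso (r.act (shiftPow N k) ((d : ℤ) - k) ((d : ℤ) + k) (by omega))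

/-- Every endomorphism of `M` which acts as zero on the cohomology lies in the Jacobson radical of
`End M` (for instance: it is zero, for homological motives; it is nilpotent, for finite
dimensional Chow motives). -/
def TrivialRadical (r : Realization C V) (M : C) : Prop :=
  ∀ f : M ⟶ M, (∀ i : ℤ, r.act (ShiftedHom.mk₀ (0 : ℤ) rfl f) i i (by omega) = 0) →
    End.of f ∈ Ring.jacobson (End M)

/-- The family `u` of morphisms `M ⟶ M'⟦n⟧` is compatible, on the cohomology, with `N` and `N'`. -/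
def Compatible (r : Realization C V) {M M' : C} (N : M ⟶ M⟦(1 : ℤ)⟧) (N' : M' ⟶ M'⟦(1 : ℤ)⟧)
    (u : ∀ n : ℤ, M ⟶ M'⟦n⟧) : Prop :=
  ∀ n i : ℤ, r.act N i (i + 2) rfl ≫ r.act (u n) (i + 2) (i + 2 + 2 * n) rfl =
    r.act (u n) i (i + 2 * n) rfl ≫ r.act N' (i + 2 * n) (i + 2 + 2 * n) (by omega)

end Realization

/-- The component of degree `0` of a family of morphisms `M ⟶ M'⟦n⟧`, as a morphism `M ⟶ M'`. -/
noncomputable def degreeZero {C : Type u} [Category.{v} C] [HasShift C ℤ] {M M' : C}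
    (u : ∀ n : ℤ, M ⟶ M'⟦n⟧) : M ⟶ M' :=
  (ShiftedHom.homEquiv (0 : ℤ) rfl).symm (u 0)

end Pool.Agent.Lib.MP_5c0b30_ag
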