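import Pool.Agent.Lib.MP_5c0b30_ag.MukaiExt
import Pool.Agent.Lib.MP_5c0b30_ag.Realization

/-!
# Isomorphisms of ungraded motives compatible with orthogonal Lie algebras

`C` is a `ℚ`-linear category with an additive action `X ↦ X⟦n⟧` of `ℤ` (think of homological motives
or Chow motives with rational coefficients, with the Tate twists), `W X` is the total cohomology of
`X`, and `OrbitEquiv M M'` is the type of isomorphisms between `M` and `M'` in the orbit category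
`Hom(X, Y) = ⨁ n : ℤ, Hom_C(X, Y⟦n⟧)`.

For a derived equivalence between hyper-Kähler varieties `X` and `X'` over `ℂ`, the induced
isomorphism between `h(X)` and `h(X')` in the orbit category is compatible with the
Looijenga-Lunts-Verbitsky Lie algebras (Taelman), i.e. satisfies the hypotheses below with `V`, `V'`
the extended Mukai lattices `ℚ α ⊕ H²(X, ℚ) ⊕ ℚ β` and `A`, `A'` their algebraic parts.
-/

set_option autoImplicit false

open CategoryTheory CategoryTheory.Limits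
open Pool.Agent.Lib.MP_5c0b30_ag

namespace Pool.Agent.Lib.MP_5c0b30_ag.HyperKahler

universe v u w w₁ w₂

/-- Let `M`, `M'` be isomorphic in the orbit category, by an isomorphism which on the total cohomology
is compatible with actions of `so(V)` and `so(V')` with respect to a similitude `φ : V ≃ V'` mapping
the algebraic part of `V` onto that of `V'`, i.e. `e ρ(a) = ρ'(φ a φ⁻¹) e` for `a = x ∧ y` (note that
`φ (x ∧ y) φ⁻¹ = c⁻¹ (φ x ∧ φ y)`). If cohomologically trivial endomorphisms of `M` and of `M'` are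
radical, then there is an isomorphism `i : M ≅ M'` in `C` whose action on the cohomology is
compatible with the actions of `so(V)` and `so(V')` with respect to a similitude `ψ : V ≃ V'` with
`ψ α = α'` and `ψ β` a multiple of `β'`, which maps the algebraic part onto the algebraic part and
is a multiple of `φ` on its orthogonal complement. In particular (take `x = β`), the isomorphism
`i` transforms `β ∧ y` into `β' ∧ ψ y`. -/
theorem result {C : Type u} [Category.{v} C] [Preadditive C] [Linear ℚ C] [HasShift C ℤ]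
    [∀ n : ℤ, (shiftFunctor C n).Additive] {W : C → Type w} [∀ X, AddCommGroup (W X)]
    [∀ X, Module ℚ (W X)] (T : TotalRealization C W) {δ : ℚ} {M M' : C}
    [FiniteDimensional ℚ (W M')] {V : Type w₁} [AddCommGroup V] [Module ℚ V] {V' : Type w₂}
    [AddCommGroup V'] [Module ℚ V'] (S : ExtMukaiAction T δ M V) (S' : ExtMukaiAction T δ M' V')
    (e : OrbitEquiv M M') (φ : V ≃ₗ[ℚ] V') (c : ℚ) (hc : c ≠ 0)
    (hφ : ∀ x y : V, S'.B (φ x) (φ y) = c * S.B x y) (hφA : ∀ x : V, x ∈ S.A ↔ φ x ∈ S'.A)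
    (he : ∀ x y : V, c • (T.total e.hom ∘ₗ S.ρ x y) = S'.ρ (φ x) (φ y) ∘ₗ T.total e.hom)
    (hM : T.TrivialRadical M) (hM' : T.TrivialRadical M') :
    ∃ (i : M ≅ M') (ψ : V ≃ₗ[ℚ] V') (t s : ℚ), t ≠ 0 ∧ s = t ^ 2 * c ∧
      ψ S.α = S'.α ∧ ψ S.β = s • S'.β ∧
      (∀ x y : V, S'.B (ψ x) (ψ y) = s * S.B x y) ∧ (∀ x : V, x ∈ S.A ↔ ψ x ∈ S'.A) ∧
      (∀ x : V, (∀ y ∈ S.A, S.B y x = 0) → ψ x = t • φ x) ∧
      (∀ x y : V, s • (T.act (ShiftedHom.mk₀ (0 : ℤ) rfl i.hom) ∘ₗ S.ρ x y) =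
        S'.ρ (ψ x) (ψ y) ∘ₗ T.act (ShiftedHom.mk₀ (0 : ℤ) rfl i.hom)) ∧
      ∀ y : V, T.act (ShiftedHom.mk₀ (0 : ℤ) rfl i.hom) ∘ₗ S.ρ S.β y =
        S'.ρ S'.β (ψ y) ∘ₗ T.act (ShiftedHom.mk₀ (0 : ℤ) rfl i.hom) := by
  classical
  set f := T.total e.hom with hf
  set g := T.total e.inv with hg
  have hfmem : f ∈ T.alg M M' := T.total_mem _
  have hgmem : g ∈ T.alg M' M := T.total_mem _
  have hgf : g ∘ₗ f = LinearMap.id := T.total_hom_inv e
  have hfg : f ∘ₗ g = LinearMap.id := T.total_inv_hom e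
  let P := S.toOrthAction.rep
  let P' := S'.toOrthAction.rep
  let B' := S'.toOrthAction.form
  have hB' : B'.IsSymm := S'.toOrthAction.form_symm
  have hP0 : ∀ z, P' z z = 0 := S'.toOrthAction.rep_self
  have hP : ∀ a b z w, P' a b * P' z w - P' z w * P' a b =
    P' (wedge B' a b z) w + P' z (wedge B' a b w) := S'.toOrthAction.rep_bracket
  have B'_β_β : B' S'.β S'.β = 0 := S'.B_β_β
  -- (1) `f` intertwines `x ∧ y` and `c⁻¹ (φ x ∧ φ y)`
  have h1 : ∀ x y : V, f ∘ₗ P x y = c⁻¹ • (P' (φ x) (φ y) ∘ₗ f) := by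
    intro x y
    have h := he x y
    have h' : P' (φ x) (φ y) ∘ₗ f = c • (f ∘ₗ P x y) := h.symm
    rw [h', smul_smul, inv_mul_cancel₀ hc, one_smul]
  -- (2) `φ β ∧ y` is algebraic for `y ⟂ φ β`
  have h2 : ∀ y' : V', y' ∈ S'.A → B' (φ S.β) y' = 0 → P' (φ S.β) y' ∈ T.alg M' M' := by
    intro y' hy'A hy'
    obtain ⟨y, rfl⟩ := φ.surjective y'
    have hy'' : c * S.B S.β y = 0 := by rw [← hφ]; exact hy'
    have hy : S.B S.β y = 0 := (mul_eq_zero.1 hy'').resolve_left hc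
    obtain ⟨m, hm⟩ := S.ρ_alg y ((hφA y).2 hy'A) hy
    have h3 : P' (φ S.β) (φ y) = c • (f ∘ₗ (P S.β y ∘ₗ g)) := by
      rw [← LinearMap.comp_assoc, h1, LinearMap.smul_comp, LinearMap.comp_assoc, hfg,
        LinearMap.comp_id, smul_smul, mul_inv_cancel₀ hc, one_smul]
    rw [h3]
    refine Submodule.smul_mem _ _ (T.comp_mem (T.comp_mem hgmem ?_) hfmem)
    have h4 : P S.β y = T.act m := hm.symm
    rw [h4]
    exact T.act_mem m
  -- (3) `β' ∧ x` is algebraic for `x ⟂ β'`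
  have h3 : ∀ x : V', x ∈ S'.A → B' S'.β x = 0 → P' S'.β x ∈ T.alg M' M' := by
    intro x hxA hx
    obtain ⟨m, hm⟩ := S'.ρ_alg x hxA hx
    have h4 : P' S'.β x = T.act m := hm.symm
    rw [h4]
    exact T.act_mem m
  -- (4) geometry
  have hu : B' (φ S.α) (φ S.α) = 0 := by
    show S'.B (φ S.α) (φ S.α) = 0
    rw [hφ, S.B_α_α, mul_zero]
  have hv : B' (φ S.β) (φ S.β) = 0 := by
    show S'.B (φ S.β) (φ S.β) = 0
    rw [hφ, S.B_β_β, mul_zero]
  have huv : B' (φ S.α) (φ S.β) = c := by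
    show S'.B (φ S.α) (φ S.β) = c
    rw [hφ, S.B_α_β, mul_one]
  have hφβA : φ S.β ∈ S'.A := (hφA _).1 S.β_mem
  obtain ⟨x, y, x', hxA, hyA, hx'A, hx, hy, hx', b, c', hb, hc', hbc⟩ := exists_move_mem
    (B := B') hB' (A := S'.A) S'.A_nondegenerate (α := S'.α) (β := S'.β) S'.α_mem S'.β_mem
    S'.B_α_α B'_β_β S'.B_α_β S'.exists_anisotropic ((hφA _).1 S.α_mem) hφβA hu hv
    (by rw [huv]; exact hc)
  have hαβ0 : B' S'.α S'.β ≠ 0 := by
    have : B' S'.α S'.β = 1 := S'.B_α_β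
    rw [this]; exact one_ne_zero
  have huv0 : B' (φ S.α) (φ S.β) ≠ 0 := by rw [huv]; exact hc
  set a₁ := P' S'.β x with ha₁
  set a₂ := P' (φ S.β) y with ha₂
  set a₃ := P' S'.β x' with ha₃
  have n₁ : IsNilpotent a₁ := rep_nilpotent hP0 hP B'_β_β hx hαβ0
  have n₂ : IsNilpotent a₂ := rep_nilpotent hP0 hP hv hy huv0
  have n₃ : IsNilpotent a₃ := rep_nilpotent hP0 hP B'_β_β hx' hαβ0
  set G : Module.End ℚ (W M') :=
    IsNilpotent.exp a₃ * (IsNilpotent.exp a₂ * IsNilpotent.exp a₁) with hG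
  set G' : Module.End ℚ (W M') :=
    (IsNilpotent.exp (-a₁) * IsNilpotent.exp (-a₂)) * IsNilpotent.exp (-a₃) with hG'
  have hGG' : G * G' = 1 := by
    rw [hG, hG']
    calc _ = IsNilpotent.exp a₃ * (IsNilpotent.exp a₂ * (IsNilpotent.exp a₁ *
          IsNilpotent.exp (-a₁)) * IsNilpotent.exp (-a₂)) * IsNilpotent.exp (-a₃) := by
          simp only [mul_assoc]
      _ = 1 := by
          rw [IsNilpotent.exp_mul_exp_neg_self n₁, mul_one, IsNilpotent.exp_mul_exp_neg_self n₂,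
            mul_one, IsNilpotent.exp_mul_exp_neg_self n₃]
  have hG'G : G' * G = 1 := by
    rw [hG, hG']
    calc _ = IsNilpotent.exp (-a₁) * (IsNilpotent.exp (-a₂) * (IsNilpotent.exp (-a₃) *
          IsNilpotent.exp a₃) * IsNilpotent.exp a₂) * IsNilpotent.exp a₁ := by
          simp only [mul_assoc]
      _ = 1 := by
          rw [IsNilpotent.exp_neg_mul_exp_self n₃, mul_one, IsNilpotent.exp_neg_mul_exp_self n₂,
            mul_one, IsNilpotent.exp_neg_mul_exp_self n₁]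
  have hGmem : G ∈ T.alg M' M' := by
    have m₁ : IsNilpotent.exp a₁ ∈ T.alg M' M' := T.exp_mem (h3 x hxA hx)
    have m₂ : IsNilpotent.exp a₂ ∈ T.alg M' M' := T.exp_mem (h2 y hyA hy)
    have m₃ : IsNilpotent.exp a₃ ∈ T.alg M' M' := T.exp_mem (h3 x' hx'A hx')
    exact T.comp_mem (T.comp_mem m₁ m₂) m₃
  have hG'mem : G' ∈ T.alg M' M' := by
    have m₁ : IsNilpotent.exp (-a₁) ∈ T.alg M' M' := T.exp_mem (Submodule.neg_mem _ (h3 x hxA hx))
    have m₂ : IsNilpotent.exp (-a₂) ∈ T.alg M' M' := T.exp_mem (Submodule.neg_mem _ (h2 y hyA hy))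
    have m₃ : IsNilpotent.exp (-a₃) ∈ T.alg M' M' := T.exp_mem (Submodule.neg_mem _ (h3 x' hx'A hx'))
    exact T.comp_mem m₃ (T.comp_mem m₂ m₁)
  -- (5) `G` conjugates `φ α ∧ φ β` to a multiple of `α' ∧ β'`
  have h5 : G * P' (φ S.α) (φ S.β) = c • (P' S'.α S'.β * G) := by
    have h6 : P' (b • S'.α) (c' • S'.β) = c • P' S'.α S'.β := by
      rw [map_smul, map_smul, LinearMap.smul_apply, smul_smul, mul_comm c' b, hbc, huv]
    rw [hG, mul_assoc, mul_assoc, rep_exp hB' hP0 hP B'_β_β hx hαβ0, ← mul_assoc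
      (IsNilpotent.exp a₂), rep_exp hB' hP0 hP hv hy huv0, ← mul_assoc (IsNilpotent.exp a₃),
      ← mul_assoc (IsNilpotent.exp a₃), rep_exp hB' hP0 hP B'_β_β hx' hαβ0, hb, hc', h6]
    simp only [smul_mul_assoc, mul_assoc]
    rfl
  -- (6) `F = G ∘ f` commutes with the degree operators
  set F : W M →ₗ[ℚ] W M' := G ∘ₗ f with hF
  set F' : W M' →ₗ[ℚ] W M := g ∘ₗ G' with hF'
  have hFmem : F ∈ T.alg M M' := T.comp_mem hfmem hGmem
  have hF'mem : F' ∈ T.alg M' M := T.comp_mem hG'mem hgmem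
  have hF'F : F' ∘ₗ F = LinearMap.id := by
    rw [hF, hF']
    calc (g ∘ₗ G') ∘ₗ (G ∘ₗ f) = g ∘ₗ ((G' * G) ∘ₗ f) := rfl
      _ = LinearMap.id := by rw [hG'G]; exact hgf
  have hFF' : F ∘ₗ F' = LinearMap.id := by
    rw [hF, hF']
    calc (G ∘ₗ f) ∘ₗ (g ∘ₗ G') = G ∘ₗ ((f ∘ₗ g) ∘ₗ G') := rfl
      _ = LinearMap.id := by rw [hfg]; exact hGG'
  have hcomm : T.deg M' ∘ₗ F = F ∘ₗ T.deg M := by
    have h6 : F ∘ₗ P S.α S.β = P' S'.α S'.β ∘ₗ F := by
      calc F ∘ₗ P S.α S.β = G ∘ₗ (f ∘ₗ P S.α S.β) := rfl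
        _ = c⁻¹ • ((G * P' (φ S.α) (φ S.β)) ∘ₗ f) := by rw [h1, LinearMap.comp_smul]; rfl
        _ = P' S'.α S'.β ∘ₗ F := by
            rw [h5, LinearMap.smul_comp, smul_smul, inv_mul_cancel₀ hc, one_smul]
            rfl
    have h7 : P S.α S.β = T.deg M - δ • LinearMap.id := S.ρ_deg
    have h8 : P' S'.α S'.β = T.deg M' - δ • LinearMap.id := S'.ρ_deg
    rw [h7, h8, LinearMap.comp_sub, LinearMap.sub_comp, LinearMap.comp_smul, LinearMap.smul_comp,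
      LinearMap.comp_id, LinearMap.id_comp] at h6
    exact (sub_left_injective h6).symm
  have hcomm' : T.deg M ∘ₗ F' = F' ∘ₗ T.deg M' := by
    calc T.deg M ∘ₗ F' = (F' ∘ₗ F) ∘ₗ (T.deg M ∘ₗ F') := by rw [hF'F, LinearMap.id_comp]
      _ = F' ∘ₗ ((F ∘ₗ T.deg M) ∘ₗ F') := rfl
      _ = F' ∘ₗ ((T.deg M' ∘ₗ F) ∘ₗ F') := by rw [hcomm]
      _ = (F' ∘ₗ T.deg M') ∘ₗ (F ∘ₗ F') := rfl
      _ = F' ∘ₗ T.deg M' := by rw [hFF', LinearMap.comp_id]
  -- (7) `F` and `F'` come from morphisms of degree zero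
  have key : ∀ {X Y : C} {H : W X →ₗ[ℚ] W Y} (_ : H ∈ T.alg X Y)
      (_ : T.deg Y ∘ₗ H = H ∘ₗ T.deg X),
      ∃ m : X ⟶ Y, H = T.act (ShiftedHom.mk₀ (0 : ℤ) rfl m) := by
    intro X Y H hH hH'
    obtain ⟨u, s, hs, rfl⟩ := T.exists_family hH
    refine ⟨degreeZero u, ?_⟩
    have h6 : ShiftedHom.mk₀ (0 : ℤ) rfl (degreeZero u) = u 0 :=
      (ShiftedHom.homEquiv (0 : ℤ) rfl).apply_symm_apply (u 0)
    rw [h6]
    refine Finset.sum_eq_single 0 (fun n hn hn0 => ?_) (fun h0 => ?_)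
    · exact T.act_eq_zero_of_commutes u s hH' n hn hn0
    · rw [hs 0 h0, T.act_zero]
  obtain ⟨m, hm⟩ := key hFmem hcomm
  obtain ⟨m', hm'⟩ := key hF'mem hcomm'
  -- (8) conclusion
  have unit : ∀ {X Y : C} (_ : T.TrivialRadical X) (p : X ⟶ Y) (q : Y ⟶ X)
      (_ : T.act (ShiftedHom.mk₀ (0 : ℤ) rfl q) ∘ₗ T.act (ShiftedHom.mk₀ (0 : ℤ) rfl p) =
        LinearMap.id), IsUnit (End.of (p ≫ q)) := by
    intro X Y hX p q h
    have h6 : End.of (𝟙 X - p ≫ q) ∈ Ring.jacobson (End X) := by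
      refine hX _ ?_
      have h7 : ShiftedHom.mk₀ (0 : ℤ) rfl (𝟙 X - p ≫ q) =
          ShiftedHom.mk₀ (0 : ℤ) rfl (𝟙 X) - ShiftedHom.mk₀ (0 : ℤ) rfl (p ≫ q) := by
        rw [eq_sub_iff_add_eq, ← ShiftedHom.mk₀_add, sub_add_cancel]
      have h8 : ShiftedHom.comp (ShiftedHom.mk₀ (0 : ℤ) rfl p) (ShiftedHom.mk₀ (0 : ℤ) rfl q)
          (by omega : (0 : ℤ) + 0 = 0) = ShiftedHom.mk₀ (0 : ℤ) rfl (p ≫ q) := by
        rw [ShiftedHom.mk₀_comp_mk₀]
      rw [h7, T.act_sub, T.act_id, ← h8, T.act_comp, h, sub_self]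
    have h9 := isUnit_one_sub_of_mem_jacobson h6
    have h10 : (1 : End X) - End.of (𝟙 X - p ≫ q) = End.of (p ≫ q) :=
      sub_sub_cancel (𝟙 X) (p ≫ q)
    rwa [h10] at h9
  have u1 := unit hM m m' (by rw [← hm, ← hm', hF'F])
  have u2 := unit hM' m' m (by rw [← hm, ← hm', hFF'])
  obtain ⟨⟨p, q, hpq, hqp⟩, hp⟩ := u1
  obtain ⟨⟨p', q', hpq', hqp'⟩, hp'⟩ := u2
  dsimp only at hp hp'
  subst hp hp'
  have k1 : (m ≫ m') ≫ q = 𝟙 M := hqp
  have k4 : q' ≫ (m' ≫ m) = 𝟙 M' := hpq'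
  have k5 : m ≫ (m' ≫ q) = 𝟙 M := by simpa only [Category.assoc] using k1
  have k6 : (q' ≫ m') ≫ m = 𝟙 M' := by simpa only [Category.assoc] using k4
  have k7 : q' ≫ m' = m' ≫ q := by
    calc q' ≫ m' = (q' ≫ m') ≫ (m ≫ (m' ≫ q)) := by rw [k5, Category.comp_id]
      _ = ((q' ≫ m') ≫ m) ≫ (m' ≫ q) := by simp only [Category.assoc]
      _ = m' ≫ q := by rw [k6, Category.id_comp]
  let i : M ≅ M' := ⟨m, m' ≫ q, k5, by rw [← k7, k6]⟩
  -- (9) the similitude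
  let τ : V' ≃ₗ[ℚ] V' := (eichlerEquiv hB' B'_β_β hx).trans
    ((eichlerEquiv hB' hv hy).trans (eichlerEquiv hB' B'_β_β hx'))
  have hτ : ∀ z, τ z = eichler B' S'.β x' (eichler B' (φ S.β) y (eichler B' S'.β x z)) :=
    fun z => rfl
  have hb0 : b ≠ 0 := by
    rintro rfl
    rw [zero_mul] at hbc
    exact huv0 hbc.symm
  have hτB : ∀ z w, B' (τ z) (τ w) = B' z w := by
    intro z w
    rw [hτ, hτ, eichler_form hB' B'_β_β hx', eichler_form hB' hv hy, eichler_form hB' B'_β_β hx]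
  have hτP : ∀ z w, G * P' z w = P' (τ z) (τ w) * G := by
    intro z w
    rw [hG, mul_assoc, mul_assoc, rep_exp hB' hP0 hP B'_β_β hx hαβ0, ← mul_assoc
      (IsNilpotent.exp a₂), rep_exp hB' hP0 hP hv hy huv0, ← mul_assoc (IsNilpotent.exp a₃),
      ← mul_assoc (IsNilpotent.exp a₃), rep_exp hB' hP0 hP B'_β_β hx' hαβ0]
    simp only [mul_assoc]
    rfl
  let ψ : V ≃ₗ[ℚ] V' := (φ.trans τ).trans (LinearEquiv.smulOfNeZero ℚ V' b⁻¹ (inv_ne_zero hb0))
  have hψ : ∀ z, ψ z = b⁻¹ • τ (φ z) := fun z => rfl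
  have hi : F = T.act (ShiftedHom.mk₀ (0 : ℤ) rfl i.hom) := hm
  have hc'b : c' = c * b⁻¹ := by
    rw [← huv, ← hbc]
    field_simp
  have hint : ∀ z w : V, (b⁻¹ ^ 2 * c) • (F ∘ₗ P z w) = P' (ψ z) (ψ w) ∘ₗ F := by
    intro z w
    have h10 : F ∘ₗ P z w = c⁻¹ • (P' (τ (φ z)) (τ (φ w)) ∘ₗ F) := by
      calc F ∘ₗ P z w = G ∘ₗ (f ∘ₗ P z w) := rfl
        _ = c⁻¹ • ((G * P' (φ z) (φ w)) ∘ₗ f) := by rw [h1, LinearMap.comp_smul]; rfl
        _ = c⁻¹ • (P' (τ (φ z)) (τ (φ w)) ∘ₗ F) := by rw [hτP]; rfl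
    rw [h10, smul_smul, hψ, hψ, map_smul, map_smul, LinearMap.smul_apply, smul_smul,
      LinearMap.smul_comp]
    congr 1
    field_simp
  have hψβ : ψ S.β = (b⁻¹ ^ 2 * c) • S'.β := by
    rw [hψ, hτ, hc', smul_smul, hc'b]
    congr 1
    ring
  refine ⟨i, ψ, b⁻¹, b⁻¹ ^ 2 * c, inv_ne_zero hb0, rfl, ?_, hψβ, ?_, ?_, ?_, ?_, ?_⟩
  · rw [hψ, hτ, hb, smul_smul, inv_mul_cancel₀ hb0, one_smul]
  · intro z w
    have h10 : B' (ψ z) (ψ w) = b⁻¹ ^ 2 * B' (φ z) (φ w) := by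
      rw [hψ, hψ, map_smul, map_smul, LinearMap.smul_apply, hτB, smul_eq_mul, smul_eq_mul]
      ring
    have h11 : B' (φ z) (φ w) = c * S.B z w := hφ z w
    calc S'.B (ψ z) (ψ w) = b⁻¹ ^ 2 * (c * S.B z w) := by rw [← h11]; exact h10
      _ = b⁻¹ ^ 2 * c * S.B z w := by ring
  · intro z
    rw [hφA z, hψ, eichler_mem_iff (B := B') S'.β_mem hxA, eichler_mem_iff (B := B') hφβA hyA,
      eichler_mem_iff (B := B') S'.β_mem hx'A, ← hτ]
    constructor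
    · exact fun h => S'.A.smul_mem _ h
    · intro h
      have h10 := S'.A.smul_mem b h
      rwa [smul_smul, mul_inv_cancel₀ hb0, one_smul] at h10
  · intro z hz
    have hort : ∀ w ∈ S'.A, B' w (φ z) = 0 := by
      intro w hw
      obtain ⟨w, rfl⟩ := φ.surjective w
      show S'.B (φ w) (φ z) = 0
      rw [hφ, hz w ((hφA w).2 hw), mul_zero]
    rw [hψ, hτ, eichler_of_orthogonal (hort _ S'.β_mem) (hort _ hxA),
      eichler_of_orthogonal (hort _ hφβA) (hort _ hyA),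
      eichler_of_orthogonal (hort _ S'.β_mem) (hort _ hx'A)]
  · intro z w
    rw [← hi]
    exact hint z w
  · intro w
    rw [← hi]
    have h10 := hint S.β w
    rw [hψβ, map_smul, LinearMap.smul_apply, LinearMap.smul_comp] at h10
    have h11 : b⁻¹ ^ 2 * c ≠ 0 := mul_ne_zero (pow_ne_zero _ (inv_ne_zero hb0)) hc
    exact (smul_right_injective _ h11) h10

end Pool.Agent.Lib.MP_5c0b30_ag.HyperKahler
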