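import Pool.Agent.Lib.MP_5c0b30_ag.OrbitBand
import Mathlib.CategoryTheory.IsomorphismClasses
import Mathlib.CategoryTheory.Preadditive.Biproducts
import Mathlib.CategoryTheory.Limits.Preserves.Shapes.Biproducts
import Mathlib.Algebra.BigOperators.Intervals

/-!
# Isomorphism classes of objects as a commutative monoid, and stable isomorphism in the orbit
category
-/

set_option autoImplicit false

open CategoryTheory CategoryTheory.Limits

namespace Pool.Agent.Lib.MP_5c0b30_ag

universe v u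

/-- Isomorphism classes of objects of `C`. -/
def IsoCls (C : Type u) [Category.{v} C] : Type u := Quotient (isIsomorphicSetoid C)

section

variable {C : Type u} [Category.{v} C]

/-- The class of an object. -/
def cls (X : C) : IsoCls C := Quotient.mk (isIsomorphicSetoid C) X

lemma cls_eq_iff {X Y : C} : cls X = cls Y ↔ Nonempty (X ≅ Y) :=
  Quotient.eq (r := isIsomorphicSetoid C)

end

section Add

variable {C : Type u} [Category.{v} C] [Preadditive C] [HasBinaryBiproducts C]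

noncomputable instance : Add (IsoCls C) where
  add := Quotient.map₂ (fun X Y => X ⊞ Y) (by
    rintro X X' ⟨e⟩ Y Y' ⟨f⟩
    exact ⟨biprod.mapIso e f⟩)

lemma cls_add (X Y : C) : cls (X ⊞ Y) = cls X + cls Y := rfl

end Add

variable {C : Type u} [Category.{v} C] [Preadditive C] [HasFiniteBiproducts C]
  [HasBinaryBiproducts C]

/-- A chosen zero object. -/
noncomputable def zeroObj (C : Type u) [Category.{v} C] [Preadditive C] [HasFiniteBiproducts C] :
    C :=
  haveI : HasZeroObject C := hasZeroObject_of_hasFiniteBiproducts C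
  Classical.choose (HasZeroObject.zero (C := C))

omit [HasBinaryBiproducts C] in
lemma zeroObj_isZero : IsZero (zeroObj C) :=
  haveI : HasZeroObject C := hasZeroObject_of_hasFiniteBiproducts C
  Classical.choose_spec (HasZeroObject.zero (C := C))

noncomputable instance : Zero (IsoCls C) := ⟨cls (zeroObj C)⟩

omit [HasBinaryBiproducts C] in
lemma cls_zeroObj : cls (zeroObj C) = 0 := rfl

noncomputable instance : AddCommMonoid (IsoCls C) where
  add_assoc := by
    rintro ⟨X⟩ ⟨Y⟩ ⟨Z⟩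
    exact cls_eq_iff.2 ⟨biprod.associator X Y Z⟩
  add_comm := by
    rintro ⟨X⟩ ⟨Y⟩
    exact cls_eq_iff.2 ⟨biprod.braiding X Y⟩
  zero_add := by
    rintro ⟨X⟩
    exact cls_eq_iff.2 ⟨(isoZeroBiprod zeroObj_isZero).symm⟩
  add_zero := by
    rintro ⟨X⟩
    exact cls_eq_iff.2 ⟨(isoBiprodZero zeroObj_isZero).symm⟩
  nsmul := nsmulRec

/-- The additive map on isomorphism classes induced by an additive functor. -/
noncomputable def clsMap (T : C ⥤ C) [T.Additive] : IsoCls C →+ IsoCls C where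
  toFun := Quotient.map T.obj (by
    rintro X Y ⟨e⟩
    exact ⟨T.mapIso e⟩)
  map_zero' := cls_eq_iff.2 ⟨(T.map_isZero zeroObj_isZero).iso zeroObj_isZero⟩
  map_add' := by
    rintro ⟨X⟩ ⟨Y⟩
    have := preservesBinaryBiproduct_of_preservesBiproduct T X Y
    exact cls_eq_iff.2 ⟨T.mapBiprod X Y⟩

lemma clsMap_cls (T : C ⥤ C) [T.Additive] (X : C) : clsMap T (cls X) = cls (T.obj X) := rfl

omit [Preadditive C] [HasFiniteBiproducts C] [HasBinaryBiproducts C] in
lemma exists_rep (x : IsoCls C) : ∃ X : C, cls X = x := Quotient.exists_rep x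

variable [HasShift C ℤ] [∀ n : ℤ, (shiftFunctor C n).Additive]

/-- Consecutive shifts: `[X⟦i⟧] = t^i [X]`. -/
lemma cls_shift_nat (X : C) (n : ℕ) :
    cls (X⟦(n : ℤ)⟧) = (clsMap (shiftFunctor C (1 : ℤ)))^[n] (cls X) := by
  induction n with
  | zero => exact cls_eq_iff.2 ⟨(shiftFunctorZero' C ((0 : ℕ) : ℤ) (by simp)).app X⟩
  | succ n ih =>
    rw [Function.iterate_succ_apply', ← ih, clsMap_cls]
    exact cls_eq_iff.2 ⟨(shiftFunctorAdd' C (n : ℤ) 1 ((n + 1 : ℕ) : ℤ) (by simp)).app X⟩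

/-- Telescoping: there is `P` with `[X⟦d⟧] + [P] = [X] + [P⟦1⟧]`. -/
lemma exists_telescope (X : C) (n : ℕ) :
    ∃ p : IsoCls C, cls (X⟦(n : ℤ)⟧) + p = cls X + clsMap (shiftFunctor C (1 : ℤ)) p := by
  induction n with
  | zero =>
    refine ⟨0, ?_⟩
    rw [cls_shift_nat, map_zero]
    rfl
  | succ n ih =>
    obtain ⟨p, hp⟩ := ih
    refine ⟨p + cls (X⟦(n : ℤ)⟧), ?_⟩
    have h1 : cls (X⟦((n + 1 : ℕ) : ℤ)⟧) =
        clsMap (shiftFunctor C (1 : ℤ)) (cls (X⟦(n : ℤ)⟧)) := by
      rw [cls_shift_nat, cls_shift_nat, Function.iterate_succ_apply']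
    rw [h1, map_add]
    calc clsMap (shiftFunctor C (1 : ℤ)) (cls (X⟦(n : ℤ)⟧)) + (p + cls (X⟦(n : ℤ)⟧))
        = (cls (X⟦(n : ℤ)⟧) + p) + clsMap (shiftFunctor C (1 : ℤ)) (cls (X⟦(n : ℤ)⟧)) := by abel
      _ = (cls X + clsMap (shiftFunctor C (1 : ℤ)) p) +
          clsMap (shiftFunctor C (1 : ℤ)) (cls (X⟦(n : ℤ)⟧)) := by rw [hp]
      _ = _ := by abel

end Pool.Agent.Lib.MP_5c0b30_ag
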