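import Pool.Agent.Lib.MP_5c0b30_ag.Defs
import Mathlib.Algebra.Module.Rat
import Mathlib.Data.Rat.Defs
import Mathlib.Algebra.Module.LinearMap.End
import Mathlib.RingTheory.Jacobson.Radical
import Mathlib.CategoryTheory.Endomorphism
import Mathlib.CategoryTheory.Linear.Basic

/-!
# Orthogonal Lie algebras acting on the total cohomology

`C` is a `ℚ`-linear category with an action `X ↦ X⟦n⟧` of `ℤ` (Chow motives or homological motives
with the Tate twists). `W X` is the total cohomology of `X`, with the operator `deg X` which is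
multiplication by `i / 2` on the cohomology of degree `i`.

For a hyper-Kähler variety `X` of dimension `d`, `V = ℚ α ⊕ NS(X)_ℚ ⊕ ℚ β` is the algebraic part of
the extended Mukai lattice (`B` is the Beauville-Bogomolov-Fujiki form on `NS(X)_ℚ`), and
`so(V) ⊆ so(ℚ α ⊕ H²(X, ℚ) ⊕ ℚ β)` acts on the cohomology through the Looijenga-Lunts-Verbitsky
Lie algebra: `β ∧ x` acts as (minus) the cup product with the class `x ∈ NS(X)_ℚ`, and `α ∧ β` acts
on the cohomology of degree `i` as multiplication by `(i - d) / 2`.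
-/

set_option autoImplicit false

open CategoryTheory CategoryTheory.Limits

namespace Pool.Agent.Lib.MP_5c0b30_ag

universe v u w w₁ w₂

/-- A realization of `C` in total cohomology: a `ℚ`-vector space `W X` for every object `X`, a linear
map `act f : W X → W Y` for every `f : X ⟶ Y⟦n⟧`, and operators `deg X` such that `act f` has degree
`n` for every `f : X ⟶ Y⟦n⟧`. -/
structure TotalRealization (C : Type u) [Category.{v} C] [Preadditive C] [HasShift C ℤ]
    (W : C → Type w) [∀ X, AddCommGroup (W X)] [∀ X, Module ℚ (W X)] where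
  act : ∀ {X Y : C} {n : ℤ}, (X ⟶ Y⟦n⟧) → (W X →ₗ[ℚ] W Y)
  act_add : ∀ {X Y : C} {n : ℤ} (f g : X ⟶ Y⟦n⟧), act (f + g) = act f + act g
  act_id : ∀ X : C, act (ShiftedHom.mk₀ (0 : ℤ) rfl (𝟙 X)) = LinearMap.id
  act_comp : ∀ {X Y Z : C} {a b c : ℤ} (f : X ⟶ Y⟦a⟧) (g : Y ⟶ Z⟦b⟧) (h : b + a = c),
    act (ShiftedHom.comp f g h) = act g ∘ₗ act f
  deg : ∀ X : C, W X →ₗ[ℚ] W X
  deg_act : ∀ {X Y : C} {n : ℤ} (f : X ⟶ Y⟦n⟧),
    deg Y ∘ₗ act f - act f ∘ₗ deg X = (n : ℚ) • act f

namespace TotalRealization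

variable {C : Type u} [Category.{v} C] [Preadditive C] [HasShift C ℤ]
  {W : C → Type w} [∀ X, AddCommGroup (W X)] [∀ X, Module ℚ (W X)]

/-- The map on total cohomology defined by a family of morphisms `X ⟶ Y⟦n⟧`. -/
noncomputable def total (T : TotalRealization C W) {X Y : C} (u : ∀ n : ℤ, X ⟶ Y⟦n⟧) :
    W X →ₗ[ℚ] W Y := ∑ᶠ n : ℤ, T.act (u n)

/-- Every endomorphism of `M` which acts as zero on the cohomology lies in the Jacobson radical of
`End M`. -/
def TrivialRadical (T : TotalRealization C W) (M : C) : Prop :=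
  ∀ f : M ⟶ M, T.act (ShiftedHom.mk₀ (0 : ℤ) rfl f) = 0 → End.of f ∈ Ring.jacobson (End M)

end TotalRealization

/-- An action of the orthogonal Lie algebra `so(V, B)` of a nondegenerate quadratic space `(V, B)`
over `ℚ` on the `ℚ`-vector space `H`: `ρ x y` is the action of the element
`x ∧ y : z ↦ B(x, z) y - B(y, z) x` of `so(V, B)`. (Additive maps between `ℚ`-vector spaces are
`ℚ`-linear.) -/
structure OrthAction (V : Type w₁) [AddCommGroup V] [Module ℚ V] (H : Type w) [AddCommGroup H]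
    [Module ℚ H] where
  B : V → V → ℚ
  B_symm : ∀ x y, B x y = B y x
  B_add : ∀ x y z, B (x + y) z = B x z + B y z
  B_nondegenerate : ∀ x, (∀ y, B x y = 0) → x = 0
  ρ : V → V → Module.End ℚ H
  ρ_neg : ∀ x y, ρ y x = - ρ x y
  ρ_add : ∀ x y z, ρ (x + y) z = ρ x z + ρ y z
  ρ_bracket : ∀ a b x y, ρ a b * ρ x y - ρ x y * ρ a b =
    ρ (B a x • b - B b x • a) y + ρ x (B a y • b - B b y • a)

/-- An action of `so(V, B)` on the total cohomology of `M`, together with a hyperbolic pair
`α`, `β` of `V` such that `α ∧ β` acts as `deg - δ`, every `β ∧ x` with `x ⟂ β` acts through a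
morphism `M ⟶ M⟦1⟧`, and `β^⟂` is not totally isotropic. -/
structure MukaiAction {C : Type u} [Category.{v} C] [Preadditive C] [HasShift C ℤ]
    {W : C → Type w} [∀ X, AddCommGroup (W X)] [∀ X, Module ℚ (W X)] (T : TotalRealization C W)
    (δ : ℚ) (M : C) (V : Type w₁) [AddCommGroup V] [Module ℚ V] extends
    OrthAction V (W M) where
  α : V
  β : V
  B_α_α : B α α = 0
  B_β_β : B β β = 0
  B_α_β : B α β = 1
  exists_anisotropic : ∃ μ : V, B μ β = 0 ∧ B μ μ ≠ 0
  ρ_deg : ρ α β = T.deg M - δ • LinearMap.id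
  ρ_alg : ∀ x : V, B β x = 0 → ∃ c : M ⟶ M⟦(1 : ℤ)⟧, T.act c = ρ β x

end Pool.Agent.Lib.MP_5c0b30_ag
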