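import Pool.Agent.Lib.MP_5c0b30_ag.Mukai
import Mathlib.Algebra.BigOperators.Finprod
import Mathlib.Algebra.Module.Rat
import Mathlib.RingTheory.Nilpotent.Exp
import Mathlib.LinearAlgebra.Eigenspace.Basic
import Mathlib.Tactic.Abel

/-!
# Algebraic maps between total cohomologies
-/

set_option autoImplicit false

open CategoryTheory CategoryTheory.Limits

namespace Pool.Agent.Lib.MP_5c0b30_ag

universe v u w

namespace TotalRealization

variable {C : Type u} [Category.{v} C] [Preadditive C] [HasShift C ℤ]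
  {W : C → Type w} [∀ X, AddCommGroup (W X)] [∀ X, Module ℚ (W X)] (T : TotalRealization C W)

/-- `act` as an additive map. -/
def actHom (X Y : C) (n : ℤ) : (X ⟶ Y⟦n⟧) →+ (W X →ₗ[ℚ] W Y) :=
  AddMonoidHom.mk' T.act T.act_add

@[simp] lemma actHom_apply {X Y : C} {n : ℤ} (f : X ⟶ Y⟦n⟧) : T.actHom X Y n f = T.act f := rfl

lemma act_zero {X Y : C} {n : ℤ} : T.act (0 : X ⟶ Y⟦n⟧) = 0 := map_zero (T.actHom X Y n)

lemma act_sub {X Y : C} {n : ℤ} (f g : X ⟶ Y⟦n⟧) : T.act (f - g) = T.act f - T.act g :=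
  map_sub (T.actHom X Y n) f g

lemma act_sum {X Y : C} {n : ℤ} {ι : Type*} (s : Finset ι) (f : ι → (X ⟶ Y⟦n⟧)) :
    T.act (∑ a ∈ s, f a) = ∑ a ∈ s, T.act (f a) :=
  map_sum (T.actHom X Y n) f s

lemma act_smul [Linear ℚ C] {X Y : C} {n : ℤ} (c : ℚ) (f : X ⟶ Y⟦n⟧) :
    T.act (c • f) = c • T.act f :=
  map_rat_smul (T.actHom X Y n) c f

/-- The span of the maps `act f`. -/
def alg (X Y : C) : Submodule ℚ (W X →ₗ[ℚ] W Y) :=
  Submodule.span ℚ {F | ∃ (n : ℤ) (f : X ⟶ Y⟦n⟧), F = T.act f}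

lemma act_mem {X Y : C} {n : ℤ} (f : X ⟶ Y⟦n⟧) : T.act f ∈ T.alg X Y :=
  Submodule.subset_span ⟨n, f, rfl⟩

lemma total_eq_sum {X Y : C} (u : ∀ n : ℤ, X ⟶ Y⟦n⟧) (s : Finset ℤ) (hs : ∀ n, n ∉ s → u n = 0) :
    T.total u = ∑ n ∈ s, T.act (u n) := by
  refine finsum_eq_sum_of_support_subset _ (fun n hn => ?_)
  by_contra h
  apply hn
  show T.act (u n) = 0
  rw [hs n h, T.act_zero]

lemma total_mem {X Y : C} (u : ∀ n : ℤ, X ⟶ Y⟦n⟧) : T.total u ∈ T.alg X Y :=
  finsum_induction (fun F => F ∈ T.alg X Y) (Submodule.zero_mem _)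
    (fun _ _ h h' => Submodule.add_mem _ h h') (fun n => T.act_mem (u n))

lemma id_mem (X : C) : (LinearMap.id : W X →ₗ[ℚ] W X) ∈ T.alg X X := by
  rw [← T.act_id X]
  exact T.act_mem _

lemma comp_mem {X Y Z : C} {F : W X →ₗ[ℚ] W Y} {G : W Y →ₗ[ℚ] W Z} (hF : F ∈ T.alg X Y)
    (hG : G ∈ T.alg Y Z) : G ∘ₗ F ∈ T.alg X Z := by
  induction hF using Submodule.span_induction with
  | mem F hF =>
    obtain ⟨a, f, rfl⟩ := hF
    induction hG using Submodule.span_induction with
    | mem G hG =>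
      obtain ⟨b, g, rfl⟩ := hG
      rw [← T.act_comp f g rfl]
      exact T.act_mem _
    | zero => rw [LinearMap.zero_comp]; exact Submodule.zero_mem _
    | add G G' _ _ h h' => rw [LinearMap.add_comp]; exact Submodule.add_mem _ h h'
    | smul c G _ h => rw [LinearMap.smul_comp]; exact Submodule.smul_mem _ _ h
  | zero => rw [LinearMap.comp_zero]; exact Submodule.zero_mem _
  | add F F' _ _ h h' => rw [LinearMap.comp_add]; exact Submodule.add_mem _ h h'
  | smul c F _ h => rw [LinearMap.comp_smul]; exact Submodule.smul_mem _ _ h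

lemma pow_mem {X : C} {F : Module.End ℚ (W X)} (hF : F ∈ T.alg X X) (k : ℕ) :
    F ^ k ∈ T.alg X X := by
  induction k with
  | zero => exact T.id_mem X
  | succ k ih => rw [pow_succ]; exact T.comp_mem hF ih

lemma exp_mem {X : C} {F : Module.End ℚ (W X)} (hF : F ∈ T.alg X X) :
    IsNilpotent.exp F ∈ T.alg X X := by
  rw [IsNilpotent.exp]
  exact Submodule.sum_mem _ (fun k _ => Submodule.smul_mem _ _ (T.pow_mem hF k))

/-- Every element of `alg X Y` comes from a finite family of morphisms `X ⟶ Y⟦n⟧`. -/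
lemma exists_family [Linear ℚ C] {X Y : C} {F : W X →ₗ[ℚ] W Y} (hF : F ∈ T.alg X Y) :
    ∃ (u : ∀ n : ℤ, X ⟶ Y⟦n⟧) (s : Finset ℤ), (∀ n, n ∉ s → u n = 0) ∧
      F = ∑ n ∈ s, T.act (u n) := by
  classical
  induction hF using Submodule.span_induction with
  | mem F hF =>
    obtain ⟨n, f, rfl⟩ := hF
    refine ⟨Pi.single n f, {n}, fun m hm => ?_, ?_⟩
    · rw [Finset.mem_singleton] at hm
      exact Pi.single_eq_of_ne (M := fun n : ℤ => (X ⟶ Y⟦n⟧)) hm f
    · rw [Finset.sum_singleton, Pi.single_eq_same]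
  | zero => exact ⟨fun _ => 0, ∅, fun _ _ => rfl, by simp⟩
  | add F F' _ _ h h' =>
    obtain ⟨u, s, hs, rfl⟩ := h
    obtain ⟨u', s', hs', rfl⟩ := h'
    refine ⟨fun n => u n + u' n, s ∪ s', fun n hn => ?_, ?_⟩
    · rw [Finset.mem_union, not_or] at hn
      show u n + u' n = 0
      rw [hs n hn.1, hs' n hn.2, add_zero]
    · simp only [T.act_add, Finset.sum_add_distrib]
      congr 1
      · refine Finset.sum_subset Finset.subset_union_left (fun n _ hn => ?_)
        rw [hs n hn, T.act_zero]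
      · refine Finset.sum_subset Finset.subset_union_right (fun n _ hn => ?_)
        rw [hs' n hn, T.act_zero]
  | smul c F _ h =>
    obtain ⟨u, s, hs, rfl⟩ := h
    refine ⟨fun n => c • u n, s, fun n hn => ?_, ?_⟩
    · simp only [hs n hn, smul_zero]
    · simp only [T.act_smul, Finset.smul_sum]

/-- `total` of a composition. -/
lemma total_comp {X Y Z : C} (u : ∀ n : ℤ, X ⟶ Y⟦n⟧) (w : ∀ n : ℤ, Y ⟶ Z⟦n⟧)
    [∀ n : ℤ, (shiftFunctor C n).Additive]
    (hu : {n : ℤ | u n ≠ 0}.Finite) (hw : {n : ℤ | w n ≠ 0}.Finite) :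
    T.total (fun c => famComp u w c) = T.total w ∘ₗ T.total u := by
  classical
  have h1 : ∀ c, T.act (famComp u w c) =
      ∑ a ∈ hu.toFinset, T.act (w (c - a)) ∘ₗ T.act (u a) := by
    intro c
    have h2 : famComp u w c = ∑ a ∈ hu.toFinset,
        ShiftedHom.comp (u a) (w (c - a)) (sub_add_cancel c a) := by
      refine finsum_eq_sum_of_support_subset _ (fun n hn => ?_)
      rw [Finset.mem_coe, Set.Finite.mem_toFinset]
      intro h
      apply hn
      simp only [h, ShiftedHom.zero_comp]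
    rw [h2, T.act_sum]
    exact Finset.sum_congr rfl (fun a _ => T.act_comp _ _ _)
  have h3 : ∀ a : ℤ, (Function.support fun c : ℤ => T.act (w (c - a)) ∘ₗ T.act (u a)).Finite := by
    intro a
    refine (hw.preimage (f := fun c : ℤ => c - a) (sub_left_injective.injOn)).subset ?_
    intro c hc
    rw [Set.mem_preimage, Set.mem_ofPred_eq]
    intro h
    apply hc
    show T.act (w (c - a)) ∘ₗ T.act (u a) = 0
    rw [h, T.act_zero, LinearMap.zero_comp]
  have h4 : ∀ a : ℤ, ∑ᶠ c : ℤ, T.act (w (c - a)) ∘ₗ T.act (u a) = T.total w ∘ₗ T.act (u a) := by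
    intro a
    have h5 : ∑ᶠ c : ℤ, T.act (w (c - a)) ∘ₗ T.act (u a) =
        ∑ᶠ b : ℤ, T.act (w b) ∘ₗ T.act (u a) :=
      finsum_comp_equiv (Equiv.subRight a) (f := fun b => T.act (w b) ∘ₗ T.act (u a))
    rw [h5, total]
    let L : (W Y →ₗ[ℚ] W Z) →+ (W X →ₗ[ℚ] W Z) :=
      AddMonoidHom.mk' (fun G => G ∘ₗ T.act (u a)) (fun G G' => LinearMap.add_comp _ _ _)
    have h6 : (Function.support fun b : ℤ => T.act (w b)).Finite := by
      refine hw.subset (fun b hb => ?_)
      intro h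
      apply hb
      show T.act (w b) = 0
      rw [h, T.act_zero]
    exact (AddMonoidHom.map_finsum L h6).symm
  rw [total]
  simp only [h1]
  rw [finsum_sum_comm _ _ (fun a _ => h3 a)]
  simp only [h4]
  rw [T.total_eq_sum u hu.toFinset (fun n hn => by simpa using hn)]
  ext x
  simp only [LinearMap.sum_apply, LinearMap.comp_apply, map_sum]

lemma total_famId (X : C) : T.total (famId X) = LinearMap.id := by
  rw [T.total_eq_sum (famId X) {0} (fun n hn => ?_), Finset.sum_singleton]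
  · rw [famId, dif_pos rfl]
    exact T.act_id X
  · rw [Finset.mem_singleton] at hn
    rw [famId, dif_neg hn]

lemma total_hom_inv [∀ n : ℤ, (shiftFunctor C n).Additive] {X Y : C} (e : OrbitEquiv X Y) :
    T.total e.inv ∘ₗ T.total e.hom = LinearMap.id := by
  rw [← T.total_comp e.hom e.inv e.finite_hom e.finite_inv, ← T.total_famId X]
  congr 1
  funext n
  exact e.hom_inv_id n

lemma total_inv_hom [∀ n : ℤ, (shiftFunctor C n).Additive] {X Y : C} (e : OrbitEquiv X Y) :
    T.total e.hom ∘ₗ T.total e.inv = LinearMap.id := by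
  rw [← T.total_comp e.inv e.hom e.finite_inv e.finite_hom, ← T.total_famId Y]
  congr 1
  funext n
  exact e.inv_hom_id n

/-- The components of nonzero degree of an algebraic map commuting with the degree operators act as
zero. -/
lemma act_eq_zero_of_commutes {X Y : C} (u : ∀ n : ℤ, X ⟶ Y⟦n⟧) (s : Finset ℤ)
    (h : T.deg Y ∘ₗ (∑ n ∈ s, T.act (u n)) = (∑ n ∈ s, T.act (u n)) ∘ₗ T.deg X) (n : ℤ)
    (hn : n ∈ s) (hn0 : n ≠ 0) : T.act (u n) = 0 := by
  classical
  -- the operator `F ↦ deg Y ∘ F - F ∘ deg X`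
  let E : Module.End ℚ (W X →ₗ[ℚ] W Y) :=
    { toFun := fun F => T.deg Y ∘ₗ F - F ∘ₗ T.deg X
      map_add' := fun F G => by rw [LinearMap.comp_add, LinearMap.add_comp]; abel
      map_smul' := fun c F => by
        rw [LinearMap.comp_smul, LinearMap.smul_comp, RingHom.id_apply, smul_sub] }
  have hE : ∀ m : ℤ, T.act (u m) ∈ E.eigenspace (m : ℚ) := fun m =>
    Module.End.mem_eigenspace_iff.2 (T.deg_act (u m))
  have hsum : ∑ m ∈ s, (m : ℚ) • T.act (u m) = 0 := by
    have h1 : E (∑ m ∈ s, T.act (u m)) = 0 := sub_eq_zero.2 h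
    rw [map_sum] at h1
    rw [← h1]
    exact Finset.sum_congr rfl (fun m _ => (Module.End.mem_eigenspace_iff.1 (hE m)).symm)
  have hind : iSupIndep fun m : ℤ => E.eigenspace (m : ℚ) :=
    (Module.End.eigenspaces_iSupIndep E).comp (Int.cast_injective (α := ℚ))
  have h2 := (iSupIndep_iff_finsetSum_eq_zero_imp_eq_zero _).1 hind s
    (fun m => (m : ℚ) • T.act (u m)) (fun m _ => Submodule.smul_mem _ _ (hE m)) hsum n hn
  exact (smul_eq_zero.1 h2).resolve_left (Int.cast_ne_zero.2 hn0)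

end TotalRealization

end Pool.Agent.Lib.MP_5c0b30_ag
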