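import Pool.Agent.Lib.MP_5c0b30_ag.MukaiMain

/-!
# Orthogonal Lie algebras with an algebraic part

For a hyper-Kähler variety `X` of dimension `d`, `V = ℚ α ⊕ H²(X, ℚ) ⊕ ℚ β` is the extended Mukai
lattice, `A = ℚ α ⊕ NS(X)_ℚ ⊕ ℚ β` is its algebraic part, and `so(V)` acts on the cohomology through
the Looijenga-Lunts-Verbitsky Lie algebra: `β ∧ x` acts as (minus) the cup product with the class
`x ∈ H²(X, ℚ)`, and `α ∧ β` acts on the cohomology of degree `i` as multiplication by `(i - d) / 2`.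
-/

set_option autoImplicit false

open CategoryTheory CategoryTheory.Limits

namespace Pool.Agent.Lib.MP_5c0b30_ag

open LinearMap (BilinForm)

universe v u w w₁ w₂

/-- An action of `so(V, B)` on the total cohomology of `M`, together with a subspace `A` of `V`
(the algebraic vectors) on which `B` is nondegenerate and a hyperbolic pair `α`, `β` of `A` such that
`α ∧ β` acts as `deg - δ`, every `β ∧ x` with `x ∈ A`, `x ⟂ β` acts through a morphism `M ⟶ M⟦1⟧`,
and `β^⟂ ∩ A` is not totally isotropic. -/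
structure ExtMukaiAction {C : Type u} [Category.{v} C] [Preadditive C] [HasShift C ℤ]
    {W : C → Type w} [∀ X, AddCommGroup (W X)] [∀ X, Module ℚ (W X)] (T : TotalRealization C W)
    (δ : ℚ) (M : C) (V : Type w₁) [AddCommGroup V] [Module ℚ V] extends
    OrthAction V (W M) where
  A : Submodule ℚ V
  A_nondegenerate : ∀ x ∈ A, (∀ y ∈ A, B x y = 0) → x = 0
  α : V
  β : V
  α_mem : α ∈ A
  β_mem : β ∈ A
  B_α_α : B α α = 0
  B_β_β : B β β = 0
  B_α_β : B α β = 1
  exists_anisotropic : ∃ μ ∈ A, B μ β = 0 ∧ B μ μ ≠ 0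
  ρ_deg : ρ α β = T.deg M - δ • LinearMap.id
  ρ_alg : ∀ x ∈ A, B β x = 0 → ∃ c : M ⟶ M⟦(1 : ℤ)⟧, T.act c = ρ β x

section Transvection

variable {V : Type*} [AddCommGroup V] [Module ℚ V] {B : BilinForm ℚ V}

/-- The transvection `eichler B b (-x)` is the inverse of `eichler B b x`. -/
lemma eichler_neg_eichler (hB : B.IsSymm) {b x : V} (hb : B b b = 0) (hx : B b x = 0) (z : V) :
    eichler B b (-x) (eichler B b x z) = z := by
  have hx' : B x b = 0 := by rw [form_comm hB]; exact hx
  simp only [eichler, map_add, map_sub, map_smul, map_neg, LinearMap.neg_apply, smul_eq_mul, hb,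
    hx, hx']
  module

/-- The transvection `eichler B b x` as a linear automorphism. -/
def eichlerEquiv (hB : B.IsSymm) {b x : V} (hb : B b b = 0) (hx : B b x = 0) : V ≃ₗ[ℚ] V where
  toFun := eichler B b x
  invFun := eichler B b (-x)
  map_add' z w := by simp only [eichler, map_add]; module
  map_smul' c z := by simp only [eichler, map_smul, smul_eq_mul, RingHom.id_apply]; module
  left_inv z := eichler_neg_eichler hB hb hx z
  right_inv z := by
    have h := eichler_neg_eichler hB hb (x := -x) (by rw [map_neg, hx, neg_zero]) z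
    rwa [neg_neg] at h

@[simp] lemma eichlerEquiv_apply (hB : B.IsSymm) {b x : V} (hb : B b b = 0) (hx : B b x = 0)
    (z : V) : eichlerEquiv hB hb hx z = eichler B b x z := rfl

lemma eichler_sub_mem {A : Submodule ℚ V} {b x : V} (hbA : b ∈ A) (hxA : x ∈ A) (z : V) :
    eichler B b x z - z ∈ A := by
  have : eichler B b x z - z = B b z • x - B x z • b - ((1 / 2 : ℚ) * B x x * B b z) • b := by
    rw [eichler]; abel
  rw [this]
  exact Submodule.sub_mem _ (Submodule.sub_mem _ (A.smul_mem _ hxA) (A.smul_mem _ hbA))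
    (A.smul_mem _ hbA)

lemma eichler_mem_iff {A : Submodule ℚ V} {b x : V} (hbA : b ∈ A) (hxA : x ∈ A) (z : V) :
    z ∈ A ↔ eichler B b x z ∈ A := by
  have h := eichler_sub_mem (B := B) hbA hxA z
  constructor
  · intro hz
    have := A.add_mem h hz
    rwa [sub_add_cancel] at this
  · intro hz
    have := A.sub_mem hz h
    rwa [sub_sub_cancel] at this

lemma eichler_of_orthogonal {b x z : V} (hb : B b z = 0) (hx : B x z = 0) :
    eichler B b x z = z := by
  rw [eichler, hb, hx, zero_smul, zero_smul, mul_zero, zero_smul, add_zero, sub_zero, sub_zero]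

/-- `exists_move` with all vectors in a subspace `A` on which the form is nondegenerate. -/
lemma exists_move_mem (hB : B.IsSymm) {A : Submodule ℚ V}
    (hA : ∀ x ∈ A, (∀ y ∈ A, B x y = 0) → x = 0) {α β : V} (hαA : α ∈ A) (hβA : β ∈ A)
    (hα : B α α = 0) (hβ : B β β = 0) (hαβ : B α β = 1)
    (hμ : ∃ μ ∈ A, B μ β = 0 ∧ B μ μ ≠ 0) {u v : V} (huA : u ∈ A) (hvA : v ∈ A)
    (hu : B u u = 0) (hv : B v v = 0) (huv : B u v ≠ 0) :
    ∃ x y x' : V, x ∈ A ∧ y ∈ A ∧ x' ∈ A ∧ B β x = 0 ∧ B v y = 0 ∧ B β x' = 0 ∧ ∃ b c : ℚ,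
      eichler B β x' (eichler B v y (eichler B β x u)) = b • α ∧
      eichler B β x' (eichler B v y (eichler B β x v)) = c • β ∧ b * c = B u v := by
  let BA : BilinForm ℚ A := B.restrict A
  have hres : ∀ x y : A, BA x y = B x y := fun _ _ => rfl
  have hBA : BA.IsSymm := ⟨fun x y => hB.eq x y⟩
  obtain ⟨μ, hμA, hμ1, hμ2⟩ := hμ
  have hcoe : ∀ b x z : A, ((eichler BA b x z : A) : V) = eichler B b x z := by
    intro b x z
    simp only [eichler, hres, Submodule.coe_sub, Submodule.coe_add, Submodule.coe_smul]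
  obtain ⟨x, y, x', hx, hy, hx', b, c, h1, h2, h3⟩ := exists_move (B := BA) (α := ⟨α, hαA⟩)
    (β := ⟨β, hβA⟩) (u := ⟨u, huA⟩) (v := ⟨v, hvA⟩) hBA
    (fun x h => Subtype.ext (hA x x.2 (fun y hy => h ⟨y, hy⟩))) hα hβ hαβ
    ⟨⟨μ, hμA⟩, hμ1, hμ2⟩ hu hv huv
  refine ⟨x, y, x', x.2, y.2, x'.2, hx, hy, hx', b, c, ?_, ?_, h3⟩
  · have := congrArg Subtype.val h1
    rwa [hcoe, hcoe, hcoe] at this
  · have := congrArg Subtype.val h2
    rwa [hcoe, hcoe, hcoe] at this

end Transvection

end Pool.Agent.Lib.MP_5c0b30_ag
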