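import Pool.Agent.Lib.MP_5c0b30_ag.LefschetzOrbit
import Mathlib.Tactic.NoncommRing
import Mathlib.CategoryTheory.Preadditive.Basic

/-!
# From isomorphisms in the orbit category to isomorphisms, modulo the radical
-/

set_option autoImplicit false

open CategoryTheory CategoryTheory.Limits

namespace Pool.Agent.Lib.MP_5c0b30_ag

universe v u

lemma isUnit_one_sub_of_mem_jacobson {R : Type*} [Ring R] {x : R} (hx : x ∈ Ring.jacobson R) :
    IsUnit (1 - x) := by
  -- every element of `1 + J` has a left inverse, which lies in `1 + J`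
  have key : ∀ y ∈ Ring.jacobson R, ∃ z, z * (1 - y) = 1 := by
    intro y hy
    by_contra hne
    push Not at hne
    have h1 : Ideal.span {1 - y} ≠ ⊤ := by
      intro h
      have h2 : (1 : R) ∈ Ideal.span {1 - y} := h ▸ Submodule.mem_top
      obtain ⟨z, hz⟩ := Ideal.mem_span_singleton'.1 h2
      exact hne z hz
    obtain ⟨m, hm, hm'⟩ := Ideal.exists_le_maximal _ h1
    have h3 : 1 - y ∈ m := hm' (Ideal.subset_span rfl)
    have h4 : y ∈ m := Ring.jacobson_le_of_isMaximal m hy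
    exact hm.ne_top ((Ideal.eq_top_iff_one _).2 (by simpa using m.add_mem h3 h4))
  obtain ⟨z, hz⟩ := key x hx
  have hz1 : z - z * x = 1 := by rw [← hz, mul_sub, mul_one]
  have hz' : z = 1 - (-(z * x)) := by
    rw [sub_neg_eq_add, ← hz1, sub_add_cancel]
  obtain ⟨w, hw⟩ := key (-(z * x)) ((Ring.jacobson R).neg_mem ((Ring.jacobson R).mul_mem_left z hx))
  rw [← hz'] at hw
  -- `w = 1 - x`
  have hwx : w = 1 - x := by
    calc w = w * (z * (1 - x)) := by rw [hz, mul_one]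
      _ = (w * z) * (1 - x) := by rw [mul_assoc]
      _ = 1 - x := by rw [hw, one_mul]
  rw [hwx] at hw
  exact ⟨⟨1 - x, z, hw, hz⟩, rfl⟩

variable {C : Type u} [Category.{v} C] [Preadditive C] [HasShift C ℤ]
  [∀ n : ℤ, (shiftFunctor C n).Additive]

/-- Every composition `X ⟶ Y⟦n⟧ ⟶ X` with `n ≠ 0` lies in the Jacobson radical of `End X`. -/
def TwistRadical (X Y : C) : Prop :=
  ∀ n : ℤ, n ≠ 0 → ∀ (f : X ⟶ Y⟦n⟧) (g : Y⟦n⟧ ⟶ X),
    End.of (f ≫ g) ∈ Ring.jacobson (End X)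

lemma isUnit_zero_comp {X Y : C} (h : TwistRadical X Y) (u : OrbitHom X Y) (v : OrbitHom Y X)
    (huv : orbitComp u v = orbitId X) (a : X ⟶ Y) (b : Y ⟶ X)
    (ha : u 0 = ShiftedHom.mk₀ 0 rfl a) (hb : v 0 = ShiftedHom.mk₀ 0 rfl b) :
    IsUnit (End.of (a ≫ b)) := by
  classical
  let s : Finset ℤ := insert 0 (DFinsupp.support u)
  have h1 := orbitComp_apply u v 0 s (fun n hn => by
    rw [← DFinsupp.notMem_support_iff]
    exact fun h => hn (Finset.mem_insert_of_mem h))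
  have h2 : (orbitComp u v) 0 = ShiftedHom.mk₀ 0 rfl (𝟙 X) := by
    rw [huv, orbitId]
    exact DirectSum.of_eq_same _ _
  rw [h2] at h1
  -- compose with `X⟦0⟧ ≅ X`
  let z := (shiftFunctorZero' C (0 : ℤ) rfl).hom.app X
  have h3 : 𝟙 X = ∑ n ∈ s, ShiftedHom.comp (u n) (v (0 - n)) (sub_add_cancel 0 n) ≫ z := by
    rw [← Preadditive.sum_comp, ← h1]
    simp [ShiftedHom.mk₀, z]
  rw [← Finset.add_sum_erase s _ (Finset.mem_insert_self 0 _)] at h3
  have h4 : ∀ m : ℤ, (hm : m + 0 = 0) →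
      ShiftedHom.comp (u 0) (v m) hm ≫ z = a ≫ b := by
    intro m hm
    obtain rfl : m = 0 := by omega
    rw [ha, hb, ShiftedHom.mk₀_comp_mk₀]
    simp [ShiftedHom.mk₀, z]
  rw [h4 (0 - 0) (sub_add_cancel 0 0)] at h3
  let r : End X := ∑ n ∈ s.erase 0,
    End.of (ShiftedHom.comp (u n) (v (0 - n)) (sub_add_cancel 0 n) ≫ z)
  have hr : r ∈ Ring.jacobson (End X) := by
    refine Submodule.sum_mem _ (fun n hn => ?_)
    have hn0 : n ≠ 0 := Finset.ne_of_mem_erase hn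
    have h5 := h n hn0 (u n)
      ((v (0 - n))⟦n⟧' ≫ (shiftFunctorAdd' C (0 - n) n 0 (sub_add_cancel 0 n)).inv.app X ≫ z)
    simpa only [ShiftedHom.comp, Category.assoc] using h5
  have h6 : End.of (a ≫ b) = 1 - r := by
    have h7 : (1 : End X) = End.of (a ≫ b) + r := h3
    rw [h7, add_sub_cancel_right]
  rw [h6]
  exact isUnit_one_sub_of_mem_jacobson hr

/-- Two objects which are isomorphic in the orbit category are isomorphic, if all maps between them
of nonzero degree are radical. -/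
theorem nonempty_iso_of_orbitIso {X Y : C} (h : TwistRadical X Y) (h' : TwistRadical Y X)
    (e : OrbitIso X Y) : Nonempty (X ≅ Y) := by
  let a : X ⟶ Y := (ShiftedHom.homEquiv (0 : ℤ) rfl).symm (e.hom 0)
  let b : Y ⟶ X := (ShiftedHom.homEquiv (0 : ℤ) rfl).symm (e.inv 0)
  have ha : e.hom 0 = ShiftedHom.mk₀ 0 rfl a :=
    ((ShiftedHom.homEquiv (0 : ℤ) rfl).apply_symm_apply (e.hom 0)).symm
  have hb : e.inv 0 = ShiftedHom.mk₀ 0 rfl b :=
    ((ShiftedHom.homEquiv (0 : ℤ) rfl).apply_symm_apply (e.inv 0)).symm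
  obtain ⟨⟨x, y, hxy, hyx⟩, hx⟩ := isUnit_zero_comp h e.hom e.inv e.hom_inv_id a b ha hb
  obtain ⟨⟨x', y', hxy', hyx'⟩, hx'⟩ := isUnit_zero_comp h' e.inv e.hom e.inv_hom_id b a hb ha
  dsimp only at hx hx'
  subst hx hx'
  -- in `End`, `f * g = g ≫ f`
  have k1 : (a ≫ b) ≫ y = 𝟙 X := hyx
  have k4 : y' ≫ (b ≫ a) = 𝟙 Y := hxy'
  have k5 : a ≫ (b ≫ y) = 𝟙 X := by simpa only [Category.assoc] using k1
  have k6 : (y' ≫ b) ≫ a = 𝟙 Y := by simpa only [Category.assoc] using k4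
  have k7 : y' ≫ b = b ≫ y := by
    calc y' ≫ b = (y' ≫ b) ≫ (a ≫ (b ≫ y)) := by rw [k5, Category.comp_id]
      _ = ((y' ≫ b) ≫ a) ≫ (b ≫ y) := by simp only [Category.assoc]
      _ = b ≫ y := by rw [k6, Category.id_comp]
  exact ⟨⟨a, b ≫ y, k5, by rw [← k7, k6]⟩⟩

end Pool.Agent.Lib.MP_5c0b30_ag
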