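import Pool.Agent.Lib.MP_5c0b30_ag.ExpConj
import Mathlib.LinearAlgebra.BilinearForm.Basic
import Mathlib.Tactic.Linarith
import Mathlib.Tactic.FieldSimp

/-!
# The endomorphisms `x ∧ y` of a quadratic space, and Eichler transvections
-/

set_option autoImplicit false

namespace Pool.Agent.Lib.MP_5c0b30_ag

open LinearMap (BilinForm)

variable {V : Type*} [AddCommGroup V] [Module ℚ V]

theorem form_comm {B : BilinForm ℚ V} (hB : B.IsSymm) (x y : V) : B x y = B y x := hB.eq x y

/-- The endomorphism `x ∧ y : z ↦ B(x, z) y - B(y, z) x` of `V`. -/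
def wedge (B : BilinForm ℚ V) (x y : V) : Module.End ℚ V :=
  (B x).smulRight y - (B y).smulRight x

@[simp]
theorem wedge_apply (B : BilinForm ℚ V) (x y z : V) : wedge B x y z = B x z • y - B y z • x := rfl

section Eichler

variable {B : BilinForm ℚ V}

/-- The Eichler transvection `exp (b ∧ x)` for `b` isotropic and `x ⟂ b`. -/
def eichler (B : BilinForm ℚ V) (b x z : V) : V :=
  z + B b z • x - B x z • b - ((1 / 2 : ℚ) * B x x * B b z) • b

theorem wedge_pow_three {b x : V} (hb : B b b = 0) (hx : B b x = 0) (hB : B.IsSymm) :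
    wedge B b x ^ 3 = 0 := by
  have hx' : B x b = 0 := by rw [form_comm hB]; exact hx
  ext z
  simp only [pow_succ, pow_zero, one_mul, Module.End.mul_apply, wedge_apply, map_sub, map_smul,
    hb, hx, hx', sub_zero, zero_smul, zero_sub, LinearMap.zero_apply, map_neg]
  simp

theorem exp_wedge {b x : V} (hb : B b b = 0) (hx : B b x = 0) (hB : B.IsSymm) (z : V) :
    IsNilpotent.exp (wedge B b x) z = eichler B b x z := by
  have hx' : B x b = 0 := by rw [form_comm hB]; exact hx
  rw [IsNilpotent.exp_eq_sum (wedge_pow_three hb hx hB)]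
  simp only [Finset.sum_range_succ, Finset.sum_range_zero, zero_add, Nat.factorial, pow_zero,
    pow_one, LinearMap.add_apply, LinearMap.smul_apply, Module.End.one_apply, pow_two,
    Module.End.mul_apply, wedge_apply, map_sub, map_smul, hb, hx, hx',
    sub_zero, zero_smul, zero_sub, eichler]
  push_cast
  module

/-- The transvection along `β` fixing `β` and moving a vector `w` with `B β w ≠ 0` isotropic to a
multiple of `α`. -/
theorem eichler_move {α β w : V} (hB : B.IsSymm) (hα : B α α = 0)
    (hαβ : B α β = 1) (hw : B w w = 0) (hβw : B β w ≠ 0) :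
    B β (α - (B β w)⁻¹ • w) = 0 ∧ eichler B β (α - (B β w)⁻¹ • w) w = B β w • α := by
  have hβα : B β α = 1 := by rw [form_comm hB]; exact hαβ
  have hwα : B w α = B α w := form_comm hB w α
  have hwβ : B w β = B β w := form_comm hB w β
  constructor
  · rw [map_sub, map_smul, hβα, smul_eq_mul, inv_mul_cancel₀ hβw, sub_self]
  · have h1 : B (α - (B β w)⁻¹ • w) w = B α w := by
      rw [map_sub, map_smul, LinearMap.sub_apply, LinearMap.smul_apply, hw, smul_zero, sub_zero]
    have h2 : B (α - (B β w)⁻¹ • w) (α - (B β w)⁻¹ • w) = - 2 * (B β w)⁻¹ * B α w := by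
      simp only [map_sub, map_smul, LinearMap.sub_apply, LinearMap.smul_apply, hw, hα, hwα,
        smul_eq_mul]
      ring
    rw [eichler, h1, h2, smul_sub, smul_smul, mul_inv_cancel₀ hβw, one_smul]
    have h3 : (1 / 2 : ℚ) * (-2 * (B β w)⁻¹ * B α w) * B β w = - B α w := by
      field_simp
    rw [h3]
    module

theorem eichler_self {b x : V} (hb : B b b = 0) (hB : B.IsSymm) (hx : B b x = 0) :
    eichler B b x b = b := by
  have hx' : B x b = 0 := by rw [form_comm hB]; exact hx
  simp [eichler, hb, hx']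

/-- Case `B v β ≠ 0`: two transvections along `β` and `v` move `v` to a multiple of `β`. -/
theorem exists_move_of_ne {β v μ : V} (hB : B.IsSymm) (hβ : B β β = 0)
    (hv : B v v = 0) (hμβ : B μ β = 0) (hμ : B μ μ ≠ 0) (hvβ : B v β ≠ 0) :
    ∃ x y : V, B β x = 0 ∧ B v y = 0 ∧ ∃ c : ℚ, c ≠ 0 ∧
      eichler B v y (eichler B β x v) = c • β := by
  set r := B v β with hr
  set q := B μ μ with hq
  let ν : V := μ - (B μ v / r) • β
  have hβv : B β v = r := by rw [form_comm hB]
  have hβμ : B β μ = 0 := by rw [form_comm hB]; exact hμβ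
  have hvμ : B v μ = B μ v := form_comm hB v μ
  have hνβ : B ν β = 0 := by
    simp only [ν, map_sub, map_smul, LinearMap.sub_apply, LinearMap.smul_apply, hμβ, hβ,
      smul_zero, sub_zero]
  have hβν : B β ν = 0 := by rw [form_comm hB]; exact hνβ
  have hνv : B ν v = 0 := by
    simp only [ν, map_sub, map_smul, LinearMap.sub_apply, LinearMap.smul_apply, hβv, smul_eq_mul]
    field_simp
    ring
  have hvν : B v ν = 0 := by rw [form_comm hB]; exact hνv
  have hνν : B ν ν = q := by
    have : B ν ν = B ν μ - (B μ v / r) * B ν β := by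
      conv_lhs => rw [show B ν ν = B ν (μ - (B μ v / r) • β) from rfl]
      rw [map_sub, map_smul, smul_eq_mul]
    rw [this, hνβ, mul_zero, sub_zero]
    simp only [ν, map_sub, map_smul, LinearMap.sub_apply, LinearMap.smul_apply, hβμ, smul_zero,
      sub_zero, ← hq]
  refine ⟨ν, (2 / (q * r)) • ν, hβν, by rw [map_smul, hvν, smul_zero], -(1 / 2 * q * r), ?_, ?_⟩
  · refine neg_ne_zero.2 (mul_ne_zero (mul_ne_zero (by norm_num) hμ) hvβ)
  · have e1 : eichler B β ν v = v + r • ν - (1 / 2 * q * r) • β := by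
      rw [eichler, hβv, hνv, hνν, zero_smul, sub_zero]
    rw [e1]
    have f1 : B v (v + r • ν - (1 / 2 * q * r) • β) = - (1 / 2 * q * r) * r := by
      rw [map_sub, map_add, map_smul, map_smul, hv, hvν, ← hr, smul_eq_mul, smul_eq_mul]
      ring
    have f2 : B ν (v + r • ν - (1 / 2 * q * r) • β) = r * q := by
      rw [map_sub, map_add, map_smul, map_smul, hνv, hνν, hνβ, smul_eq_mul, smul_eq_mul]
      ring
    rw [eichler, f1]
    simp only [map_smul, LinearMap.smul_apply, f2, hνν, smul_eq_mul]
    have g1 : 2 / (q * r) * (r * q) = 2 := by field_simp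
    have g2 : (1 / 2 : ℚ) * (2 / (q * r) * (2 / (q * r) * q)) * (-(1 / 2 * q * r) * r) = -1 := by
      field_simp
    have g3 : (-(1 / 2 * q * r) * r) * (2 / (q * r)) = - r := by field_simp
    rw [g1, g2, smul_smul, g3]
    module

/-- Case `B v β = 0`, `v` not a multiple of `β`: two transvections move `v` to `β`. -/
theorem exists_move_of_eq {α β v : V} (hB : B.IsSymm) (hBn : ∀ z : V, (∀ w, B z w = 0) → z = 0)
    (hαβ : B α β = 1) (hv : B v v = 0) (hvβ : B v β = 0) (hne : ∀ c : ℚ, v ≠ c • β) :
    ∃ x y : V, B β x = 0 ∧ B v y = 0 ∧ eichler B v y (eichler B β x v) = β := by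
  have hβv : B β v = 0 := by rw [form_comm hB]; exact hvβ
  have hβα : B β α = 1 := by rw [form_comm hB]; exact hαβ
  -- a vector `x` with `B β x = 0` and `B x v ≠ 0`
  have h1 : ∃ x, B β x = 0 ∧ B x v ≠ 0 := by
    by_contra hcon
    push Not at hcon
    refine hne (B v α) ?_
    rw [← sub_eq_zero]
    refine hBn _ (fun w => ?_)
    have h2 : B (w - B β w • α) v = 0 := by
      refine hcon _ ?_
      rw [map_sub, map_smul, hβα, smul_eq_mul, mul_one, sub_self]
    rw [map_sub, map_smul, LinearMap.sub_apply, LinearMap.smul_apply, smul_eq_mul] at h2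
    rw [map_sub, map_smul, LinearMap.sub_apply, LinearMap.smul_apply, smul_eq_mul]
    rw [form_comm hB w v, form_comm hB α v] at h2
    linarith
  obtain ⟨x, hx1, hx2⟩ := h1
  -- a vector `y` with `B v y = 0` and `B y β ≠ 0`
  have h2 : ∃ y, B v y = 0 ∧ B y β ≠ 0 := by
    refine ⟨α - (B α v / B x v) • x, ?_, ?_⟩
    · rw [map_sub, map_smul, smul_eq_mul, form_comm hB v α, form_comm hB v x]
      field_simp
      ring
    · rw [map_sub, map_smul, LinearMap.sub_apply, LinearMap.smul_apply, hαβ, form_comm hB x β,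
        hx1, smul_zero, sub_zero]
      exact one_ne_zero
  obtain ⟨y, hy1, hy2⟩ := h2
  refine ⟨-(B x v)⁻¹ • x, (B y β)⁻¹ • y, by rw [map_smul, hx1, smul_zero],
    by rw [map_smul, hy1, smul_zero], ?_⟩
  have e1 : eichler B β (-(B x v)⁻¹ • x) v = v + β := by
    rw [eichler, hβv, zero_smul, mul_zero, zero_smul, add_zero, sub_zero, map_smul,
      LinearMap.smul_apply, smul_eq_mul, neg_mul, inv_mul_cancel₀ hx2]
    module
  have hyv : B y v = 0 := by rw [form_comm hB]; exact hy1
  rw [e1, eichler, map_add, hv, hvβ, add_zero, zero_smul, mul_zero, zero_smul, add_zero, sub_zero,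
    map_smul, LinearMap.smul_apply, map_add, hyv, zero_add, smul_eq_mul, inv_mul_cancel₀ hy2]
  module

end Eichler

end Pool.Agent.Lib.MP_5c0b30_ag
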