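import Pool.Agent.Lib.MP_5c0b30_ag.MukaiAlg
import Pool.Agent.Lib.MP_5c0b30_ag.Radical
import Pool.Agent.Lib.MP_5c0b30_ag.Wedge

/-!
# Moving an orbit isomorphism to one commuting with the degree operators
-/

set_option autoImplicit false

open CategoryTheory CategoryTheory.Limits

namespace Pool.Agent.Lib.MP_5c0b30_ag

open LinearMap (BilinForm)

section Rep

variable {V : Type*} [AddCommGroup V] [Module ℚ V] {B : BilinForm ℚ V} (hB : B.IsSymm)
  {H : Type*} [AddCommGroup H] [Module ℚ H] {P : V →ₗ[ℚ] V →ₗ[ℚ] Module.End ℚ H}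
  (hP0 : ∀ z, P z z = 0)
  (hP : ∀ a b z w, P a b * P z w - P z w * P a b = P (wedge B a b z) w + P z (wedge B a b w))

include hP0 hP

/-- `P b x` is nilpotent. -/
lemma rep_nilpotent [FiniteDimensional ℚ H] {b b' x : V} (hb : B b b = 0) (hx : B b x = 0)
    (hb' : B b' b ≠ 0) : IsNilpotent (P b x) := by
  refine isNilpotent_of_bracket (h := (B b' b)⁻¹ • P b' b) ?_
  have h1 := hP b' b b x
  have e1 : wedge B b' b b = B b' b • b := by
    rw [wedge_apply, hb, zero_smul, sub_zero]
  have e2 : wedge B b' b x = B b' x • b := by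
    rw [wedge_apply, hx, zero_smul, sub_zero]
  rw [e1, e2, map_smul, map_smul, LinearMap.smul_apply, hP0, smul_zero, add_zero] at h1
  rw [smul_mul_assoc, mul_smul_comm, ← smul_sub, h1, smul_smul, inv_mul_cancel₀ hb', one_smul]

include hB in
/-- `exp (P b x)` acts through the Eichler transvection. -/
lemma rep_exp [FiniteDimensional ℚ H] {b b' x : V} (hb : B b b = 0) (hx : B b x = 0)
    (hb' : B b' b ≠ 0) (z w : V) :
    IsNilpotent.exp (P b x) * P z w =
      P (eichler B b x z) (eichler B b x w) * IsNilpotent.exp (P b x) := by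
  rw [exp_conj (P := P) (x := P b x) (a := wedge B b x)
    (rep_nilpotent hP0 hP hb hx hb') ⟨3, wedge_pow_three hb hx hB⟩
    (fun z w => hP b x z w) z w, exp_wedge hb hx hB, exp_wedge hb hx hB]

end Rep

section Isometry

variable {V : Type*} [AddCommGroup V] [Module ℚ V] {B : BilinForm ℚ V}

lemma eichler_form (hB : B.IsSymm) {b x : V} (hb : B b b = 0) (hx : B b x = 0) (z w : V) :
    B (eichler B b x z) (eichler B b x w) = B z w := by
  have hx' : B x b = 0 := by rw [form_comm hB]; exact hx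
  have h1 : B z b = B b z := form_comm hB z b
  have h3 : B z x = B x z := form_comm hB z x
  simp only [eichler, map_add, map_sub, map_smul, LinearMap.add_apply, LinearMap.sub_apply,
    LinearMap.smul_apply, smul_eq_mul, hb, hx, hx', h1, h3]
  ring

/-- There are `x ⟂ β`, `y ⟂ v`, `x' ⟂ β` such that the product of the transvections
`(β, x')`, `(v, y)`, `(β, x)` maps the isotropic pair `(u, v)` to multiples of `(α, β)`. -/
lemma exists_move (hB : B.IsSymm) (hBn : ∀ x : V, (∀ y : V, B x y = 0) → x = 0) {α β : V}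
    (hα : B α α = 0) (hβ : B β β = 0) (hαβ : B α β = 1) (hμ : ∃ μ : V, B μ β = 0 ∧ B μ μ ≠ 0)
    {u v : V} (hu : B u u = 0) (hv : B v v = 0) (huv : B u v ≠ 0) :
    ∃ x y x' : V, B β x = 0 ∧ B v y = 0 ∧ B β x' = 0 ∧ ∃ b c : ℚ,
      eichler B β x' (eichler B v y (eichler B β x u)) = b • α ∧
      eichler B β x' (eichler B v y (eichler B β x v)) = c • β ∧ b * c = B u v := by
  -- move `v` to a multiple of `β`
  have h1 : ∃ x y : V, B β x = 0 ∧ B v y = 0 ∧ ∃ c : ℚ, c ≠ 0 ∧
      eichler B v y (eichler B β x v) = c • β := by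
    by_cases h : ∃ c : ℚ, v = c • β
    · obtain ⟨c, hc⟩ := h
      refine ⟨0, 0, map_zero _, map_zero _, c, ?_, ?_⟩
      · rintro rfl
        apply huv
        rw [hc, zero_smul, map_zero]
      · rw [← hc]
        simp [eichler]
    · push Not at h
      by_cases hvβ : B v β = 0
      · obtain ⟨x, y, hx, hy, hxy⟩ := exists_move_of_eq hB hBn hαβ hv hvβ h
        exact ⟨x, y, hx, hy, 1, one_ne_zero, by rw [one_smul]; exact hxy⟩
      · obtain ⟨μ, hμ1, hμ2⟩ := hμ
        exact exists_move_of_ne hB hβ hv hμ1 hμ2 hvβ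
  obtain ⟨x, y, hx, hy, c, hc, hxy⟩ := h1
  set w := eichler B v y (eichler B β x u) with hw
  have hww : B w w = 0 := by rw [hw, eichler_form hB hv hy, eichler_form hB hβ hx, hu]
  have hwc : B w (c • β) = B u v := by
    rw [← hxy, hw, eichler_form hB hv hy, eichler_form hB hβ hx]
  have hβw : c * B β w = B u v := by
    rw [← hwc, map_smul, smul_eq_mul, form_comm hB w β]
  have hβw0 : B β w ≠ 0 := by
    intro h0
    rw [h0, mul_zero] at hβw
    exact huv hβw.symm
  obtain ⟨hx', hmove⟩ := eichler_move (α := α) (β := β) (w := w) hB hα hαβ hww hβw0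
  refine ⟨x, y, α - (B β w)⁻¹ • w, hx, hy, hx', B β w, c, hmove, ?_, by rw [mul_comm]; exact hβw⟩
  rw [hxy]
  have h2 : eichler B β (α - (B β w)⁻¹ • w) (c • β) = c • eichler B β (α - (B β w)⁻¹ • w) β := by
    simp only [eichler, map_smul, smul_eq_mul]
    module
  rw [h2, eichler_self hβ hB hx']

end Isometry

section OrthAction

variable {V : Type*} [AddCommGroup V] [Module ℚ V] {H : Type*} [AddCommGroup H] [Module ℚ H]
  (S : OrthAction V H)

/-- The form of an orthogonal action, as a bilinear form. -/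
def OrthAction.form : BilinForm ℚ V :=
  LinearMap.mk₂ ℚ S.B S.B_add
    (fun c x y => by
      let F : V →+ ℚ := AddMonoidHom.mk' (fun x => S.B x y) (fun x x' => S.B_add x x' y)
      exact map_rat_smul F c x)
    (fun x y z => by rw [S.B_symm x, S.B_add, S.B_symm y, S.B_symm z])
    (fun c x y => by
      let F : V →+ ℚ := AddMonoidHom.mk' (fun y => S.B x y)
        (fun y y' => by simp only [S.B_symm x, S.B_add])
      exact map_rat_smul F c y)

@[simp] lemma OrthAction.form_apply (x y : V) : S.form x y = S.B x y := rfl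

lemma OrthAction.form_symm : S.form.IsSymm := ⟨fun x y => S.B_symm x y⟩

lemma OrthAction.ρ_add_right (x y z : V) : S.ρ x (y + z) = S.ρ x y + S.ρ x z := by
  rw [S.ρ_neg (y + z) x, S.ρ_add, neg_add, ← S.ρ_neg, ← S.ρ_neg]

/-- The action of `x ∧ y`, as a bilinear map. -/
def OrthAction.rep : V →ₗ[ℚ] V →ₗ[ℚ] Module.End ℚ H :=
  LinearMap.mk₂ ℚ S.ρ S.ρ_add
    (fun c x y => by
      let F : V →+ Module.End ℚ H := AddMonoidHom.mk' (fun x => S.ρ x y)
        (fun x x' => S.ρ_add x x' y)
      exact map_rat_smul F c x)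
    S.ρ_add_right
    (fun c x y => by
      let F : V →+ Module.End ℚ H := AddMonoidHom.mk' (fun y => S.ρ x y) (S.ρ_add_right x)
      exact map_rat_smul F c y)

@[simp] lemma OrthAction.rep_apply (x y : V) : S.rep x y = S.ρ x y := rfl

lemma OrthAction.rep_self (z : V) : S.rep z z = 0 := by
  have h : S.ρ z z = - S.ρ z z := S.ρ_neg z z
  have h2 : (2 : ℚ) • S.ρ z z = 0 := by
    rw [two_smul]
    nth_rewrite 1 [h]
    exact neg_add_cancel _
  exact (smul_eq_zero.1 h2).resolve_left two_ne_zero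

lemma OrthAction.rep_bracket (a b z w : V) :
    S.rep a b * S.rep z w - S.rep z w * S.rep a b =
      S.rep (wedge S.form a b z) w + S.rep z (wedge S.form a b w) :=
  S.ρ_bracket a b z w

end OrthAction

end Pool.Agent.Lib.MP_5c0b30_ag
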