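import Pool.Agent.Lib.MP_5c0b30_ag.Band
import Mathlib.CategoryTheory.Limits.Shapes.BinaryBiproducts

/-!
# The truncation theorem for band isomorphisms
-/

set_option autoImplicit false

open CategoryTheory CategoryTheory.Limits

namespace Pool.Agent.Lib.MP_5c0b30_ag

universe v u

variable {C : Type u} [Category.{v} C] [Preadditive C]

/-- Two splittings of the same idempotent matrix are isomorphic. -/
lemma iso_of_family {X : ℤ → C} {A A' : C} (S : Finset ℤ) (a : ∀ i, A ⟶ X i) (b : ∀ i, X i ⟶ A)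
    (a' : ∀ i, A' ⟶ X i) (b' : ∀ i, X i ⟶ A')
    (hA : ∑ i ∈ S, a i ≫ b i = 𝟙 A) (hA' : ∑ i ∈ S, a' i ≫ b' i = 𝟙 A')
    (h : ∀ i ∈ S, ∀ j ∈ S, b i ≫ a j = b' i ≫ a' j) : Nonempty (A ≅ A') := by
  have key : ∀ {A A' : C} (a : ∀ i, A ⟶ X i) (b : ∀ i, X i ⟶ A)
      (a' : ∀ i, A' ⟶ X i) (b' : ∀ i, X i ⟶ A')
      (_ : ∑ i ∈ S, a i ≫ b i = 𝟙 A)
      (_ : ∀ i ∈ S, ∀ j ∈ S, b i ≫ a j = b' i ≫ a' j),
      (∑ i ∈ S, a i ≫ b' i) ≫ (∑ j ∈ S, a' j ≫ b j) = 𝟙 A := by
    intro A A' a b a' b' hA h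
    rw [Preadditive.sum_comp]
    have : ∀ i ∈ S, (a i ≫ b' i) ≫ (∑ j ∈ S, a' j ≫ b j) =
        (a i ≫ b i) ≫ (∑ j ∈ S, a j ≫ b j) := by
      intro i hi
      rw [Preadditive.comp_sum, Preadditive.comp_sum]
      refine Finset.sum_congr rfl (fun j hj => ?_)
      have := h i hi j hj
      simp only [Category.assoc]
      rw [← Category.assoc (b' i), ← this, Category.assoc]
    rw [Finset.sum_congr rfl this, ← Preadditive.sum_comp, hA, Category.comp_id]
  exact ⟨⟨∑ i ∈ S, a i ≫ b' i, ∑ j ∈ S, a' j ≫ b j, key a b a' b' hA h,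
    key a' b' a b hA' (fun i hi j hj => (h i hi j hj).symm)⟩⟩

/-- Kronecker delta, as a morphism `X i ⟶ X j`. -/
noncomputable def dl (X : ℤ → C) (i j : ℤ) : X i ⟶ X j :=
  if h : i = j then eqToHom (by rw [h]) else 0

@[simp]
lemma dl_self (X : ℤ → C) (i : ℤ) : dl X i i = 𝟙 (X i) := by simp [dl]

lemma dl_ne (X : ℤ → C) {i j : ℤ} (h : i ≠ j) : dl X i j = 0 := by simp [dl, h]

lemma sum_comp_dl {X : ℤ → C} {A : C} (S : Finset ℤ) (g : ∀ i, A ⟶ X i) (j : ℤ) (hj : j ∈ S) :
    ∑ i ∈ S, g i ≫ dl X i j = g j := by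
  rw [Finset.sum_eq_single j]
  · simp
  · intro i _ hi
    rw [dl_ne X hi, comp_zero]
  · intro h
    exact absurd hj h

lemma sum_dl_comp {X : ℤ → C} {A : C} (S : Finset ℤ) (g : ∀ i, X i ⟶ A) (j : ℤ) (hj : j ∈ S) :
    ∑ i ∈ S, dl X j i ≫ g i = g j := by
  rw [Finset.sum_eq_single j]
  · simp
  · intro i _ hi
    rw [dl_ne X (Ne.symm hi), zero_comp]
  · intro h
    exact absurd hj h

namespace BandIso

variable {X Y : ℤ → C} {d : ℤ} (B : BandIso X Y d)

/-- The truncated matrix, on the window `[-d, d)`, is idempotent and therefore splits. -/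
lemma exists_split [HasFiniteBiproducts C] [IsIdempotentComplete C] :
    ∃ (Q : C) (q : ∀ i, Q ⟶ X i) (p : ∀ i, X i ⟶ Q),
      (∀ i, i ∉ Finset.Ico (-d) d → q i = 0) ∧ (∀ i, i ∉ Finset.Ico (-d) d → p i = 0) ∧
      (∀ i ∈ Finset.Ico (-d) d, ∀ j ∈ Finset.Ico (-d) d, p i ≫ q j = B.E 0 i j) ∧
      ∑ i ∈ Finset.Ico (-d) d, q i ≫ p i = 𝟙 Q := by
  classical
  have hd := B.d_nonneg
  let I := {i : ℤ // i ∈ Finset.Ico (-d) d}
  let e : (⨁ fun i : I => X i) ⟶ (⨁ fun i : I => X i) :=
    biproduct.matrix (fun i j => B.E 0 i.1 j.1)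
  have he : e ≫ e = e := by
    apply biproduct.hom_ext
    intro j
    apply biproduct.hom_ext'
    intro i
    have h1 : biproduct.ι (fun i : I => X i) i ≫ (e ≫ e) ≫ biproduct.π _ j =
        ∑ l : I, B.E 0 i.1 l.1 ≫ B.E 0 l.1 j.1 := by
      simp only [e, Category.assoc, biproduct.matrix_π, biproduct.ι_matrix_assoc]
      rw [biproduct.lift_desc]
    rw [h1]
    have h2 : ∑ l : I, B.E 0 i.1 l.1 ≫ B.E 0 l.1 j.1 =
        ∑ l ∈ Finset.Ico (-d) d, B.E 0 i.1 l ≫ B.E 0 l j.1 :=
      Finset.sum_coe_sort (Finset.Ico (-d) d) (fun l => B.E 0 i.1 l ≫ B.E 0 l j.1)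
    rw [h2]
    have hi := i.2
    have hj := j.2
    rw [Finset.mem_Ico] at hi hj
    have h3 : ∑ l ∈ Finset.Ico (-d) d, B.E 0 i.1 l ≫ B.E 0 l j.1 =
        ∑ l ∈ Finset.Icc (-d) (i.1 + 2 * d), B.E 0 i.1 l ≫ B.E 0 l j.1 := by
      by_cases hle : i.1 + 2 * d < d
      · -- then the window `[-d, i + 2d]` is smaller, but the columns vanish
        symm
        refine Finset.sum_subset (fun l hl => ?_) (fun l hl hl' => ?_)
        · rw [Finset.mem_Icc] at hl
          exact Finset.mem_Ico.2 ⟨hl.1, by omega⟩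
        · rw [Finset.mem_Ico] at hl
          rw [Finset.mem_Icc] at hl'
          have : B.E 0 i.1 l = 0 := by
            unfold E
            refine Finset.sum_eq_zero (fun k hk => ?_)
            rw [Finset.mem_Icc] at hk
            rw [B.V_zero k l (by omega), comp_zero]
          rw [this, zero_comp]
      · refine Finset.sum_subset (fun l hl => ?_) (fun l hl hl' => ?_)
        · rw [Finset.mem_Ico] at hl
          exact Finset.mem_Icc.2 ⟨hl.1, by omega⟩
        · rw [Finset.mem_Icc] at hl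
          rw [Finset.mem_Ico] at hl'
          rw [B.E_high_ne 0 l j.1 (by omega) (by omega), comp_zero]
    rw [h3, B.E_E 0 i.1 j.1 _ (fun l h h' => Finset.mem_Icc.2 ⟨by omega, h'⟩)]
    simp [e]
  obtain ⟨Q, s, r, hsr, hrs⟩ := IsIdempotentComplete.idempotents_split _ e he
  refine ⟨Q, fun i => if h : i ∈ Finset.Ico (-d) d then s ≫ biproduct.π (fun i : I => X i) ⟨i, h⟩
      else 0,
    fun i => if h : i ∈ Finset.Ico (-d) d then biproduct.ι (fun i : I => X i) ⟨i, h⟩ ≫ r else 0,
    fun i hi => dif_neg hi, fun i hi => dif_neg hi, ?_, ?_⟩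
  · intro i hi j hj
    simp only [hi, hj, dif_pos, Category.assoc]
    rw [← Category.assoc r s, hrs]
    simp [e]
  · have h1 : ∑ i ∈ Finset.Ico (-d) d,
        ((if h : i ∈ Finset.Ico (-d) d then s ≫ biproduct.π (fun i : I => X i) ⟨i, h⟩ else 0) ≫
          (if h : i ∈ Finset.Ico (-d) d then biproduct.ι (fun i : I => X i) ⟨i, h⟩ ≫ r else 0)) =
        ∑ i : I, s ≫ (biproduct.π (fun i : I => X i) i ≫ biproduct.ι (fun i : I => X i) i) ≫ r := by
      rw [← Finset.sum_coe_sort]
      refine Finset.sum_congr rfl (fun i _ => ?_)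
      have hi := i.2
      simp only [hi, dif_pos, Category.assoc]
    rw [h1, ← Preadditive.comp_sum, ← Preadditive.sum_comp, biproduct.total, Category.id_comp, hsr]

/-- **Truncation theorem.** Let `U`, `V` be mutually inverse band matrices of width `d` between the
families `X`, `Y`, compatible with an additive functor `T` which shifts both families by one.
Then there is a direct summand `Q` of `⨁_{-d ≤ i < d} X i` with `Q ⊞ X d ≅ T Q ⊞ Y 0`. -/
theorem exists_iso [HasFiniteBiproducts C] [HasBinaryBiproducts C] [IsIdempotentComplete C]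
    (T : C ⥤ C) [T.Additive]
    (τ : ∀ i j : ℤ, i + 1 = j → (T.obj (X i) ≅ X j))
    (σ : ∀ i j : ℤ, i + 1 = j → (T.obj (Y i) ≅ Y j))
    (hU : ∀ i i' j j' (hi : i + 1 = i') (hj : j + 1 = j'),
      T.map (B.U i j) ≫ (σ j j' hj).hom = (τ i i' hi).hom ≫ B.U i' j')
    (hV : ∀ i i' j j' (hi : i + 1 = i') (hj : j + 1 = j'),
      T.map (B.V i j) ≫ (τ j j' hj).hom = (σ i i' hi).hom ≫ B.V i' j') :
    ∃ (Q : C), Nonempty (Retract Q (⨁ fun i : {i : ℤ // i ∈ Finset.Ico (-d) d} => X i)) ∧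
      Nonempty (Q ⊞ X d ≅ T.obj Q ⊞ Y 0) := by
  classical
  have hd := B.d_nonneg
  obtain ⟨Q, q, p, hq0, hp0, hpq, hqp⟩ := B.exists_split
  refine ⟨Q, ⟨⟨biproduct.lift (fun i => q i.1), biproduct.desc (fun i => p i.1), ?_⟩⟩, ?_⟩
  · rw [biproduct.lift_desc, ← hqp]
    exact Finset.sum_coe_sort (Finset.Ico (-d) d) (fun l => q l ≫ p l)
  -- extend the relation `p ≫ q = E`
  have hpq' : ∀ i j, i < d → j < d → p i ≫ q j = B.E 0 i j := by
    intro i j hi hj
    by_cases h1 : -d ≤ i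
    · by_cases h2 : -d ≤ j
      · exact hpq i (Finset.mem_Ico.2 ⟨h1, hi⟩) j (Finset.mem_Ico.2 ⟨h2, hj⟩)
      · rw [hq0 j (by rw [Finset.mem_Ico]; omega), comp_zero, B.E_col_low 0 i j (by omega)]
    · rw [hp0 i (by rw [Finset.mem_Ico]; omega), zero_comp, B.E_low 0 i j (by omega)]
  have hqd : q d = 0 := hq0 d (by simp)
  have hpd : p d = 0 := hp0 d (by simp)
  have hqp' : ∑ i ∈ Finset.Icc (-d) d, q i ≫ p i = 𝟙 Q := by
    rw [← hqp]
    symm
    refine Finset.sum_subset (fun i hi => ?_) (fun i _ hi' => ?_)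
    · rw [Finset.mem_Ico] at hi
      exact Finset.mem_Icc.2 ⟨hi.1, hi.2.le⟩
    · rw [hq0 i hi', zero_comp]
  -- the shifted splitting
  let q' : ∀ i, T.obj Q ⟶ X i := fun i => T.map (q (i - 1)) ≫ (τ (i - 1) i (by omega)).hom
  let p' : ∀ i, X i ⟶ T.obj Q := fun i => (τ (i - 1) i (by omega)).inv ≫ T.map (p (i - 1))
  have hE : ∀ i j, (τ (i - 1) i (by omega)).inv ≫ T.map (B.E 0 (i - 1) (j - 1)) ≫
      (τ (j - 1) j (by omega)).hom = B.E 1 i j := by
    intro i j
    rw [Iso.inv_comp_eq, E, Functor.map_sum, Preadditive.sum_comp, E, Preadditive.comp_sum]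
    refine Finset.sum_bij' (fun k _ => k + 1) (fun k _ => k - 1) ?_ ?_ ?_ ?_ ?_
    · intro k hk
      rw [Finset.mem_Icc] at hk ⊢
      omega
    · intro k hk
      rw [Finset.mem_Icc] at hk ⊢
      omega
    · intro k _
      omega
    · intro k _
      omega
    · intro k _
      rw [Functor.map_comp, Category.assoc, hV k (k + 1) (j - 1) j rfl (by omega),
        ← Category.assoc, hU (i - 1) i k (k + 1) (by omega) rfl, Category.assoc]
  have hpq1 : ∀ i j, i ≤ d → j ≤ d → p' i ≫ q' j = B.E 1 i j := by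
    intro i j hi hj
    rw [← hE i j, ← hpq' (i - 1) (j - 1) (by omega) (by omega)]
    simp only [p', q', Category.assoc, Functor.map_comp]
  have hqp1 : ∑ i ∈ Finset.Icc (-d) d, q' i ≫ p' i = 𝟙 (T.obj Q) := by
    have h1 : ∀ i ∈ Finset.Icc (-d) d, q' i ≫ p' i = T.map (q (i - 1) ≫ p (i - 1)) := by
      intro i _
      simp only [p', q', Category.assoc, Iso.hom_inv_id_assoc, Functor.map_comp]
    rw [Finset.sum_congr rfl h1, ← T.map_sum, ← T.map_id, ← hqp]
    congr 1
    symm
    have h2 : ∑ i ∈ Finset.Icc (-d) d, q (i - 1) ≫ p (i - 1) =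
        ∑ i ∈ Finset.Icc (-d - 1) (d - 1), q i ≫ p i := by
      refine Finset.sum_bij' (fun k _ => k - 1) (fun k _ => k + 1) ?_ ?_ ?_ ?_ ?_
      · intro k hk
        rw [Finset.mem_Icc] at hk ⊢
        omega
      · intro k hk
        rw [Finset.mem_Icc] at hk ⊢
        omega
      · intro k _
        omega
      · intro k _
        omega
      · intro k _
        rfl
    rw [h2]
    refine Finset.sum_subset (fun i hi => ?_) (fun i _ hi' => ?_)
    · rw [Finset.mem_Ico] at hi
      exact Finset.mem_Icc.2 ⟨by omega, by omega⟩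
    · rw [hq0 i hi', zero_comp]
  -- orthogonality relations
  have hqU : ∑ i ∈ Finset.Icc (-d) d, q' i ≫ B.U i 0 = 0 := by
    have h1 : ∀ i ∈ Finset.Icc (-d) d, q' i ≫ B.U i 0 =
        ∑ j ∈ Finset.Icc (-d) d, q' j ≫ B.E 1 j i ≫ B.U i 0 := by
      intro i hi
      have h2 : q' i = ∑ j ∈ Finset.Icc (-d) d, q' j ≫ B.E 1 j i := by
        conv_lhs => rw [← Category.id_comp (q' i), ← hqp1, Preadditive.sum_comp]
        refine Finset.sum_congr rfl (fun j hj => ?_)
        rw [Finset.mem_Icc] at hi hj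
        rw [Category.assoc, hpq1 j i (by omega) (by omega)]
      conv_lhs => rw [h2, Preadditive.sum_comp]
      exact Finset.sum_congr rfl (fun j _ => Category.assoc _ _ _)
    rw [Finset.sum_congr rfl h1, Finset.sum_comm]
    refine Finset.sum_eq_zero (fun j _ => ?_)
    rw [← Preadditive.comp_sum, B.E_U j _ (fun l h h' => Finset.mem_Icc.2 ⟨h, h'⟩), comp_zero]
  have hVp : ∑ i ∈ Finset.Icc (-d) d, B.V 0 i ≫ p' i = 0 := by
    have h1 : ∀ i ∈ Finset.Icc (-d) d, B.V 0 i ≫ p' i =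
        ∑ j ∈ Finset.Icc (-d) d, (B.V 0 i ≫ B.E 1 i j) ≫ p' j := by
      intro i hi
      have h2 : p' i = ∑ j ∈ Finset.Icc (-d) d, B.E 1 i j ≫ p' j := by
        conv_lhs => rw [← Category.comp_id (p' i), ← hqp1, Preadditive.comp_sum]
        refine Finset.sum_congr rfl (fun j hj => ?_)
        rw [Finset.mem_Icc] at hi hj
        rw [← Category.assoc, hpq1 i j (by omega) (by omega)]
      conv_lhs => rw [h2, Preadditive.comp_sum]
      exact Finset.sum_congr rfl (fun j _ => (Category.assoc _ _ _).symm)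
    rw [Finset.sum_congr rfl h1, Finset.sum_comm]
    refine Finset.sum_eq_zero (fun j _ => ?_)
    rw [← Preadditive.sum_comp, B.V_E_low 1 0 j (by omega) _
      (fun l h h' => Finset.mem_Icc.2 ⟨by omega, by omega⟩), zero_comp]
  have hVU : ∑ i ∈ Finset.Icc (-d) d, B.V 0 i ≫ B.U i 0 = 𝟙 (Y 0) := by
    rw [← B.VU_self 0]
    simp
  have memd : d ∈ Finset.Icc (-d) d := Finset.mem_Icc.2 ⟨by omega, le_rfl⟩
  refine iso_of_family (X := X) (Finset.Icc (-d) d)
    (fun i => biprod.desc (q i) (dl X d i)) (fun i => biprod.lift (p i) (dl X i d))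
    (fun i => biprod.desc (q' i) (B.V 0 i)) (fun i => biprod.lift (p' i) (B.U i 0)) ?_ ?_ ?_
  · apply biprod.hom_ext'
    · rw [Preadditive.comp_sum, Category.comp_id]
      apply biprod.hom_ext
      · simp only [Preadditive.sum_comp, Category.assoc, biprod.inl_desc_assoc, biprod.lift_fst,
          biprod.inl_fst, hqp']
      · simp only [Preadditive.sum_comp, Category.assoc, biprod.inl_desc_assoc, biprod.lift_snd,
          biprod.inl_snd]
        rw [sum_comp_dl _ _ d memd, hqd]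
    · rw [Preadditive.comp_sum, Category.comp_id]
      apply biprod.hom_ext
      · simp only [Preadditive.sum_comp, Category.assoc, biprod.inr_desc_assoc, biprod.lift_fst,
          biprod.inr_fst]
        rw [sum_dl_comp _ _ d memd, hpd]
      · simp only [Preadditive.sum_comp, Category.assoc, biprod.inr_desc_assoc, biprod.lift_snd,
          biprod.inr_snd]
        rw [sum_dl_comp _ _ d memd, dl_self]
  · apply biprod.hom_ext'
    · rw [Preadditive.comp_sum, Category.comp_id]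
      apply biprod.hom_ext
      · simp only [Preadditive.sum_comp, Category.assoc, biprod.inl_desc_assoc, biprod.lift_fst,
          biprod.inl_fst, hqp1]
      · simp only [Preadditive.sum_comp, Category.assoc, biprod.inl_desc_assoc, biprod.lift_snd,
          biprod.inl_snd, hqU]
    · rw [Preadditive.comp_sum, Category.comp_id]
      apply biprod.hom_ext
      · simp only [Preadditive.sum_comp, Category.assoc, biprod.inr_desc_assoc, biprod.lift_fst,
          biprod.inr_fst, hVp]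
      · simp only [Preadditive.sum_comp, Category.assoc, biprod.inr_desc_assoc, biprod.lift_snd,
          biprod.inr_snd, hVU]
  · intro i hi j hj
    rw [Finset.mem_Icc] at hi hj
    rw [biprod.lift_desc, biprod.lift_desc, hpq1 i j hi.2 hj.2, add_comm (B.E 1 i j),
      ← B.E_zero_eq i j]
    by_cases hid : i = d
    · subst hid
      rw [hpd, zero_comp, zero_add, dl_self, Category.id_comp]
      by_cases hjd : j = i
      · subst hjd
        rw [dl_self, B.E_high_self 0 j (by omega)]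
      · rw [dl_ne X (Ne.symm hjd), B.E_high_ne 0 i j (by omega) (Ne.symm hjd)]
    · by_cases hjd : j = d
      · subst hjd
        rw [hqd, comp_zero, zero_add, dl_ne X hid, zero_comp,
          B.E_col_high_ne 0 i j (by omega) hid]
      · rw [dl_ne X hid, zero_comp, add_zero, hpq' i j (by omega) (by omega)]

end BandIso

end Pool.Agent.Lib.MP_5c0b30_ag
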