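import Pool.Agent.Lib.MP_5c0b30_ag.OrbitCat
import Pool.Agent.Lib.MP_5c0b30_ag.Trunc

/-!
# Band matrices attached to morphisms of the orbit category
-/

set_option autoImplicit false

open CategoryTheory CategoryTheory.Limits

namespace Pool.Agent.Lib.MP_5c0b30_ag

universe v u

variable {C : Type u} [Category.{v} C] [Preadditive C] [HasShift C ℤ]

/-- The morphism `X⟦i⟧ ⟶ Y⟦j⟧` attached to `f : X ⟶ Y⟦n⟧` when `n + i = j`. -/
noncomputable def bandh {X Y : C} (n i j : ℤ) (h : n + i = j) (f : X ⟶ Y⟦n⟧) : X⟦i⟧ ⟶ Y⟦j⟧ :=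
  f⟦i⟧' ≫ (shiftFunctorAdd' C n i j h).inv.app Y

omit [Preadditive C] in
lemma bandh_comp {X Y Z : C} (a b i k j : ℤ) (h₁ : a + i = k) (h₂ : b + k = j) (f : X ⟶ Y⟦a⟧)
    (g : Y ⟶ Z⟦b⟧) (c : ℤ) (hc : b + a = c) (h : c + i = j) :
    bandh a i k h₁ f ≫ bandh b k j h₂ g = bandh c i j h (ShiftedHom.comp f g hc) := by
  subst hc
  simp only [bandh, ShiftedHom.comp, Functor.map_comp, Category.assoc]
  rw [shiftFunctorAdd'_assoc_inv_app b a i (b + a) k j rfl h₁ (by omega),
    ← NatTrans.naturality_assoc]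
  rfl

omit [Preadditive C] in
lemma bandh_id (X : C) (i : ℤ) :
    bandh 0 i i (zero_add i) (ShiftedHom.mk₀ 0 rfl (𝟙 X)) = 𝟙 (X⟦i⟧) := by
  simp [bandh, ShiftedHom.mk₀, shiftFunctorAdd'_zero_add_inv_app, shiftFunctorZero',
    ← Functor.map_comp]

omit [Preadditive C] in
lemma bandh_shift {X Y : C} (n i i' j j' : ℤ) (h : n + i = j) (hi : i + 1 = i') (hj : j + 1 = j')
    (f : X ⟶ Y⟦n⟧) :
    (bandh n i j h f)⟦(1 : ℤ)⟧' ≫ (shiftFunctorAdd' C j 1 j' hj).inv.app Y =
      (shiftFunctorAdd' C i 1 i' hi).inv.app X ≫ bandh n i' j' (by omega) f := by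
  simp only [bandh, Functor.map_comp, Category.assoc]
  rw [shiftFunctorAdd'_assoc_inv_app n i 1 j i' j' h hi (by omega), ← NatTrans.naturality_assoc]
  rfl

variable [∀ n : ℤ, (shiftFunctor C n).Additive]

lemma bandh_add {X Y : C} (n i j : ℤ) (h : n + i = j) (f g : X ⟶ Y⟦n⟧) :
    bandh n i j h (f + g) = bandh n i j h f + bandh n i j h g := by
  simp [bandh, Functor.map_add]

lemma bandh_zero {X Y : C} (n i j : ℤ) (h : n + i = j) :
    bandh n i j h (0 : X ⟶ Y⟦n⟧) = 0 := by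
  simp [bandh]

/-- The `(i, j)` entry of the band matrix of a morphism `φ` of the orbit category. -/
noncomputable def band {X Y : C} (i j : ℤ) (φ : OrbitHom X Y) : X⟦i⟧ ⟶ Y⟦j⟧ :=
  bandh (j - i) i j (by omega) (φ (j - i))

lemma band_add {X Y : C} (i j : ℤ) (φ ψ : OrbitHom X Y) :
    band i j (φ + ψ) = band i j φ + band i j ψ := by
  simp only [band, DirectSum.add_apply, bandh_add]

lemma band_zero {X Y : C} (i j : ℤ) : band i j (0 : OrbitHom X Y) = 0 := by
  simp only [band, DirectSum.zero_apply, bandh_zero]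

omit [∀ n : ℤ, (shiftFunctor C n).Additive] in
lemma band_hof {X Y : C} (i j n : ℤ) (h : n + i = j) (f : X ⟶ Y⟦n⟧) :
    band i j (hof n f) = bandh n i j h f := by
  obtain rfl : n = j - i := by omega
  simp only [band, hof, DirectSum.of_eq_same]

lemma band_hof_ne {X Y : C} (i j n : ℤ) (h : n + i ≠ j) (f : X ⟶ Y⟦n⟧) :
    band i j (hof n f) = 0 := by
  rw [band, hof, DirectSum.of_eq_of_ne _ _ _ (by omega), bandh_zero]

/-- Additive extension of `band`. -/
noncomputable def bandHom (X Y : C) (i j : ℤ) : OrbitHom X Y →+ (X⟦i⟧ ⟶ Y⟦j⟧) where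
  toFun := band i j
  map_zero' := band_zero i j
  map_add' := band_add i j

lemma band_orbitComp_hof {X Y Z : C} (i j n : ℤ) (f : X ⟶ Y⟦n⟧) (ψ : OrbitHom Y Z) :
    band i j (orbitComp (hof n f) ψ) = bandh n i (i + n) (add_comm _ _) f ≫ band (i + n) j ψ := by
  induction ψ using DirectSum.induction_on with
  | zero => simp [band_zero]
  | add ψ₁ ψ₂ h₁ h₂ => rw [orbitComp_add, band_add, h₁, h₂, band_add, Preadditive.comp_add]
  | of m g =>
    change band i j (orbitComp (hof n f) (hof m g)) = _ ≫ band (i + n) j (hof m g)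
    rw [orbitComp_hof]
    by_cases h : m + n + i = j
    · rw [band_hof i j (m + n) h, band_hof (i + n) j m (by omega),
        bandh_comp n m i (i + n) j (add_comm _ _) (by omega) f g (m + n) rfl h]
    · rw [band_hof_ne i j (m + n) h, band_hof_ne (i + n) j m (by omega), comp_zero]

omit [∀ n : ℤ, (shiftFunctor C n).Additive] in
lemma eq_sum_hof {X Y : C} (φ : OrbitHom X Y) (s : Finset ℤ) (hs : ∀ n, n ∉ s → φ n = 0) :
    φ = ∑ n ∈ s, hof n (φ n) := by
  classical
  refine DFinsupp.ext (fun m => ?_)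
  have h1 : (∑ n ∈ s, hof n (φ n) : OrbitHom X Y) m = ∑ n ∈ s, (hof n (φ n) : OrbitHom X Y) m :=
    DFinsupp.finsetSum_apply s (fun n => hof n (φ n)) m
  have h2 : ∑ n ∈ s, (hof n (φ n) : OrbitHom X Y) m = φ m := by
    by_cases hm : m ∈ s
    · rw [Finset.sum_eq_single m]
      · exact DirectSum.of_eq_same _ _
      · intro n _ hn
        exact DirectSum.of_eq_of_ne _ _ _ (Ne.symm hn)
      · intro h
        exact absurd hm h
    · rw [hs m hm]
      refine Finset.sum_eq_zero (fun n hn => ?_)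
      exact DirectSum.of_eq_of_ne _ _ _ (fun h => hm (h ▸ hn))
  exact (h1.trans h2).symm

lemma band_orbitComp {X Y Z : C} (i j : ℤ) (φ : OrbitHom X Y) (ψ : OrbitHom Y Z) (d : ℤ)
    (hφ : ∀ n : ℤ, (n < -d ∨ d < n) → φ n = 0) :
    ∑ k ∈ Finset.Icc (i - d) (i + d), band i k φ ≫ band k j ψ = band i j (orbitComp φ ψ) := by
  have h0 : φ = ∑ n ∈ Finset.Icc (-d) d, hof n (φ n) :=
    eq_sum_hof φ _ (fun n hn => hφ n (by rw [Finset.mem_Icc] at hn; omega))
  have h1 : orbitComp φ ψ = ∑ n ∈ Finset.Icc (-d) d, orbitComp (hof n (φ n)) ψ := by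
    conv_lhs => rw [h0]
    simp only [orbitComp, map_sum, AddMonoidHom.finsetSum_apply]
  rw [h1]
  change _ = bandHom X Z i j _
  rw [map_sum]
  refine Finset.sum_bij' (fun k _ => k - i) (fun k _ => k + i) ?_ ?_ ?_ ?_ ?_
  · intro k hk
    rw [Finset.mem_Icc] at hk ⊢
    omega
  · intro k hk
    rw [Finset.mem_Icc] at hk ⊢
    omega
  · intro k _
    omega
  · intro k _
    omega
  · intro k _
    change _ = band i j _
    rw [band_orbitComp_hof]
    have : ∀ k' : ℤ, (hk' : k' = i + (k - i)) → band i k φ ≫ band k j ψ =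
      bandh (k - i) i k' (by omega) (φ (k - i)) ≫ band k' j ψ := by
      intro k' hk'
      obtain rfl : k = k' := by omega
      rfl
    exact this _ rfl

lemma band_id_self (X : C) (i : ℤ) : band i i (orbitId X) = 𝟙 (X⟦i⟧) := by
  rw [orbitId, band_hof i i 0 (zero_add i), bandh_id]

lemma band_id_ne (X : C) (i j : ℤ) (h : i ≠ j) : band i j (orbitId X) = 0 := by
  rw [orbitId, band_hof_ne i j 0 (by omega)]

/-- The band isomorphism attached to a pair of mutually inverse morphisms of the orbit category. -/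
noncomputable def bandIsoOfOrbit {X Y : C} (u : OrbitHom X Y) (v : OrbitHom Y X)
    (huv : orbitComp u v = orbitId X) (hvu : orbitComp v u = orbitId Y) (d : ℤ) (hd : 0 ≤ d)
    (hu : ∀ n : ℤ, (n < -d ∨ d < n) → u n = 0) (hv : ∀ n : ℤ, (n < -d ∨ d < n) → v n = 0) :
    BandIso (fun i : ℤ => X⟦i⟧) (fun i : ℤ => Y⟦i⟧) d where
  U i j := band i j u
  V i j := band i j v
  d_nonneg := hd
  U_zero i j h := by rw [band, hu _ (by omega), bandh_zero]
  V_zero i j h := by rw [band, hv _ (by omega), bandh_zero]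
  UV_self i := by rw [band_orbitComp i i u v d hu, huv, band_id_self]
  UV_ne i j h := by rw [band_orbitComp i j u v d hu, huv, band_id_ne X i j h]
  VU_self i := by rw [band_orbitComp i i v u d hv, hvu, band_id_self]
  VU_ne i j h := by rw [band_orbitComp i j v u d hv, hvu, band_id_ne Y i j h]

omit [∀ n : ℤ, (shiftFunctor C n).Additive] in
lemma band_shift {X Y : C} (φ : OrbitHom X Y) (i i' j j' : ℤ) (hi : i + 1 = i')
    (hj : j + 1 = j') :
    (band i j φ)⟦(1 : ℤ)⟧' ≫ (shiftFunctorAdd' C j 1 j' hj).inv.app Y =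
      (shiftFunctorAdd' C i 1 i' hi).inv.app X ≫ band i' j' φ := by
  have : ∀ n : ℤ, (hn : n = j' - i') → (band i j φ)⟦(1 : ℤ)⟧' ≫
      (shiftFunctorAdd' C j 1 j' hj).inv.app Y =
      (shiftFunctorAdd' C i 1 i' hi).inv.app X ≫ bandh n i' j' (by omega) (φ n) := by
    intro n hn
    obtain rfl : n = j - i := by omega
    exact bandh_shift (j - i) i i' j j' (by omega) hi hj (φ (j - i))
  exact this _ rfl

/-- **Truncation theorem for the orbit category**: if `u`, `v` are mutually inverse morphisms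
`X ⟶ Y ⟶ X` of the orbit category, supported in degrees `|n| ≤ d`, then there is a direct summand
`Q` of `⨁_{-d ≤ i < d} X⟦i⟧` such that `Q ⊞ X⟦d⟧ ≅ Q⟦1⟧ ⊞ Y⟦0⟧`. -/
theorem orbit_truncation [HasFiniteBiproducts C] [HasBinaryBiproducts C] [IsIdempotentComplete C]
    {X Y : C} (u : OrbitHom X Y) (v : OrbitHom Y X)
    (huv : orbitComp u v = orbitId X) (hvu : orbitComp v u = orbitId Y) (d : ℤ) (hd : 0 ≤ d)
    (hu : ∀ n : ℤ, (n < -d ∨ d < n) → u n = 0) (hv : ∀ n : ℤ, (n < -d ∨ d < n) → v n = 0) :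
    ∃ (Q : C), Nonempty (Retract Q (⨁ fun i : {i : ℤ // i ∈ Finset.Ico (-d) d} => X⟦i.1⟧)) ∧
      Nonempty (Q ⊞ X⟦d⟧ ≅ Q⟦(1 : ℤ)⟧ ⊞ Y⟦(0 : ℤ)⟧) :=
  (bandIsoOfOrbit u v huv hvu d hd hu hv).exists_iso (shiftFunctor C (1 : ℤ))
    (fun i j h => ((shiftFunctorAdd' C i 1 j h).symm.app X))
    (fun i j h => ((shiftFunctorAdd' C i 1 j h).symm.app Y))
    (fun i i' j j' hi hj => band_shift u i i' j j' hi hj)
    (fun i i' j j' hi hj => band_shift v i i' j j' hi hj)

end Pool.Agent.Lib.MP_5c0b30_ag
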