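import Mathlib.CategoryTheory.Shift.ShiftedHom
import Mathlib.Algebra.DirectSum.Basic
import Mathlib.CategoryTheory.Preadditive.Basic

/-!
# The orbit category of an additive category with a `ℤ`-action

Let `C` be a preadditive category with an additive shift by `ℤ` (for instance the category of
Chow motives with rational coefficients, the shift `M⟦n⟧ = M(n)` being the Tate twist).
The orbit category `C/⟦1⟧` has the same objects, and
`Hom(X, Y) = ⨁ n : ℤ, Hom_C(X, Y⟦n⟧)`.
-/

set_option autoImplicit false

open CategoryTheory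

namespace Pool.Agent.Lib.MP_5c0b30_ag

universe v u

section Hom

variable {C : Type u} [Category.{v} C] [Preadditive C] [HasShift C ℤ]

/-- Morphisms `X ⟶ Y` of the orbit category: finite formal sums of morphisms `X ⟶ Y⟦n⟧`. -/
abbrev OrbitHom (X Y : C) : Type v := DirectSum ℤ (fun n : ℤ => (X ⟶ Y⟦n⟧))

/-- The homogeneous element of the orbit category attached to `f : X ⟶ Y⟦n⟧`. -/
noncomputable abbrev hof {X Y : C} (n : ℤ) (f : X ⟶ Y⟦n⟧) : OrbitHom X Y :=
  DirectSum.of (fun n : ℤ => (X ⟶ Y⟦n⟧)) n f

/-- The identity in the orbit category: the identity of `X`, in degree `0`. -/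
noncomputable def orbitId (X : C) : OrbitHom X X := hof 0 (ShiftedHom.mk₀ 0 rfl (𝟙 X))

variable [∀ n : ℤ, (shiftFunctor C n).Additive]

/-- Composition of shifted morphisms of fixed degrees, as a bilinear map. -/
noncomputable def shiftedCompHom (X Y Z : C) (a b : ℤ) :
    (X ⟶ Y⟦a⟧) →+ (Y ⟶ Z⟦b⟧) →+ (X ⟶ Z⟦b + a⟧) :=
  AddMonoidHom.mk' (fun f => AddMonoidHom.mk' (fun g => ShiftedHom.comp f g rfl)
    (fun g₁ g₂ => by simp)) (fun f₁ f₂ => by ext g; simp)

/-- Composition in the orbit category as a bilinear map: it is the biadditive extension of the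
composition `ShiftedHom.comp` of homogeneous elements. -/
noncomputable def orbitCompHom (X Y Z : C) :
    OrbitHom X Y →+ OrbitHom Y Z →+ OrbitHom X Z :=
  DirectSum.toAddMonoid fun a => AddMonoidHom.flip <|
    DirectSum.toAddMonoid fun b => AddMonoidHom.flip <|
      (AddMonoidHom.compHom (DirectSum.of (fun n : ℤ => (X ⟶ Z⟦n⟧)) (b + a))).comp
        (shiftedCompHom X Y Z a b)

/-- Composition in the orbit category. -/
noncomputable def orbitComp {X Y Z : C} (f : OrbitHom X Y) (g : OrbitHom Y Z) : OrbitHom X Z :=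
  orbitCompHom X Y Z f g

omit [∀ n : ℤ, (shiftFunctor C n).Additive] in
lemma hof_congr {X Y Z : C} {a b c c' : ℤ} (f : X ⟶ Y⟦a⟧) (g : Y ⟶ Z⟦b⟧) (h : b + a = c)
    (h' : b + a = c') : hof c (ShiftedHom.comp f g h) = hof c' (ShiftedHom.comp f g h') := by
  obtain rfl : c = c' := h.symm.trans h'
  rfl

@[simp]
lemma orbitComp_hof {X Y Z : C} {a b : ℤ} (f : X ⟶ Y⟦a⟧) (g : Y ⟶ Z⟦b⟧) :
    orbitComp (hof a f) (hof b g) = hof (b + a) (ShiftedHom.comp f g rfl) := by
  simp only [orbitComp, orbitCompHom, hof, DirectSum.toAddMonoid_of, AddMonoidHom.flip_apply]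
  rfl

lemma orbitComp_hof' {X Y Z : C} {a b c : ℤ} (f : X ⟶ Y⟦a⟧) (g : Y ⟶ Z⟦b⟧) (h : b + a = c) :
    orbitComp (hof a f) (hof b g) = hof c (ShiftedHom.comp f g h) := by
  subst h
  exact orbitComp_hof f g

lemma orbitComp_add {X Y Z : C} (f : OrbitHom X Y) (g₁ g₂ : OrbitHom Y Z) :
    orbitComp f (g₁ + g₂) = orbitComp f g₁ + orbitComp f g₂ := by
  simp [orbitComp]

lemma add_orbitComp {X Y Z : C} (f₁ f₂ : OrbitHom X Y) (g : OrbitHom Y Z) :
    orbitComp (f₁ + f₂) g = orbitComp f₁ g + orbitComp f₂ g := by
  simp [orbitComp]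

@[simp]
lemma zero_orbitComp {X Y Z : C} (g : OrbitHom Y Z) :
    orbitComp (0 : OrbitHom X Y) g = 0 := by
  simp [orbitComp]

@[simp]
lemma orbitComp_zero {X Y Z : C} (f : OrbitHom X Y) :
    orbitComp f (0 : OrbitHom Y Z) = 0 := by
  simp [orbitComp]

lemma orbitId_comp {X Y : C} (f : OrbitHom X Y) : orbitComp (orbitId X) f = f := by
  induction f using DirectSum.induction_on with
  | zero => simp
  | of a f =>
    change orbitComp (hof 0 _) (hof a f) = hof a f
    rw [orbitComp_hof' _ _ (add_zero a), ShiftedHom.mk₀_id_comp]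
  | add f g hf hg => rw [orbitComp_add, hf, hg]

lemma orbitComp_id {X Y : C} (f : OrbitHom X Y) : orbitComp f (orbitId Y) = f := by
  induction f using DirectSum.induction_on with
  | zero => simp
  | of a f =>
    change orbitComp (hof a f) (hof 0 _) = hof a f
    rw [orbitComp_hof' _ _ (zero_add a), ShiftedHom.comp_mk₀_id]
  | add f g hf hg => rw [add_orbitComp, hf, hg]

lemma orbitComp_assoc {X Y Z W : C} (f : OrbitHom X Y) (g : OrbitHom Y Z) (h : OrbitHom Z W) :
    orbitComp (orbitComp f g) h = orbitComp f (orbitComp g h) := by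
  induction f using DirectSum.induction_on with
  | zero => simp
  | add f₁ f₂ h₁ h₂ => simp only [add_orbitComp, h₁, h₂]
  | of a f =>
    induction g using DirectSum.induction_on with
    | zero => simp
    | add g₁ g₂ h₁ h₂ => simp only [add_orbitComp, orbitComp_add, h₁, h₂]
    | of b g =>
      induction h using DirectSum.induction_on with
      | zero => simp
      | add k₁ k₂ h₁ h₂ => simp only [orbitComp_add, h₁, h₂]
      | of c h =>
        change orbitComp (orbitComp (hof a f) (hof b g)) (hof c h) =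
          orbitComp (hof a f) (orbitComp (hof b g) (hof c h))
        rw [orbitComp_hof f g, orbitComp_hof g h, orbitComp_hof' _ _ (add_assoc c b a).symm,
          orbitComp_hof' _ _ rfl]
        exact congrArg _ (ShiftedHom.comp_assoc f g h rfl rfl rfl)

end Hom

/-- The orbit category `C/⟦1⟧` of a category with shift by `ℤ`: same objects as `C`. -/
def Orbit (C : Type u) [Category.{v} C] [Preadditive C] [HasShift C ℤ]
    [∀ n : ℤ, (shiftFunctor C n).Additive] : Type u := C

section Cat

variable {C : Type u} [Category.{v} C] [Preadditive C] [HasShift C ℤ]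
  [∀ n : ℤ, (shiftFunctor C n).Additive]

/-- An object of `C` seen in the orbit category. -/
def toOrbit (X : C) : Orbit C := X

noncomputable instance : Category.{v} (Orbit C) where
  Hom X Y := OrbitHom (C := C) X Y
  id X := orbitId (C := C) X
  comp f g := orbitComp f g
  id_comp f := orbitId_comp f
  comp_id f := orbitComp_id f
  assoc f g h := orbitComp_assoc f g h

noncomputable instance : Preadditive (Orbit C) where
  homGroup X Y := inferInstanceAs (AddCommGroup (OrbitHom (C := C) X Y))
  add_comp _ _ _ f f' g := add_orbitComp f f' g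
  comp_add _ _ _ f g g' := orbitComp_add f g g'

end Cat

end Pool.Agent.Lib.MP_5c0b30_ag
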