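import Pool.Agent.Lib.MP_5c0b30_ag.IsoCls

/-!
# Isomorphisms in the orbit category
-/

set_option autoImplicit false

open CategoryTheory CategoryTheory.Limits

namespace Pool.Agent.Lib.MP_5c0b30_ag

universe v u

variable {C : Type u} [Category.{v} C] [Preadditive C] [HasShift C ℤ]

/-- The degree `0` element of the orbit category attached to a morphism of `C`. -/
noncomputable def deg0 {X Y : C} (f : X ⟶ Y) : OrbitHom X Y := hof 0 (ShiftedHom.mk₀ 0 rfl f)

lemma deg0_id (X : C) : deg0 (𝟙 X) = orbitId X := rfl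

lemma deg0_add {X Y : C} (f g : X ⟶ Y) : deg0 (f + g) = deg0 f + deg0 g := by
  rw [deg0, ShiftedHom.mk₀_add, hof, map_add]
  rfl

lemma deg0_zero (X Y : C) : deg0 (0 : X ⟶ Y) = 0 := by
  rw [deg0, ShiftedHom.mk₀_zero, hof, map_zero]

variable [∀ n : ℤ, (shiftFunctor C n).Additive]

lemma deg0_comp {X Y Z : C} (f : X ⟶ Y) (g : Y ⟶ Z) :
    deg0 (f ≫ g) = orbitComp (deg0 f) (deg0 g) := by
  rw [deg0, deg0, deg0, orbitComp_hof' _ _ (add_zero 0), ShiftedHom.mk₀_comp_mk₀]

/-- An isomorphism between two objects in the orbit category: a pair of mutually inverse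
morphisms of the orbit category. -/
structure OrbitIso (X Y : C) where
  hom : OrbitHom X Y
  inv : OrbitHom Y X
  hom_inv_id : orbitComp hom inv = orbitId X
  inv_hom_id : orbitComp inv hom = orbitId Y

namespace OrbitIso

/-- `OrbitIso` is the same as an isomorphism in the category `Orbit C`. -/
noncomputable def toIso {X Y : C} (e : OrbitIso X Y) : toOrbit X ≅ toOrbit Y where
  hom := e.hom
  inv := e.inv
  hom_inv_id := e.hom_inv_id
  inv_hom_id := e.inv_hom_id

/-- `OrbitIso` is the same as an isomorphism in the category `Orbit C`. -/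
noncomputable def ofIso {X Y : C} (e : toOrbit X ≅ toOrbit Y) : OrbitIso X Y where
  hom := e.hom
  inv := e.inv
  hom_inv_id := e.hom_inv_id
  inv_hom_id := e.inv_hom_id

/-- Symmetry. -/
noncomputable def symm {X Y : C} (e : OrbitIso X Y) : OrbitIso Y X where
  hom := e.inv
  inv := e.hom
  hom_inv_id := e.inv_hom_id
  inv_hom_id := e.hom_inv_id

/-- Transitivity. -/
noncomputable def trans {X Y Z : C} (e : OrbitIso X Y) (f : OrbitIso Y Z) : OrbitIso X Z where
  hom := orbitComp e.hom f.hom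
  inv := orbitComp f.inv e.inv
  hom_inv_id := by
    rw [orbitComp_assoc, ← orbitComp_assoc f.hom, f.hom_inv_id, orbitId_comp, e.hom_inv_id]
  inv_hom_id := by
    rw [orbitComp_assoc, ← orbitComp_assoc e.inv, e.inv_hom_id, orbitId_comp, f.inv_hom_id]

/-- Isomorphic objects of `C` are isomorphic in the orbit category. -/
noncomputable def ofCIso {X Y : C} (e : X ≅ Y) : OrbitIso X Y where
  hom := deg0 e.hom
  inv := deg0 e.inv
  hom_inv_id := by rw [← deg0_comp, e.hom_inv_id, deg0_id]
  inv_hom_id := by rw [← deg0_comp, e.inv_hom_id, deg0_id]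

/-- `X⟦n⟧` and `X` are isomorphic in the orbit category. -/
noncomputable def shiftIso (X : C) (n : ℤ) : OrbitIso (X⟦n⟧) X where
  hom := hof (X := X⟦n⟧) (Y := X) n (𝟙 (X⟦n⟧))
  inv := hof (X := X) (Y := X⟦n⟧) (-n) ((shiftFunctorCompIsoId C n (-n) (by omega)).inv.app X)
  hom_inv_id := by
    rw [orbitComp_hof' _ _ (neg_add_cancel n), orbitId]
    congr 1
    simp only [ShiftedHom.comp, ShiftedHom.mk₀, Category.id_comp]
    rw [shift_shiftFunctorCompIsoId_inv_app]
    simp [shiftFunctorCompIsoId, shiftFunctorZero']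
  inv_hom_id := by
    rw [orbitComp_hof' _ _ (add_neg_cancel n), orbitId]
    congr 1
    simp [ShiftedHom.comp, ShiftedHom.mk₀, shiftFunctorCompIsoId, shiftFunctorZero']

section Biprod

variable [HasBinaryBiproducts C]

/-- Diagonal morphisms between biproducts, in the orbit category. -/
noncomputable def diag {A A' B B' : C} (a : OrbitHom A A') (b : OrbitHom B B') :
    OrbitHom (A ⊞ B) (A' ⊞ B') :=
  orbitComp (orbitComp (deg0 biprod.fst) a) (deg0 biprod.inl) +
    orbitComp (orbitComp (deg0 biprod.snd) b) (deg0 biprod.inr)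

lemma diag_comp {A A' A'' B B' B'' : C} (a : OrbitHom A A') (a' : OrbitHom A' A'')
    (b : OrbitHom B B') (b' : OrbitHom B' B'') :
    orbitComp (diag a b) (diag a' b') = diag (orbitComp a a') (orbitComp b b') := by
  have h1 : orbitComp (deg0 (biprod.inl : A' ⟶ A' ⊞ B')) (deg0 biprod.fst) = orbitId A' := by
    rw [← deg0_comp, biprod.inl_fst, deg0_id]
  have h2 : orbitComp (deg0 (biprod.inl : A' ⟶ A' ⊞ B')) (deg0 biprod.snd) = 0 := by
    rw [← deg0_comp, biprod.inl_snd, deg0_zero]
  have h3 : orbitComp (deg0 (biprod.inr : B' ⟶ A' ⊞ B')) (deg0 biprod.fst) = 0 := by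
    rw [← deg0_comp, biprod.inr_fst, deg0_zero]
  have h4 : orbitComp (deg0 (biprod.inr : B' ⟶ A' ⊞ B')) (deg0 biprod.snd) = orbitId B' := by
    rw [← deg0_comp, biprod.inr_snd, deg0_id]
  have k1 : ∀ {W : C} (w : OrbitHom A' W), orbitComp (deg0 (biprod.inl : A' ⟶ A' ⊞ B'))
      (orbitComp (deg0 biprod.fst) w) = w := by
    intro W w
    rw [← orbitComp_assoc, h1, orbitId_comp]
  have k2 : ∀ {W : C} (w : OrbitHom B' W), orbitComp (deg0 (biprod.inl : A' ⟶ A' ⊞ B'))
      (orbitComp (deg0 biprod.snd) w) = 0 := by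
    intro W w
    rw [← orbitComp_assoc, h2, zero_orbitComp]
  have k3 : ∀ {W : C} (w : OrbitHom A' W), orbitComp (deg0 (biprod.inr : B' ⟶ A' ⊞ B'))
      (orbitComp (deg0 biprod.fst) w) = 0 := by
    intro W w
    rw [← orbitComp_assoc, h3, zero_orbitComp]
  have k4 : ∀ {W : C} (w : OrbitHom B' W), orbitComp (deg0 (biprod.inr : B' ⟶ A' ⊞ B'))
      (orbitComp (deg0 biprod.snd) w) = w := by
    intro W w
    rw [← orbitComp_assoc, h4, orbitId_comp]
  simp only [diag, add_orbitComp, orbitComp_add, orbitComp_assoc, k1, k2, k3, k4, orbitComp_zero,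
    add_zero, zero_add]

lemma diag_id (A B : C) : diag (orbitId A) (orbitId B) = orbitId (A ⊞ B) := by
  simp only [diag, orbitComp_id]
  rw [← deg0_comp, ← deg0_comp, ← deg0_add, biprod.total, deg0_id]

/-- Isomorphisms in the orbit category may be added. -/
noncomputable def biprodIso {X X' Y Y' : C} (e : OrbitIso X X') (f : OrbitIso Y Y') :
    OrbitIso (X ⊞ Y) (X' ⊞ Y') where
  hom := diag e.hom f.hom
  inv := diag e.inv f.inv
  hom_inv_id := by rw [diag_comp, e.hom_inv_id, f.hom_inv_id, diag_id]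
  inv_hom_id := by rw [diag_comp, e.inv_hom_id, f.inv_hom_id, diag_id]

end Biprod

end OrbitIso

end Pool.Agent.Lib.MP_5c0b30_ag
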