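import Pool.Agent.Lib.MP_5c0b30_ag.Realization
import Pool.Agent.Lib.MP_5c0b30_ag.DefsConv
import Pool.Agent.Lib.MP_5c0b30_ag.Radical

/-!
# Orbit isomorphisms compatible with Lefschetz operators, on cohomology
-/

set_option autoImplicit false

open CategoryTheory CategoryTheory.Limits

namespace Pool.Agent.Lib.MP_5c0b30_ag

universe v u v' u'

namespace Realization

variable {C : Type u} [Category.{v} C] [Preadditive C] [HasShift C ℤ]
  {V : Type u'} [Category.{v'} V] [Preadditive V] (r : Realization C V)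

lemma act_zero {X Y : C} {n : ℤ} (i j : ℤ) (h : i + 2 * n = j) :
    r.act (0 : X ⟶ Y⟦n⟧) i j h = 0 := by
  have := r.act_add (0 : X ⟶ Y⟦n⟧) 0 i j h
  rw [add_zero] at this
  exact left_eq_add.1 this

lemma act_sum {X Y : C} {n : ℤ} {α : Type*} (s : Finset α) (f : α → (X ⟶ Y⟦n⟧)) (i j : ℤ)
    (h : i + 2 * n = j) : r.act (∑ a ∈ s, f a) i j h = ∑ a ∈ s, r.act (f a) i j h := by
  classical
  induction s using Finset.induction_on with
  | empty => simp [act_zero]
  | insert a s ha ih => rw [Finset.sum_insert ha, Finset.sum_insert ha, r.act_add, ih]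

section Pow

variable {M M' : C} {N : M ⟶ M⟦(1 : ℤ)⟧} {N' : M' ⟶ M'⟦(1 : ℤ)⟧}

lemma pow_zero' (N : M ⟶ M⟦(1 : ℤ)⟧) (i : ℤ) :
    r.act (shiftPow N 0) i i (by simp) = 𝟙 (r.H M i) := r.act_id M i

lemma pow_succ' (N : M ⟶ M⟦(1 : ℤ)⟧) (k : ℕ) (i j l : ℤ) (h : i + 2 * (k : ℤ) = j)
    (h' : j + 2 * 1 = l) :
    r.act (shiftPow N (k + 1)) i l (by push_cast; omega) =
      r.act (shiftPow N k) i j h ≫ r.act N j l h' :=
  r.act_comp (shiftPow N k) N _ i j l h h'

lemma pow_add' (N : M ⟶ M⟦(1 : ℤ)⟧) (a b : ℕ) (i j l : ℤ) (h : i + 2 * (a : ℤ) = j)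
    (h' : j + 2 * (b : ℤ) = l) :
    r.act (shiftPow N (a + b)) i l (by push_cast; omega) =
      r.act (shiftPow N a) i j h ≫ r.act (shiftPow N b) j l h' := by
  induction b generalizing l with
  | zero =>
    obtain rfl : l = j := by simpa using h'.symm
    rw [r.pow_zero' N l, Category.comp_id]
    rfl
  | succ b ih =>
    have h1 : j + 2 * (b : ℤ) = l - 2 := by push_cast at h'; omega
    rw [r.pow_succ' N b j (l - 2) l h1 (by omega), ← Category.assoc, ← ih (l - 2) h1]
    exact r.pow_succ' N (a + b) i (l - 2) l (by push_cast; omega) (by omega)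

lemma compat' {u : ∀ n : ℤ, M ⟶ M'⟦n⟧} (hu : r.Compatible N N' u) (n i j l m : ℤ)
    (h1 : i + 2 * 1 = j) (h2 : j + 2 * n = l) (h3 : i + 2 * n = m) (h4 : m + 2 * 1 = l) :
    r.act N i j h1 ≫ r.act (u n) j l h2 = r.act (u n) i m h3 ≫ r.act N' m l h4 := by
  obtain rfl : j = i + 2 := by omega
  obtain rfl : l = i + 2 + 2 * n := by omega
  obtain rfl : m = i + 2 * n := by omega
  exact hu n i

lemma compat_pow {u : ∀ n : ℤ, M ⟶ M'⟦n⟧} (hu : r.Compatible N N' u) (k : ℕ) (n i j l m : ℤ)
    (h1 : i + 2 * (k : ℤ) = j) (h2 : j + 2 * n = l) (h3 : i + 2 * n = m)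
    (h4 : m + 2 * (k : ℤ) = l) :
    r.act (shiftPow N k) i j h1 ≫ r.act (u n) j l h2 =
      r.act (u n) i m h3 ≫ r.act (shiftPow N' k) m l h4 := by
  induction k generalizing j l with
  | zero =>
    obtain rfl : j = i := by simpa using h1.symm
    obtain rfl : l = m := by simpa using h4.symm
    rw [r.pow_zero' N j, r.pow_zero' N' l, Category.comp_id, Category.id_comp]
  | succ k ih =>
    push_cast at h1 h4
    rw [r.pow_succ' N k i (j - 2) j (by omega) (by omega),
      r.pow_succ' N' k m (l - 2) l (by omega) (by omega), Category.assoc,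
      r.compat' hu n (j - 2) j l (l - 2) (by omega) (by omega) (by omega) (by omega),
      ← Category.assoc, ih (j - 2) (l - 2) (by omega) (by omega) (by omega), Category.assoc]

/-- Components of negative degree vanish on the cohomology. -/
theorem act_neg_eq_zero {d : ℕ} (hM : r.HardLefschetz d M N) (hM' : r.HardLefschetz d M' N')
    {u : ∀ n : ℤ, M ⟶ M'⟦n⟧} (hu : r.Compatible N N' u) (n : ℤ) (hn : n < 0) (i j : ℤ)
    (hij : i + 2 * n = j) : r.act (u n) i j hij = 0 := by
  -- it suffices to treat nonnegative `i`, by strong induction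
  by_cases hi0 : i < 0
  · exact (hM.zero i (Or.inl hi0)).eq_zero_of_src _
  obtain ⟨i', rfl⟩ : ∃ i' : ℕ, i = i' := ⟨i.toNat, by omega⟩
  clear hi0
  induction i' using Nat.strong_induction_on generalizing j with
  | _ i ih =>
    by_cases hi2 : 2 * (d : ℤ) < i
    · exact (hM.zero i (Or.inr hi2)).eq_zero_of_src _
    by_cases hid : d < i
    · obtain ⟨k, rfl⟩ : ∃ k, i = d + k := ⟨i - d, by omega⟩
      have hk := hM.hard k (by omega)
      have h1 := r.compat_pow hu k n ((d : ℤ) - k) ((d : ℤ) + k) j (j - 2 * k) (by omega)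
        (by push_cast at hij; omega) (by push_cast at hij; omega) (by omega)
      have h2 : r.act (u n) ((d : ℤ) - k) (j - 2 * k) (by push_cast at hij; omega) = 0 := by
        have h3 : ∀ (x : ℤ) (hx : x + 2 * n = j - 2 * k), x = ((d - k : ℕ) : ℤ) →
            r.act (u n) x (j - 2 * k) hx = 0 := by
          intro x hx hx'
          subst hx'
          exact ih (d - k) (by omega) (j - 2 * k) hx
        exact h3 _ _ (by omega)
      rw [h2, zero_comp] at h1
      have h5 : r.act (u n) ((d : ℤ) + k) j (by push_cast at hij; omega) = 0 := by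
        rw [← cancel_epi (r.act (shiftPow N k) ((d : ℤ) - k) ((d : ℤ) + k) (by omega)), h1,
          comp_zero]
      have h6 : ∀ (x : ℤ) (hx : x + 2 * n = j), x = (d : ℤ) + k → r.act (u n) x j hx = 0 := by
        intro x hx hx'
        subst hx'
        exact h5
      exact h6 _ _ (by push_cast; rfl)
    · -- low degrees
      have hlow : ∀ (A : V) (p : A ⟶ r.H M i),
          p ≫ r.act (shiftPow N (d - i + 1)) i (2 * (d : ℤ) - i + 2) (by omega) = 0 →
          p ≫ r.act (u n) i j hij = 0 := by
        intro A p hp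
        -- `N' ^ (d - i + 1)` is a monomorphism on `H^j(M')`
        by_cases hj0 : j < 0
        · exact (hM'.zero j (Or.inl hj0)).eq_zero_of_tgt _
        obtain ⟨j', rfl⟩ : ∃ j' : ℕ, j = j' := ⟨j.toNat, by omega⟩
        have h1 : (p ≫ r.act (u n) i j' hij) ≫
            r.act (shiftPow N' (d - i + 1)) j' (j' + 2 * (d - i + 1 : ℕ)) rfl = 0 := by
          have := r.compat_pow hu (d - i + 1) n i (2 * (d : ℤ) - i + 2)
            (j' + 2 * (d - i + 1 : ℕ)) j' (by omega) (by omega) hij rfl
          rw [Category.assoc, ← this, ← Category.assoc, hp, zero_comp]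
        obtain ⟨b, hb⟩ : ∃ b, d - j' = (d - i + 1) + b := ⟨d - j' - (d - i + 1), by omega⟩
        have hk := hM'.hard (d - j') (by omega)
        have h2 := r.pow_add' N' (d - i + 1) b j' (j' + 2 * (d - i + 1 : ℕ)) (2 * (d : ℤ) - j')
          rfl (by omega)
        have h3 : (p ≫ r.act (u n) i j' hij) ≫
            r.act (shiftPow N' ((d - i + 1) + b)) j' (2 * (d : ℤ) - j') (by omega) = 0 := by
          rw [h2, ← Category.assoc, h1, zero_comp]
        have key : ∀ (k : ℕ) (x y : ℤ) (hxy : x + 2 * (k : ℤ) = y), k = d - j' → x = j' →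
            IsIso (r.act (shiftPow N' k) x y hxy) := by
          intro k x y hxy hk' hx
          subst hk'
          obtain rfl : x = (d : ℤ) - (d - j' : ℕ) := by omega
          obtain rfl : y = (d : ℤ) + (d - j' : ℕ) := by omega
          exact hk
        have h4 := key ((d - i + 1) + b) j' (2 * (d : ℤ) - j') (by omega) hb.symm rfl
        exact (cancel_mono (r.act (shiftPow N' ((d - i + 1) + b)) j' (2 * (d : ℤ) - j')
          (by omega))).1 (h3.trans zero_comp.symm)
      by_cases hi : i < 2
      · have h1 := hlow _ (𝟙 _) (by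
          rw [Category.id_comp]
          exact (hM.zero _ (Or.inr (by omega))).eq_zero_of_tgt _)
        rwa [Category.id_comp] at h1
      · obtain ⟨i', rfl⟩ : ∃ i', i = i' + 2 := ⟨i - 2, by omega⟩
        have key : ∀ (k : ℕ) (x y : ℤ) (hxy : x + 2 * (k : ℤ) = y), k = d - i' → x = i' →
            IsIso (r.act (shiftPow N k) x y hxy) := by
          intro k x y hxy hk' hx
          subst hk'
          obtain rfl : x = (d : ℤ) - (d - i' : ℕ) := by omega
          obtain rfl : y = (d : ℤ) + (d - i' : ℕ) := by omega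
          exact hM.hard (d - i') (by omega)
        have hg := key (1 + (d - (i' + 2) + 1)) i' (2 * (d : ℤ) - i') (by push_cast; omega)
          (by omega) rfl
        let g := r.act (shiftPow N (1 + (d - (i' + 2) + 1))) i' (2 * (d : ℤ) - i')
          (by push_cast; omega)
        let a := r.act (shiftPow N (d - (i' + 2) + 1)) ((i' + 2 : ℕ) : ℤ) (2 * (d : ℤ) - i')
          (by push_cast; omega)
        let N₁ := r.act N i' ((i' + 2 : ℕ) : ℤ) (by push_cast; omega)
        have hgN : g = N₁ ≫ a := by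
          have h1 := r.pow_add' N 1 (d - (i' + 2) + 1) i' ((i' + 2 : ℕ) : ℤ) (2 * (d : ℤ) - i')
            (by push_cast; omega) (by push_cast; omega)
          have h2 : r.act (shiftPow N 1) i' ((i' + 2 : ℕ) : ℤ) (by push_cast; omega) = N₁ := by
            have := r.pow_succ' N 0 i' i' ((i' + 2 : ℕ) : ℤ) (by simp) (by push_cast; omega)
            rw [r.pow_zero' N, Category.id_comp] at this
            exact this
          rw [h2] at h1
          exact h1
        let b : r.H M ((i' + 2 : ℕ) : ℤ) ⟶ r.H M i' := a ≫ inv g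
        let p : r.H M ((i' + 2 : ℕ) : ℤ) ⟶ r.H M ((i' + 2 : ℕ) : ℤ) := 𝟙 _ - b ≫ N₁
        have hp : p ≫ a = 0 := by
          simp only [p, Preadditive.sub_comp, Category.id_comp, Category.assoc, ← hgN, b,
            IsIso.inv_hom_id, Category.comp_id, sub_self]
        have hp' : p ≫ r.act (shiftPow N (d - (i' + 2) + 1)) ((i' + 2 : ℕ) : ℤ)
            (2 * (d : ℤ) - ((i' + 2 : ℕ) : ℤ) + 2) (by omega) = 0 := by
          have : ∀ (y : ℤ) (hy : ((i' + 2 : ℕ) : ℤ) + 2 * ((d - (i' + 2) + 1 : ℕ) : ℤ) = y),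
              y = 2 * (d : ℤ) - i' →
              p ≫ r.act (shiftPow N (d - (i' + 2) + 1)) ((i' + 2 : ℕ) : ℤ) y hy = 0 := by
            intro y hy hy'
            subst hy'
            exact hp
          exact this _ _ (by push_cast; omega)
        have hsum : 𝟙 (r.H M ((i' + 2 : ℕ) : ℤ)) = p + b ≫ N₁ := by simp [p]
        have h5 : N₁ ≫ r.act (u n) ((i' + 2 : ℕ) : ℤ) j hij = 0 := by
          have h6 := r.compat' hu n i' ((i' + 2 : ℕ) : ℤ) j (j - 2) (by push_cast; omega) hij
            (by push_cast at hij; omega) (by omega)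
          rw [ih i' (by omega) (j - 2) (by push_cast at hij; omega), zero_comp] at h6
          exact h6
        rw [← Category.id_comp (r.act (u n) ((i' + 2 : ℕ) : ℤ) j hij), hsum,
          Preadditive.add_comp, hlow _ p hp', Category.assoc, h5, comp_zero, add_zero]

end Pow

end Realization

end Pool.Agent.Lib.MP_5c0b30_ag
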