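import Pool.Agent.Lib.MP_5c0b30_ag.RealizationProof

/-!
# Total matrices of families acting on the cohomology
-/

set_option autoImplicit false

open CategoryTheory CategoryTheory.Limits

namespace Pool.Agent.Lib.MP_5c0b30_ag

universe v u v' u'

namespace Realization

variable {C : Type u} [Category.{v} C] [Preadditive C] [HasShift C ℤ]
  {V : Type u'} [Category.{v'} V] [Preadditive V] (r : Realization C V)

/-- The `(i, j)` entry of the action of a family on the cohomology. -/
noncomputable def tot {X Y : C} (u : ∀ n : ℤ, X ⟶ Y⟦n⟧) (i j : ℤ) : r.H X i ⟶ r.H Y j :=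
  if h : i + 2 * ((j - i) / 2) = j then r.act (u ((j - i) / 2)) i j h else 0

lemma tot_eq {X Y : C} (u : ∀ n : ℤ, X ⟶ Y⟦n⟧) (i j n : ℤ) (h : i + 2 * n = j) :
    r.tot u i j = r.act (u n) i j h := by
  obtain rfl : n = (j - i) / 2 := by omega
  rw [tot, dif_pos h]

lemma tot_odd {X Y : C} (u : ∀ n : ℤ, X ⟶ Y⟦n⟧) (i j : ℤ) (h : ∀ n, i + 2 * n ≠ j) :
    r.tot u i j = 0 := by
  rw [tot, dif_neg (h _)]

lemma tot_comp {X Y Z : C} (u : ∀ n : ℤ, X ⟶ Y⟦n⟧) (hu : {n : ℤ | u n ≠ 0}.Finite)
    (v : ∀ n : ℤ, Y ⟶ Z⟦n⟧) (S : Finset ℤ) (hS : ∀ j, j ∉ S → IsZero (r.H Y j)) (i k : ℤ) :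
    ∑ j ∈ S, r.tot u i j ≫ r.tot v j k = r.tot (famComp u v) i k := by
  classical
  by_cases hik : ∃ c, i + 2 * c = k
  · obtain ⟨c, hc⟩ := hik
    rw [r.tot_eq _ i k c hc]
    -- a large set of indices
    let s : Finset ℤ := hu.toFinset ∪ S.image (fun j => (j - i) / 2)
    have h1 : famComp u v c =
        ∑ a ∈ s, ShiftedHom.comp (u a) (v (c - a)) (sub_add_cancel c a) := by
      refine finsum_eq_sum_of_support_subset _ (fun n hn => ?_)
      rw [Finset.mem_coe, Finset.mem_union]
      left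
      rw [Set.Finite.mem_toFinset]
      intro h
      apply hn
      simp only [h, ShiftedHom.zero_comp]
    have h2 : r.act (famComp u v c) i k hc =
        ∑ a ∈ s, r.act (ShiftedHom.comp (u a) (v (c - a)) (sub_add_cancel c a)) i k hc := by
      rw [← r.act_sum]
      congr 1
    rw [h2]
    have h3 : ∀ a ∈ s, r.act (ShiftedHom.comp (u a) (v (c - a)) (sub_add_cancel c a)) i k hc =
        r.tot u i (i + 2 * a) ≫ r.tot v (i + 2 * a) k := by
      intro a _
      rw [r.tot_eq u i (i + 2 * a) a rfl, r.tot_eq v (i + 2 * a) k (c - a) (by omega)]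
      exact r.act_comp (u a) (v (c - a)) _ i (i + 2 * a) k rfl (by omega)
    rw [Finset.sum_congr rfl h3]
    -- both sums are equal to the sum over the common indices
    have h4 : ∑ a ∈ s, r.tot u i (i + 2 * a) ≫ r.tot v (i + 2 * a) k =
        ∑ a ∈ s.filter (fun a => i + 2 * a ∈ S), r.tot u i (i + 2 * a) ≫ r.tot v (i + 2 * a) k := by
      symm
      refine Finset.sum_subset (Finset.filter_subset _ _) (fun a ha ha' => ?_)
      have : i + 2 * a ∉ S := fun h => ha' (Finset.mem_filter.2 ⟨ha, h⟩)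
      rw [(hS _ this).eq_zero_of_src (r.tot v (i + 2 * a) k), comp_zero]
    have h5 : ∑ j ∈ S, r.tot u i j ≫ r.tot v j k =
        ∑ j ∈ S.filter (fun j => i + 2 * ((j - i) / 2) = j), r.tot u i j ≫ r.tot v j k := by
      symm
      refine Finset.sum_subset (Finset.filter_subset _ _) (fun j hj hj' => ?_)
      have : i + 2 * ((j - i) / 2) ≠ j := fun h => hj' (Finset.mem_filter.2 ⟨hj, h⟩)
      rw [tot, dif_neg this, zero_comp]
    rw [h4, h5]
    refine Finset.sum_bij' (fun j _ => (j - i) / 2) (fun a _ => i + 2 * a) ?_ ?_ ?_ ?_ ?_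
    · intro j hj
      rw [Finset.mem_filter] at hj ⊢
      refine ⟨Finset.mem_union_right _ (Finset.mem_image.2 ⟨j, hj.1, rfl⟩), ?_⟩
      rw [hj.2]
      exact hj.1
    · intro a ha
      rw [Finset.mem_filter] at ha ⊢
      exact ⟨ha.2, by omega⟩
    · intro j hj
      rw [Finset.mem_filter] at hj
      exact hj.2
    · intro a _
      omega
    · intro j hj
      rw [Finset.mem_filter] at hj
      rw [hj.2]
  · push Not at hik
    rw [r.tot_odd _ i k hik]
    refine Finset.sum_eq_zero (fun j _ => ?_)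
    by_cases hij : ∃ n, i + 2 * n = j
    · obtain ⟨n, hn⟩ := hij
      rw [r.tot_odd v j k (fun m hm => hik (n + m) (by omega)), comp_zero]
    · push Not at hij
      rw [r.tot_odd u i j hij, zero_comp]

lemma tot_id (X : C) (i : ℤ) : r.tot (famId X) i i = 𝟙 (r.H X i) := by
  rw [r.tot_eq _ i i 0 (by omega)]
  have : famId X 0 = ShiftedHom.mk₀ (0 : ℤ) rfl (𝟙 X) := dif_pos rfl
  rw [this]
  exact r.act_id X i

lemma tot_id_ne (X : C) (i j : ℤ) (h : i ≠ j) : r.tot (famId X) i j = 0 := by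
  by_cases hij : ∃ n, i + 2 * n = j
  · obtain ⟨n, hn⟩ := hij
    have hn0 : n ≠ 0 := by omega
    rw [r.tot_eq _ i j n hn]
    have : famId X n = 0 := dif_neg hn0
    rw [this, r.act_zero]
  · push Not at hij
    exact r.tot_odd _ i j hij

/-- Compatibility with Lefschetz operators passes to the inverse. -/
theorem compatible_inv {M M' : C} {N : M ⟶ M⟦(1 : ℤ)⟧} {N' : M' ⟶ M'⟦(1 : ℤ)⟧} {d : ℕ}
    (hM : r.HardLefschetz d M N) (hM' : r.HardLefschetz d M' N') (e : OrbitEquiv M M')
    (he : r.Compatible N N' e.hom) : r.Compatible N' N e.inv := by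
  classical
  let S : Finset ℤ := Finset.Icc 0 (2 * (d : ℤ))
  have hS : ∀ j, j ∉ S → IsZero (r.H M j) := fun j hj =>
    hM.zero j (by rw [Finset.mem_Icc] at hj; omega)
  have hS' : ∀ j, j ∉ S → IsZero (r.H M' j) := fun j hj =>
    hM'.zero j (by rw [Finset.mem_Icc] at hj; omega)
  have hUV : ∀ i k, ∑ j ∈ S, r.tot e.hom i j ≫ r.tot e.inv j k = r.tot (famId M) i k := by
    intro i k
    rw [r.tot_comp e.hom e.finite_hom e.inv S hS']
    congr 1
    exact funext e.hom_inv_id
  have hVU : ∀ i k, ∑ j ∈ S, r.tot e.inv i j ≫ r.tot e.hom j k = r.tot (famId M') i k := by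
    intro i k
    rw [r.tot_comp e.inv e.finite_inv e.hom S hS]
    congr 1
    exact funext e.inv_hom_id
  -- compatibility in matrix form
  have hc : ∀ i k, r.act N i (i + 2) rfl ≫ r.tot e.hom (i + 2) (k + 2) =
      r.tot e.hom i k ≫ r.act N' k (k + 2) rfl := by
    intro i k
    by_cases hik : ∃ n, i + 2 * n = k
    · obtain ⟨n, hn⟩ := hik
      rw [r.tot_eq _ (i + 2) (k + 2) n (by omega), r.tot_eq _ i k n hn]
      exact r.compat' he n i (i + 2) (k + 2) k rfl (by omega) hn rfl
    · push Not at hik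
      rw [r.tot_odd _ i k hik, r.tot_odd _ (i + 2) (k + 2)
        (fun n hn => hik n (by omega)), zero_comp, comp_zero]
  intro n i
  have goal : r.act N' i (i + 2) rfl ≫ r.tot e.inv (i + 2) (i + 2 + 2 * n) =
      r.tot e.inv i (i + 2 * n) ≫ r.act N (i + 2 * n) (i + 2 + 2 * n) (by omega) := by
    have h1 : r.act N' i (i + 2) rfl ≫ r.tot e.inv (i + 2) (i + 2 + 2 * n) =
        ∑ j ∈ S, r.tot e.inv i j ≫ r.tot e.hom j i ≫ r.act N' i (i + 2) rfl ≫
          r.tot e.inv (i + 2) (i + 2 + 2 * n) := by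
      conv_lhs => rw [← Category.id_comp (r.act N' i (i + 2) rfl), ← r.tot_id M' i, ← hVU i i,
        Preadditive.sum_comp, Preadditive.sum_comp]
      exact Finset.sum_congr rfl (fun j _ => by simp only [Category.assoc])
    -- enlarge to a double sum: the intermediate index need not be `i`
    have h2 : ∀ k, k ≠ i → ∑ j ∈ S, (r.tot e.inv i j ≫ r.tot e.hom j k) ≫
        r.act N' k (k + 2) rfl ≫ r.tot e.inv (k + 2) (i + 2 + 2 * n) = 0 := by
      intro k hk
      rw [← Preadditive.sum_comp, hVU i k, r.tot_id_ne M' i k (Ne.symm hk), zero_comp]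
    let S' : Finset ℤ := insert i (Finset.Icc (-2) (2 * (d : ℤ)))
    have h3 : ∑ k ∈ S', ∑ j ∈ S, (r.tot e.inv i j ≫ r.tot e.hom j k) ≫
        r.act N' k (k + 2) rfl ≫ r.tot e.inv (k + 2) (i + 2 + 2 * n) =
        r.act N' i (i + 2) rfl ≫ r.tot e.inv (i + 2) (i + 2 + 2 * n) := by
      rw [Finset.sum_eq_single i]
      · refine Eq.trans ?_ h1.symm
        exact Finset.sum_congr rfl (fun j _ => by simp only [Category.assoc])
      · intro k _ hk
        exact h2 k hk
      · intro h
        exact absurd (Finset.mem_insert_self _ _) h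
    rw [← h3, Finset.sum_comm]
    have h4 : ∀ j ∈ S, ∑ k ∈ S', (r.tot e.inv i j ≫ r.tot e.hom j k) ≫
        r.act N' k (k + 2) rfl ≫ r.tot e.inv (k + 2) (i + 2 + 2 * n) =
        r.tot e.inv i j ≫ r.act N j (j + 2) rfl ≫
          ∑ k ∈ S', r.tot e.hom (j + 2) (k + 2) ≫ r.tot e.inv (k + 2) (i + 2 + 2 * n) := by
      intro j _
      rw [Preadditive.comp_sum, Preadditive.comp_sum]
      refine Finset.sum_congr rfl (fun k _ => ?_)
      rw [← Category.assoc (r.act N j (j + 2) rfl), hc j k]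
      simp only [Category.assoc]
    rw [Finset.sum_congr rfl h4]
    have h5 : ∀ j, ∑ k ∈ S', r.tot e.hom (j + 2) (k + 2) ≫ r.tot e.inv (k + 2) (i + 2 + 2 * n) =
        r.tot (famId M) (j + 2) (i + 2 + 2 * n) := by
      intro j
      rw [← hUV (j + 2) (i + 2 + 2 * n)]
      -- reindex `k + 2`, and compare with `S`
      have h6 : ∑ k ∈ S', r.tot e.hom (j + 2) (k + 2) ≫ r.tot e.inv (k + 2) (i + 2 + 2 * n) =
          ∑ k ∈ S'.image (fun k => k + 2),
            r.tot e.hom (j + 2) k ≫ r.tot e.inv k (i + 2 + 2 * n) := by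
        rw [Finset.sum_image (fun a _ b _ hab => by simpa using hab)]
      rw [h6]
      symm
      refine Finset.sum_subset (fun k hk => ?_) (fun k _ hk' => ?_)
      · rw [Finset.mem_Icc] at hk
        exact Finset.mem_image.2 ⟨k - 2, Finset.mem_insert_of_mem
          (Finset.mem_Icc.2 ⟨by omega, by omega⟩), by omega⟩
      · rw [(hS' k hk').eq_zero_of_src (r.tot e.inv k (i + 2 + 2 * n)), comp_zero]
    simp only [h5]
    by_cases hm : i + 2 * n ∈ S
    · rw [Finset.sum_eq_single (i + 2 * n)]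
      · have h7 : ∀ m, m = i + 2 + 2 * n → ∀ (h : i + 2 * n + 2 * 1 = m),
            r.act N (i + 2 * n) m h ≫ r.tot (famId M) m (i + 2 + 2 * n) =
              r.act N (i + 2 * n) (i + 2 + 2 * n) (by omega) := by
          intro m hm h
          subst hm
          rw [r.tot_id, Category.comp_id]
        rw [h7 _ (by omega)]
      · intro j _ hj
        rw [r.tot_id_ne M (j + 2) (i + 2 + 2 * n) (by omega), comp_zero, comp_zero]
      · intro h
        exact absurd hm h
    · rw [(hS _ hm).eq_zero_of_tgt (r.tot e.inv i (i + 2 * n)), zero_comp]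
      refine Finset.sum_eq_zero (fun j hj => ?_)
      have hj' : j ≠ i + 2 * n := fun h => hm (h ▸ hj)
      rw [r.tot_id_ne M (j + 2) (i + 2 + 2 * n) (by omega), comp_zero, comp_zero]
  rw [r.tot_eq e.inv (i + 2) (i + 2 + 2 * n) n rfl, r.tot_eq e.inv i (i + 2 * n) n rfl] at goal
  exact goal

end Realization

end Pool.Agent.Lib.MP_5c0b30_ag
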